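import Mathlib
import Pool.Agent.Lib.P325f1f.Dich.GameDefs

/-!
# Unique games with partially commuting constraint permutations

Definitions only.
-/

open Finset

namespace Pool.Agent.P325c

open Pool.Agent.P325f1f.Dich

/-- The largest weight of a clique of the graph `G`, for the weights `w` of the vertices. -/
noncomputable def cliqueWeight {κ : Type} [Fintype κ] (G : SimpleGraph κ) (w : κ → ℕ) : ℕ := by
  classical
  exact (univ.filter (fun F : Finset κ => G.IsClique (F : Set κ))).sup (fun F => ∑ k ∈ F, w k)

/-- The game `I` is played with permutations that commute along `G`, with frequencies proportional to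
`w`: every edge `e` has a type `c e`, its constraint is `σ (c e)` or the inverse of `σ (c e)`, the
permutations `σ k` and `σ l` commute whenever `k` and `l` are adjacent in `G`, and the proportion of
edges of type `k` is `w k / ∑ w`. -/
def CommutingWith {κ U W Ω ι : Type} [Fintype κ] [Fintype ι] (G : SimpleGraph κ) (w : κ → ℕ)
    (I : Game U W Ω ι) : Prop := by
  classical
  exact ∃ (c : ι → κ) (σ : κ → Equiv.Perm Ω),
    (∀ k l, G.Adj k l → σ k * σ l = σ l * σ k) ∧
    (∀ e, I.perm e = σ (c e) ∨ I.perm e = (σ (c e))⁻¹) ∧
      ∀ k, (univ.filter (fun e => c e = k)).card * ∑ l, w l = w k * Fintype.card ι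

/-! ## Words -/

/-- The inverse of a letter. -/
def linv {κ : Type} (a : κ × Bool) : κ × Bool := (a.1, !a.2)

/-- The permutation of a letter: `(k, true)` stands for `σ k` and `(k, false)` for its inverse. -/
def lperm {κ Ω : Type} (σ : κ → Equiv.Perm Ω) (a : κ × Bool) : Equiv.Perm Ω :=
  if a.2 then σ a.1 else (σ a.1)⁻¹

/-- The permutation of a word; the last letter acts first. -/
def wperm {κ Ω : Type} (σ : κ → Equiv.Perm Ω) : List (κ × Bool) → Equiv.Perm Ω
  | [] => 1
  | a :: l => lperm σ a * wperm σ l

/-- A word is reduced if between a letter and a later inverse letter there is always a letter that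
does not commute with them (in particular a letter does not commute with itself). -/
def Red {κ : Type} (G : SimpleGraph κ) (l : List (κ × Bool)) : Prop :=
  ∀ (x y z : List (κ × Bool)) (a : κ × Bool), l = x ++ a :: (y ++ linv a :: z) →
    ∃ c ∈ y, ¬ G.Adj a.1 c.1

/-- The permutations `σ` commute along `G`. -/
def Comm {κ Ω : Type} (G : SimpleGraph κ) (σ : κ → Equiv.Perm Ω) : Prop :=
  ∀ k l, G.Adj k l → σ k * σ l = σ l * σ k

/-- No nonempty reduced word of length at most `N` has a fixed point. -/
def FreeUpTo {κ Ω : Type} (G : SimpleGraph κ) (σ : κ → Equiv.Perm Ω) (N : ℕ) : Prop :=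
  ∀ l : List (κ × Bool), l ≠ [] → l.length ≤ N → Red G l → ∀ ω, wperm σ l ω ≠ ω

end Pool.Agent.P325c
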