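import Pool.Agent.Lib.P325t.Rate
import Pool.Agent.Lib.P325c.Defs

/-!
# The easy side for commuting permutations, with an explicit rate

Sketch. `κ` finite, `m = card κ`. `Γ = κ → Multiplicative ℤ` acts on `Ω` through
`MonoidHom.noncommPiCoprod (fun k => zpowersHom (Equiv.Perm Ω) (σ k)) _` (`MulAction.compHom`). Generators: the
letters `(k, b)`, i.e. `Pi.mulSingle k (ofAdd (±1))`, enumerated by `Fin (2 m)` or by `Fintype.equivFin (κ × Bool)`.
Folner set: the box `Fintype.piFinset (fun _ => interval N)` (`Pool.Agent.P325t.interval`), of cardinality `N ^ m`;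
multiplication by a generator moves at most a proportion `1 / N` of it outside (fibre over the other
coordinates; `interval_folner` or directly). Then `Pool.Agent.P325t.easy_core` with `η = κ' / 100`, and parameters
as in `params_lin` (copy its proof) with `N ^ m` in place of `N` and `k = ⌈100 m L⌉`, `L = 1 + log (1 / κ')`: as
`N ≤ 101 / κ'`, `φ = N ^ m (9 / 10) ^ k ≤ κ' / 100` follows from `m log (101 / κ') + log (100 / κ') ≤ 10 m L ≤ k / 10`.
`α = κ' / (10 k)`, the coefficient of `T` is `(1 + 4 k) / α ≤ 4.01 k * 10 k / κ' ≤ 500000 m ^ 2 L ^ 2 / κ'`, and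
`T = 2 (1 - objective)` gives the factor `1000000 m ^ 2`.
-/

open Finset
open scoped BigOperators

namespace Pool.Agent.P325c

open Pool.Agent.P325f1f.Dich Pool.Agent.P325f1f.Amen Pool.Agent.P325t

/-- The generators of the free abelian group and their inverses. -/
noncomputable def gen {κ : Type} (a : κ × Bool) : κ → Multiplicative ℤ := by
  classical
  exact Pi.mulSingle a.1 (Multiplicative.ofAdd (if a.2 then 1 else -1))

/-- The box. -/
noncomputable def box (κ : Type) [Fintype κ] (N : ℕ) : Finset (κ → Multiplicative ℤ) := by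
  classical
  exact Fintype.piFinset (fun _ => interval N)

theorem mem_box {κ : Type} [Fintype κ] {N : ℕ} {f : κ → Multiplicative ℤ} :
    f ∈ box κ N ↔ ∀ l, f l ∈ interval N := by
  classical
  unfold box
  exact Fintype.mem_piFinset

theorem card_box (κ : Type) [Fintype κ] (N : ℕ) : (box κ N).card = N ^ Fintype.card κ := by
  classical
  unfold box
  rw [Fintype.card_piFinset, Finset.prod_const, card_interval, Finset.card_univ]

/-- A face of the box. -/
theorem card_face {κ : Type} [Fintype κ] (N : ℕ) (S : Finset (κ → Multiplicative ℤ)) (k : κ)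
    (c : Multiplicative ℤ) (hS : ∀ f ∈ S, f ∈ box κ N ∧ f k = c) :
    N * S.card ≤ N ^ Fintype.card κ := by
  classical
  have h1 : S ⊆ Fintype.piFinset (fun l => if l = k then {c} else interval N) := by
    intro f hf
    rw [Fintype.mem_piFinset]
    intro l
    obtain ⟨h2, h3⟩ := hS f hf
    split_ifs with h
    · rw [Finset.mem_singleton, h, h3]
    · exact mem_box.1 h2 l
  have h2 : (Fintype.piFinset (fun l => if l = k then {c} else interval N)).card =
      ∏ l, if l = k then 1 else N := by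
    rw [Fintype.card_piFinset]
    refine Finset.prod_congr rfl fun l _ => ?_
    split_ifs
    · exact Finset.card_singleton _
    · exact card_interval N
  have h3 : N * ∏ l, (if l = k then 1 else N) = N ^ Fintype.card κ := by
    have h4 : (∏ l : κ, N) = N ^ Fintype.card κ := by
      rw [Finset.prod_const, Finset.card_univ]
    have h5 : N = ∏ l, if l = k then N else 1 := by
      rw [Finset.prod_ite_eq' univ k (fun _ => N)]
      simp
    nth_rewrite 1 [h5]
    rw [← h4, ← Finset.prod_mul_distrib]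
    refine Finset.prod_congr rfl fun l _ => ?_
    split_ifs <;> simp
  calc N * S.card ≤ N * ∏ l, (if l = k then 1 else N) :=
        Nat.mul_le_mul_left N ((Finset.card_le_card h1).trans h2.le)
    _ = N ^ Fintype.card κ := h3

open scoped Classical in
theorem box_out {κ : Type} [Fintype κ] (N : ℕ) (k : κ) (z : ℤ) (hz : z = 1 ∨ z = -1)
    (g : κ → Multiplicative ℤ) (hg : ∀ l, Multiplicative.toAdd (g l) = if l = k then z else 0)
    (η : ℝ) (hη : 1 ≤ η * N) (S : Finset (κ → Multiplicative ℤ))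
    (hS : ∀ f ∈ S, f ∈ box κ N ∧ f * g ∉ box κ N) :
    (S.card : ℝ) ≤ η * (box κ N).card := by
  have hη0 : 0 ≤ η := by
    by_contra h
    push Not at h
    have : η * N ≤ 0 := mul_nonpos_of_nonpos_of_nonneg h.le (Nat.cast_nonneg N)
    linarith
  have h1 : N * S.card ≤ N ^ Fintype.card κ := by
    refine card_face N S k (Multiplicative.ofAdd (if z = 1 then (N : ℤ) - 1 else 0)) ?_
    intro f hf
    obtain ⟨h2, h3⟩ := hS f hf
    refine ⟨h2, ?_⟩
    rw [mem_box] at h2 h3
    push Not at h3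
    obtain ⟨l, hl⟩ := h3
    have h4 := h2 l
    rw [mem_interval] at h4 hl
    rw [Pi.mul_apply, toAdd_mul, hg l] at hl
    by_cases hlk : l = k
    · subst hlk
      apply Multiplicative.toAdd.injective
      rw [toAdd_ofAdd]
      rw [if_pos rfl] at hl
      rcases hz with hz | hz
      · rw [if_pos hz]
        subst hz
        omega
      · rw [if_neg (by omega)]
        subst hz
        omega
    · rw [if_neg hlk, add_zero] at hl
      exact absurd h4 hl
  rw [card_box]
  have h2 : ((N * S.card : ℕ) : ℝ) ≤ ((N ^ Fintype.card κ : ℕ) : ℝ) := Nat.cast_le.2 h1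
  rw [Nat.cast_mul] at h2
  calc (S.card : ℝ) = 1 * S.card := (one_mul _).symm
    _ ≤ η * N * S.card := mul_le_mul_of_nonneg_right hη (Nat.cast_nonneg _)
    _ = η * (N * S.card) := by ring
    _ ≤ η * ((N ^ Fintype.card κ : ℕ) : ℝ) := mul_le_mul_of_nonneg_left h2 hη0

open scoped Classical in
theorem toAdd_gen {κ : Type} (a : κ × Bool) (l : κ) :
    Multiplicative.toAdd (gen a l) = if l = a.1 then (if a.2 then (1 : ℤ) else -1) else 0 := by
  unfold gen
  by_cases h : l = a.1
  · subst h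
    rw [Pi.mulSingle_eq_same, toAdd_ofAdd, if_pos rfl]
  · rw [Pi.mulSingle_eq_of_ne h, if_neg h, toAdd_one]

theorem box_folner {κ : Type} [Fintype κ] (N : ℕ) (η : ℝ) (hη : 1 ≤ η * N) (d : ℕ)
    (e : Fin d → κ × Bool) : ∀ (_ : DecidableEq (κ → Multiplicative ℤ)),
    ∀ j, (((box κ N).filter (fun f => f * gen (e j) ∉ box κ N)).card : ℝ) ≤
        η * (box κ N).card ∧
      (((box κ N).filter (fun f => f * (gen (e j))⁻¹ ∉ box κ N)).card : ℝ) ≤
        η * (box κ N).card := by
  classical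
  intro dΓ j
  constructor
  · refine box_out N (e j).1 (if (e j).2 then (1 : ℤ) else -1) ?_ (gen (e j))
      (toAdd_gen (e j)) η hη _ ?_
    · split_ifs
      · exact Or.inl rfl
      · exact Or.inr rfl
    · intro f hf
      exact Finset.mem_filter.1 hf
  · refine box_out N (e j).1 (-(if (e j).2 then (1 : ℤ) else -1)) ?_ (gen (e j))⁻¹
      ?_ η hη _ ?_
    · split_ifs
      · exact Or.inr rfl
      · exact Or.inl (by norm_num)
    · intro l
      rw [Pi.inv_apply, toAdd_inv, toAdd_gen (e j)]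
      split_ifs <;> simp
    · intro f hf
      exact Finset.mem_filter.1 hf

/-- The parameters, with explicit bounds. -/
theorem params_box (κ : ℝ) (hκ : 0 < κ) (hκ1 : κ ≤ 1) (m : ℕ) (hm : 0 < m) :
    ∃ (N k : ℕ) (α δ : ℝ), 0 < N ∧
    0 < α ∧ 0 < δ ∧ 1 ≤ κ / 100 * N ∧ (1 + δ) * ((N : ℝ) ^ m * (9 / 10) ^ k) ≤ 1 / 2 ∧
    ∀ T, 0 ≤ T → 4 * bd (κ / 100) α k δ T + 4 * ((1 + δ) * ((N : ℝ) ^ m * (9 / 10) ^ k)) ≤
      κ + (500000 * (m : ℝ) ^ 2 * (1 + Real.log (1 / κ)) ^ 2 / κ) * T := by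
  set L : ℝ := 1 + Real.log (1 / κ) with hL
  have hlog : 0 ≤ Real.log (1 / κ) := Real.log_nonneg ((one_le_div hκ).2 hκ1)
  have hL1 : 1 ≤ L := by linarith
  have hm1 : (1 : ℝ) ≤ m := by exact_mod_cast hm
  have hmL : 1 ≤ m * L := one_le_mul_of_one_le_of_one_le hm1 hL1
  set N : ℕ := ⌈100 / κ⌉₊ with hN
  have hN1 : 100 / κ ≤ N := Nat.le_ceil _
  have hN2 : (N : ℝ) < 100 / κ + 1 := Nat.ceil_lt_add_one (by positivity)
  have hN3 : (N : ℝ) ≤ 101 / κ := by
    have h1 : 1 ≤ 1 / κ := (one_le_div hκ).2 hκ1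
    have h2 : 101 / κ = 100 / κ + 1 / κ := by ring
    linarith
  have hNpos : (0 : ℝ) < N := lt_of_lt_of_le (by positivity) hN1
  set k : ℕ := ⌈100 * (m * L)⌉₊ with hk
  have hk1 : 100 * (m * L) ≤ k := Nat.le_ceil _
  have hk2 : (k : ℝ) < 100 * (m * L) + 1 := Nat.ceil_lt_add_one (by positivity)
  have hk3 : (k : ℝ) ≤ 101 * (m * L) := by linarith
  have hk4 : (100 : ℝ) ≤ k := by linarith
  have hk0 : (0 : ℝ) < k := by linarith
  -- the power
  have hpow : (9 / 10 : ℝ) ^ k ≤ (κ ^ 2 / 10100) ^ m := by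
    have h1 : (9 / 10 : ℝ) ≤ Real.exp (-(1 / 10)) := by
      have := Real.add_one_le_exp (-(1 / 10) : ℝ)
      linarith
    have h2 : (9 / 10 : ℝ) ^ k ≤ Real.exp (-(1 / 10)) ^ k :=
      pow_le_pow_left₀ (by norm_num) h1 k
    have h3 : Real.exp (-(1 / 10)) ^ k = Real.exp (-(k / 10)) := by
      rw [← Real.exp_nat_mul]
      congr 1
      ring
    have h4 : Real.exp (-(k / 10 : ℝ)) ≤ Real.exp (m * (-10 + 2 * Real.log κ)) := by
      apply Real.exp_le_exp.2
      have h5 : Real.log (1 / κ) = - Real.log κ := by rw [one_div, Real.log_inv]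
      have h6 : -(k / 10 : ℝ) ≤ -(10 * (m * L)) := by linarith
      have h7 : m * (-10 + 2 * Real.log κ) = -(10 * (m * L)) + 8 * (m * Real.log (1 / κ)) := by
        rw [hL, h5]
        ring
      have h8 : 0 ≤ m * Real.log (1 / κ) := by positivity
      linarith
    have h5 : Real.exp (-10 + 2 * Real.log κ) = Real.exp (-10) * κ ^ 2 := by
      rw [Real.exp_add]
      congr 1
      rw [two_mul, Real.exp_add, Real.exp_log hκ]
      ring
    rw [h3] at h2
    rw [Real.exp_nat_mul, h5] at h4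
    have h6 : Real.exp (-10) * κ ^ 2 ≤ κ ^ 2 / 10100 := by
      have h7 := mul_le_mul_of_nonneg_right exp_neg_ten (show (0 : ℝ) ≤ κ ^ 2 by positivity)
      linarith
    exact h2.trans (h4.trans (pow_le_pow_left₀ (by positivity) h6 m))
  set φ : ℝ := (N : ℝ) ^ m * (9 / 10) ^ k with hφ
  have hφ0 : 0 ≤ φ := by positivity
  have hφ1 : φ ≤ κ / 100 := by
    have h1 : φ ≤ (101 / κ) ^ m * (κ ^ 2 / 10100) ^ m :=
      mul_le_mul (pow_le_pow_left₀ hNpos.le hN3 m) hpow (by positivity) (by positivity)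
    have h2 : (101 / κ) * (κ ^ 2 / 10100) = κ / 100 := by
      field_simp
      norm_num
    rw [← mul_pow, h2] at h1
    refine h1.trans ?_
    have h3 := pow_le_of_le_one (show (0 : ℝ) ≤ κ / 100 by positivity)
      (show κ / 100 ≤ 1 by linarith) hm.ne'
    exact h3
  set α : ℝ := κ / (10 * k) with hα
  have hα0 : 0 < α := by positivity
  have hα1 : α ≤ 1 := by
    rw [hα, div_le_one (by positivity)]
    nlinarith
  have hkα : k * α = κ / 10 := by
    rw [hα]
    field_simp
  set δ : ℝ := κ * α / (100 * (k + 1)) with hδ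
  have hδ0 : 0 < δ := by positivity
  have hδα : δ * (100 * (k + 1)) = κ * α := by
    rw [hδ]
    field_simp
  have hδ1 : δ ≤ 1 := by
    rw [hδ, div_le_one (by positivity)]
    nlinarith
  refine ⟨N, k, α, δ, by exact_mod_cast hNpos, hα0, hδ0, ?_, ?_, ?_⟩
  · have h1 : κ / 100 * (100 / κ) = 1 := by
      field_simp
    calc (1 : ℝ) = κ / 100 * (100 / κ) := h1.symm
      _ ≤ κ / 100 * N := mul_le_mul_of_nonneg_left hN1 (by positivity)
  · nlinarith
  · intro T hT
    -- the coefficient of `T`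
    have c1 : (1 + 4 * k) / α ≤ 500000 * (m : ℝ) ^ 2 * L ^ 2 / κ := by
      rw [hα, div_div_eq_mul_div, div_le_div_iff_of_pos_right hκ]
      have h1 : (1 + 4 * (k : ℝ)) ≤ 4.01 * k := by linarith
      have h2 : (1 + 4 * (k : ℝ)) * (10 * k) ≤ 4.01 * k * (10 * k) :=
        mul_le_mul_of_nonneg_right h1 (by positivity)
      have h3 : (k : ℝ) ^ 2 ≤ (101 * (m * L)) ^ 2 := pow_le_pow_left₀ hk0.le hk3 2
      have h4 : (0 : ℝ) ≤ (m : ℝ) ^ 2 * L ^ 2 := by positivity
      nlinarith
    have c2 : δ / α ≤ κ / (100 * (k + 1)) := by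
      rw [hδ]
      apply le_of_eq
      field_simp
    have c3 : (k : ℝ) * (δ / α) ≤ κ / 100 := by
      have h1 : (k : ℝ) * (δ / α) ≤ k * (κ / (100 * (k + 1))) :=
        mul_le_mul_of_nonneg_left c2 hk0.le
      have h2 : (k : ℝ) * (κ / (100 * (k + 1))) ≤ κ / 100 := by
        rw [mul_div_assoc', div_le_div_iff₀ (by positivity) (by norm_num)]
        nlinarith
      linarith
    have c4 : (k : ℝ) * δ ≤ κ / 100 := by
      have h1 : (k : ℝ) * δ ≤ k * (δ / α) := by
        refine mul_le_mul_of_nonneg_left ?_ hk0.le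
        rw [le_div_iff₀ hα0]
        nlinarith
      linarith
    have c5 : δ ≤ κ / 100 := by nlinarith
    have e1 : 4 * bd (κ / 100) α k δ T + 4 * ((1 + δ) * φ) =
        4 * (κ / 100 * (1 + δ)) + 16 * α + 4 * δ + 4 * (k * α) * (1 + δ) +
          4 * (k * δ) * (1 + δ) + 4 * (k * (δ / α)) + 4 * ((1 + δ) * φ) +
          ((1 + 4 * k) / α) * T := by
      rw [bd]
      field_simp
      ring
    rw [e1]
    have e2 : ((1 + 4 * k) / α) * T ≤ (500000 * (m : ℝ) ^ 2 * L ^ 2 / κ) * T :=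
      mul_le_mul_of_nonneg_right c1 hT
    have e3 : 16 * α ≤ κ / 60 := by
      have h1 : 100 * α ≤ k * α := mul_le_mul_of_nonneg_right hk4 hα0.le
      linarith
    have e4 : (1 + δ) * φ ≤ (1 + κ / 100) * (κ / 100) :=
      mul_le_mul (by linarith) hφ1 hφ0 (by positivity)
    have e5 : 4 * (k * α) * (1 + δ) ≤ 4 * (κ / 10) * (1 + κ / 100) := by
      rw [hkα]
      exact mul_le_mul_of_nonneg_left (by linarith) (by positivity)
    have hκ100 : 0 ≤ κ / 100 := by positivity
    have e6 : 4 * (k * δ) * (1 + δ) ≤ 4 * (κ / 100) * (1 + κ / 100) := by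
      have f1 : 4 * (k * δ) ≤ 4 * (κ / 100) := by linarith
      have f2 : 1 + δ ≤ 1 + κ / 100 := by linarith
      have f3 : (0 : ℝ) ≤ 1 + δ := by linarith
      have f4 : 0 ≤ 4 * (κ / 100) := by linarith
      exact mul_le_mul f1 f2 f3 f4
    have e7 : 4 * (κ / 100 * (1 + δ)) ≤ 4 * (κ / 100 * (1 + κ / 100)) := by
      have f1 : κ / 100 * (1 + δ) ≤ κ / 100 * (1 + κ / 100) :=
        mul_le_mul_of_nonneg_left (by linarith) hκ100
      linarith
    have hκκ : κ * κ ≤ κ := by
      have := mul_le_mul_of_nonneg_left hκ1 hκ.le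
      linarith
    have g4 : (1 + κ / 100) * (κ / 100) = κ / 100 + κ * κ / 10000 := by ring
    have g5 : 4 * (κ / 10) * (1 + κ / 100) = 4 * κ / 10 + 4 * (κ * κ) / 1000 := by ring
    have g6 : 4 * (κ / 100) * (1 + κ / 100) = 4 * κ / 100 + 4 * (κ * κ) / 10000 := by ring
    have g7 : 4 * (κ / 100 * (1 + κ / 100)) = 4 * κ / 100 + 4 * (κ * κ) / 10000 := by ring
    rw [g4] at e4
    rw [g5] at e5
    rw [g6] at e6
    rw [g7] at e7
    linarith

open scoped Classical in
/-- The action of the free abelian group. -/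
theorem exists_action {κ Ω : Type} [Fintype κ] (σ : κ → Equiv.Perm Ω)
    (hcomm : ∀ k l, σ k * σ l = σ l * σ k) :
    ∃ F : (κ → Multiplicative ℤ) →* Equiv.Perm Ω,
      ∀ a : κ × Bool, F (gen a) = if a.2 then σ a.1 else (σ a.1)⁻¹ := by
  have hc : Pairwise fun i j => ∀ x y, Commute (zpowersHom (Equiv.Perm Ω) (σ i) x)
      (zpowersHom (Equiv.Perm Ω) (σ j) y) := by
    intro i j _ x y
    rw [zpowersHom_apply, zpowersHom_apply]
    have h : Commute (σ i) (σ j) := hcomm i j
    exact h.zpow_zpow _ _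
  refine ⟨MonoidHom.noncommPiCoprod (fun k => zpowersHom (Equiv.Perm Ω) (σ k)) hc, ?_⟩
  intro a
  unfold gen
  rw [MonoidHom.noncommPiCoprod_mulSingle, zpowersHom_apply, toAdd_ofAdd]
  split_ifs
  · rw [zpow_one]
  · rw [zpow_neg, zpow_one]

theorem lin_Zd (κ' : ℝ) (hκ : 0 < κ') (hκ1 : κ' ≤ 1) {κ Ω : Type} [Fintype κ] [Nonempty κ] [Fintype Ω]
    [Nonempty Ω] {U W ι : Type} [Fintype ι] [Nonempty ι] (I : Game U W Ω ι)
    (σ : κ → Equiv.Perm Ω) (hcomm : ∀ k l, σ k * σ l = σ l * σ k)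
    (hI : ∀ e, ∃ k, I.perm e = σ k ∨ I.perm e = (σ k)⁻¹) (D : ℕ) (x : U → Ω → Fin D → ℝ)
    (y : W → Ω → Fin D → ℝ) (hx : ∀ u, IsSys (x u)) (hy : ∀ w, IsSys (y w)) :
    1 - κ' - (1000000 * (Fintype.card κ : ℝ) ^ 2 * (1 + Real.log (1 / κ')) ^ 2 / κ') *
      (1 - 𝔼 e, ∑ ω, ∑ i, x (I.src e) ω i * y (I.dst e) (I.perm e ω) i) ≤ I.value := by
  classical
  set m := Fintype.card κ with hm
  have hm0 : 0 < m := Fintype.card_pos
  obtain ⟨N, k, α, δ, hN, hα, hδ, hNη, hhalf, hbd⟩ := params_box κ' hκ hκ1 m hm0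
  obtain ⟨Φ, hΦ⟩ := exists_action σ hcomm
  let _ : MulAction (κ → Multiplicative ℤ) Ω := MulAction.compHom Ω Φ
  set e0 := Fintype.equivFin (κ × Bool)
  set s : Fin (Fintype.card (κ × Bool)) → (κ → Multiplicative ℤ) := fun j => gen (e0.symm j)
    with hs
  have h1 : ∀ e, ∃ j, I.perm e = MulAction.toPerm (s j) := by
    intro e
    obtain ⟨l, hl⟩ := hI e
    have h2 : ∃ b : Bool, I.perm e = Φ (gen (l, b)) := by
      rcases hl with hl | hl
      · exact ⟨true, by rw [hl, hΦ]; simp⟩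
      · exact ⟨false, by rw [hl, hΦ]; simp⟩
    obtain ⟨b, hb⟩ := h2
    refine ⟨e0 (l, b), ?_⟩
    rw [hb]
    simp only [hs, Equiv.symm_apply_apply]
    ext ω
    rfl
  have hcard : ((box κ N).card : ℝ) = (N : ℝ) ^ m := by
    rw [card_box, Nat.cast_pow]
  have hne : (box κ N).Nonempty := by
    rw [← Finset.card_pos, card_box]
    exact Nat.pow_pos hN
  have hcore := easy_core s (box κ N) hne (κ' / 100) (by positivity)
    (box_folner N (κ' / 100) hNη _ (fun j => e0.symm j)) k α δ hα hδ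
    (by rw [hcard]; exact hhalf) Ω U W ι I h1 D x y hx hy
  refine le_trans ?_ hcore
  have h2 : ∀ e, 4 * bd (κ' / 100) α k δ (2 - 2 * ∑ ω, ∑ i, x (I.src e) ω i *
      y (I.dst e) (I.perm e ω) i) + 4 * ((1 + δ) * ((box κ N).card * (9 / 10) ^ k)) ≤
      κ' + (500000 * (m : ℝ) ^ 2 * (1 + Real.log (1 / κ')) ^ 2 / κ') *
        (2 - 2 * contrib I x y e) := by
    intro e
    rw [hcard]
    exact hbd _ (by
      have := contrib_le I x y hx hy e
      rw [contrib] at this
      linarith)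
  have h3 := Finset.expect_le_expect (s := univ) (fun e _ => h2 e)
  refine le_trans ?_ (sub_le_sub_left h3 1)
  rw [Finset.expect_add_distrib, Fintype.expect_const, ← Finset.mul_expect,
    Finset.expect_sub_distrib, Fintype.expect_const, ← Finset.mul_expect]
  apply le_of_eq
  have h4 : (𝔼 e, ∑ ω, ∑ i, x (I.src e) ω i * y (I.dst e) (I.perm e ω) i) =
      𝔼 e, contrib I x y e := rfl
  rw [h4]
  ring

end Pool.Agent.P325c
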