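import Pool.Agent.Lib.P325c.Defs
import Pool.Agent.Lib.P325t.WDefs

/-!
# The long code game with a letter and its inverse for every type

Definitions only.
-/

open Finset

namespace Pool.Agent.P325c

open Pool.Agent.P325f1f.Dich Pool.Agent.P325t

/-- One left vertex, one right vertex, the letters as edges. -/
def T0 (κ : Type) : TypeGraph Unit Unit (κ × Bool) where
  src _ := ()
  dst _ := ()

/-- The long code game of `I` played with the permutations `σ k` and their inverses; each of the two
has `w k` copies. -/
def commGame {U W Λ ι Ω κ : Type} (t : ℕ) (w : κ → ℕ) (σ : κ → Equiv.Perm Ω) (I : Game U W Λ ι) :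
    Game (Unit × U × (Λ → Ω)) (Unit × W × (Λ → Ω)) Ω
      (ι × ((a : κ × Bool) × Fin (w a.1)) × (Λ → Ω) × (Λ → Fin t × Ω)) :=
  typedGame t ((T0 κ).copies (fun a => w a.1)) (fun p => lperm σ p.1) I

end Pool.Agent.P325c
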