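import Mathlib

/-!
# Concentration for products of stabilisers in symmetric groups

Maurey's inequality: a function of a family of permutations that keep the fibres of given maps,
which changes by at most `L` when one permutation is multiplied by a transposition, is subgaussian.
-/

set_option linter.unusedSectionVars false

open Finset

namespace Pool.Agent.P325c

section jensen

/-- A weak form of Hoeffding's lemma for finite averages. -/
theorem sum_exp_le {B : Type} (s : Finset B) (m : B → ℝ) (L t : ℝ)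
    (hm : ∀ y ∈ s, ∀ y' ∈ s, |m y - m y'| ≤ L) (hs : s.Nonempty) :
    ∑ y ∈ s, Real.exp (t * m y) ≤
      s.card * Real.exp (t * ((∑ y ∈ s, m y) / s.card)) * Real.exp (t ^ 2 * L ^ 2 / 2) := by
  have hc : (0 : ℝ) < s.card := by exact_mod_cast hs.card_pos
  set M := (∑ y ∈ s, m y) / s.card with hM
  -- Jensen
  have h1 : Real.exp (-(t * M)) ≤ (∑ y ∈ s, Real.exp (-(t * m y))) / s.card := by
    have h := (convexOn_exp).map_sum_le (t := s) (w := fun _ => (1 : ℝ) / s.card)
      (p := fun y => -(t * m y)) (fun _ _ => by positivity)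
      (by rw [sum_const, nsmul_eq_mul]; field_simp) (fun _ _ => Set.mem_univ _)
    simp only [smul_eq_mul] at h
    have h2 : ∑ y ∈ s, 1 / (s.card : ℝ) * -(t * m y) = -(t * M) := by
      rw [← mul_sum, hM, sum_neg_distrib, ← mul_sum]
      field_simp
    rw [h2] at h
    refine h.trans (le_of_eq ?_)
    rw [← mul_sum]
    field_simp
  -- the double sum
  have h3 : (∑ y ∈ s, Real.exp (t * m y)) * (∑ y' ∈ s, Real.exp (-(t * m y'))) ≤
      (s.card : ℝ) ^ 2 * Real.exp (t ^ 2 * L ^ 2 / 2) := by
    have h4 : (∑ y ∈ s, Real.exp (t * m y)) * (∑ y' ∈ s, Real.exp (-(t * m y'))) =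
        ∑ y ∈ s, ∑ y' ∈ s, Real.exp (t * (m y - m y')) := by
      rw [sum_mul_sum]
      refine sum_congr rfl (fun y _ => sum_congr rfl (fun y' _ => ?_))
      rw [← Real.exp_add]; congr 1; ring
    have h5 : ∑ y ∈ s, ∑ y' ∈ s, Real.exp (t * (m y - m y')) =
        ∑ y ∈ s, ∑ y' ∈ s, Real.cosh (t * (m y - m y')) := by
      have h6 : ∑ y ∈ s, ∑ y' ∈ s, Real.exp (t * (m y - m y')) =
          ∑ y ∈ s, ∑ y' ∈ s, Real.exp (-(t * (m y - m y'))) := by
        rw [sum_comm]
        refine sum_congr rfl (fun y _ => sum_congr rfl (fun y' _ => ?_))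
        congr 1; ring
      have h7 : ∑ y ∈ s, ∑ y' ∈ s, Real.cosh (t * (m y - m y')) =
          ((∑ y ∈ s, ∑ y' ∈ s, Real.exp (t * (m y - m y'))) +
            ∑ y ∈ s, ∑ y' ∈ s, Real.exp (-(t * (m y - m y')))) / 2 := by
        rw [← sum_add_distrib, sum_div]
        refine sum_congr rfl (fun y _ => ?_)
        rw [← sum_add_distrib, sum_div]
        refine sum_congr rfl (fun y' _ => ?_)
        rw [Real.cosh_eq]
      rw [h7, ← h6]; ring
    rw [h4, h5]
    have h8 : ∀ y ∈ s, ∀ y' ∈ s, Real.cosh (t * (m y - m y')) ≤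
        Real.exp (t ^ 2 * L ^ 2 / 2) := by
      intro y hy y' hy'
      refine (Real.cosh_le_exp_half_sq _).trans ?_
      apply Real.exp_le_exp.2
      have h9 : (m y - m y') ^ 2 ≤ L ^ 2 := sq_le_sq' (by linarith [(abs_le.1 (hm y hy y' hy')).1])
        (abs_le.1 (hm y hy y' hy')).2
      have : (t * (m y - m y')) ^ 2 ≤ t ^ 2 * L ^ 2 := by
        rw [mul_pow]
        exact mul_le_mul_of_nonneg_left h9 (sq_nonneg _)
      linarith
    calc ∑ y ∈ s, ∑ y' ∈ s, Real.cosh (t * (m y - m y'))
        ≤ ∑ y ∈ s, ∑ y' ∈ s, Real.exp (t ^ 2 * L ^ 2 / 2) :=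
          sum_le_sum (fun y hy => sum_le_sum (fun y' hy' => h8 y hy y' hy'))
      _ = _ := by
          rw [sum_const, sum_const]
          simp only [nsmul_eq_mul]
          ring
  have h10 : (∑ y ∈ s, Real.exp (t * m y)) * Real.exp (-(t * M)) ≤
      s.card * Real.exp (t ^ 2 * L ^ 2 / 2) := by
    calc (∑ y ∈ s, Real.exp (t * m y)) * Real.exp (-(t * M))
        ≤ (∑ y ∈ s, Real.exp (t * m y)) * ((∑ y ∈ s, Real.exp (-(t * m y))) / s.card) :=
          mul_le_mul_of_nonneg_left h1 (sum_nonneg (fun _ _ => (Real.exp_pos _).le))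
      _ = ((∑ y ∈ s, Real.exp (t * m y)) * (∑ y' ∈ s, Real.exp (-(t * m y')))) / s.card := by ring
      _ ≤ ((s.card : ℝ) ^ 2 * Real.exp (t ^ 2 * L ^ 2 / 2)) / s.card := by
          gcongr
      _ = _ := by field_simp
  have h11 : ∑ y ∈ s, Real.exp (t * m y) =
      (∑ y ∈ s, Real.exp (t * m y)) * Real.exp (-(t * M)) * Real.exp (t * M) := by
    rw [mul_assoc, ← Real.exp_add]; simp
  rw [h11]
  calc _ ≤ s.card * Real.exp (t ^ 2 * L ^ 2 / 2) * Real.exp (t * M) :=
        mul_le_mul_of_nonneg_right h10 (Real.exp_pos _).le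
    _ = _ := by ring

end jensen

section groups

variable {K Z C : Type} [Fintype K] [DecidableEq K] [Fintype Z] [DecidableEq Z]

/-- The permutations of the family keep the fibres. -/
def Keeps (cl : K → Z → C) (g : K → Equiv.Perm Z) : Prop := ∀ k z, cl k (g k z) = cl k z

open Classical in
/-- The families that keep the fibres and move only the points of `A`. -/
noncomputable def GA (cl : K → Z → C) (A : Finset (K × Z)) : Finset (K → Equiv.Perm Z) :=
  univ.filter (fun g => Keeps cl g ∧ ∀ k z, (k, z) ∉ A → g k z = z)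

theorem mem_GA (cl : K → Z → C) (A : Finset (K × Z)) (g : K → Equiv.Perm Z) :
    g ∈ GA cl A ↔ Keeps cl g ∧ ∀ k z, (k, z) ∉ A → g k z = z := by
  simp [GA]

/-- One swap. -/
def sw (k : K) (x y : Z) : K → Equiv.Perm Z := Pi.mulSingle k (Equiv.swap x y)

theorem sw_apply_same (k : K) (x y z : Z) : sw k x y k z = Equiv.swap x y z := by
  simp [sw]

theorem sw_apply_ne {k k' : K} (h : k' ≠ k) (x y : Z) : sw k x y k' = 1 := by
  simp [sw, h]

theorem sw_mul_sw_self (k : K) (x y : Z) : sw k x y * sw k x y = 1 := by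
  simp [sw, ← Pi.mulSingle_mul]

theorem keeps_sw (cl : K → Z → C) (k : K) {x y : Z} (h : cl k x = cl k y) :
    Keeps cl (sw k x y) := by
  intro k' z
  by_cases hk : k' = k
  · subst hk
    rw [sw_apply_same, Equiv.swap_apply_def]
    split_ifs with h1 h2
    · rw [h1, h]
    · rw [h2, h]
    · rfl
  · rw [sw_apply_ne hk]; rfl

theorem keeps_mul (cl : K → Z → C) {g h : K → Equiv.Perm Z} (hg : Keeps cl g) (hh : Keeps cl h) :
    Keeps cl (g * h) := by
  intro k z
  rw [Pi.mul_apply, Equiv.Perm.mul_apply, hg, hh]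

open Classical in
theorem sum_GA_insert (cl : K → Z → C) (A : Finset (K × Z)) (k0 : K) (z0 : Z)
    (hA : (k0, z0) ∉ A) (F : (K → Equiv.Perm Z) → ℝ) :
    ∑ g ∈ GA cl (insert (k0, z0) A), F g =
      ∑ y ∈ univ.filter (fun y => (k0, y) ∈ insert (k0, z0) A ∧ cl k0 y = cl k0 z0),
        ∑ h ∈ GA cl A, F (sw k0 z0 y * h) := by
  rw [← sum_product']
  symm
  refine sum_nbij' (fun p => sw k0 z0 p.1 * p.2)
    (fun g => (g k0 z0, sw k0 z0 (g k0 z0) * g)) ?_ ?_ ?_ ?_ ?_
  · rintro ⟨y, h⟩ hp
    simp only [mem_product, mem_filter, mem_univ, true_and] at hp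
    obtain ⟨⟨hy, hcy⟩, hh⟩ := hp
    rw [mem_GA] at hh ⊢
    refine ⟨keeps_mul cl (keeps_sw cl k0 hcy.symm) hh.1, ?_⟩
    intro k z hkz
    have h1 : (k, z) ∉ A := fun h => hkz (mem_insert_of_mem h)
    rw [Pi.mul_apply, Equiv.Perm.mul_apply, hh.2 k z h1]
    by_cases hk : k = k0
    · subst hk
      rw [sw_apply_same]
      apply Equiv.swap_apply_of_ne_of_ne
      · rintro rfl
        exact hkz (mem_insert_self _ _)
      · rintro rfl
        exact hkz hy
    · rw [sw_apply_ne hk]; rfl
  · intro g hg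
    rw [mem_GA] at hg
    have hy : (k0, g k0 z0) ∈ insert (k0, z0) A := by
      by_contra hcon
      have h1 := hg.2 _ _ hcon
      have h2 : g k0 z0 = z0 := (g k0).injective h1
      rw [h2] at hcon
      exact hcon (mem_insert_self _ _)
    simp only [mem_product, mem_filter, mem_univ, true_and]
    refine ⟨⟨hy, hg.1 _ _⟩, ?_⟩
    rw [mem_GA]
    refine ⟨keeps_mul cl (keeps_sw cl k0 (hg.1 _ _).symm) hg.1, ?_⟩
    intro k z hkz
    rw [Pi.mul_apply, Equiv.Perm.mul_apply]
    by_cases hk : k = k0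
    · subst hk
      rw [sw_apply_same]
      by_cases hz : z = z0
      · subst hz
        exact Equiv.swap_apply_right _ _
      · have h1 : (k, z) ∉ insert (k, z0) A := by
          rw [mem_insert, not_or]
          refine ⟨?_, hkz⟩
          rintro h
          exact hz (Prod.mk.inj h).2
        rw [hg.2 k z h1]
        apply Equiv.swap_apply_of_ne_of_ne hz
        rintro h2
        rw [h2] at h1
        exact h1 hy
    · rw [sw_apply_ne hk]
      have h1 : (k, z) ∉ insert (k0, z0) A := by
        rw [mem_insert, not_or]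
        refine ⟨?_, hkz⟩
        rintro h
        exact hk (Prod.mk.inj h).1
      rw [hg.2 k z h1]; rfl
  · rintro ⟨y, h⟩ hp
    simp only [mem_product, mem_filter, mem_univ, true_and] at hp
    obtain ⟨⟨hy, hcy⟩, hh⟩ := hp
    rw [mem_GA] at hh
    have h1 : (sw k0 z0 y * h) k0 z0 = y := by
      rw [Pi.mul_apply, Equiv.Perm.mul_apply, hh.2 _ _ hA, sw_apply_same]
      exact Equiv.swap_apply_left _ _
    simp only [h1]
    rw [← mul_assoc, sw_mul_sw_self, one_mul]
  · intro g _
    simp only
    rw [← mul_assoc, sw_mul_sw_self, one_mul]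
  · rintro ⟨y, h⟩ _
    rfl

/-- Multiplication by a transposition changes `f` by at most `L`. -/
def SwapLip (cl : K → Z → C) (f : (K → Equiv.Perm Z) → ℝ) (L : ℝ) : Prop :=
  ∀ g, Keeps cl g → ∀ k x y, cl k x = cl k y → |f (sw k x y * g) - f g| ≤ L

theorem sw_mul_sw_comm (k : K) (x y a b : Z) :
    sw k x y * sw k a b = sw k (Equiv.swap x y a) (Equiv.swap x y b) * sw k x y := by
  unfold sw
  rw [← Pi.mulSingle_mul, ← Pi.mulSingle_mul, Equiv.mul_swap_eq_swap_mul]

theorem swapLip_shift (cl : K → Z → C) (f : (K → Equiv.Perm Z) → ℝ) (L : ℝ)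
    (hf : SwapLip cl f L) (k0 : K) (x y : Z) (hxy : cl k0 x = cl k0 y) :
    SwapLip cl (fun h => f (sw k0 x y * h)) L := by
  intro g hg k a b hab
  simp only
  by_cases hk : k = k0
  · subst hk
    rw [← mul_assoc, sw_mul_sw_comm, mul_assoc]
    apply hf _ (keeps_mul cl (keeps_sw cl k hxy) hg)
    have h1 : ∀ z, cl k (Equiv.swap x y z) = cl k z := by
      intro z
      have := keeps_sw cl k hxy k z
      rwa [sw_apply_same] at this
    rw [h1, h1, hab]
  · have h1 : sw k0 x y * (sw k a b * g) = sw k a b * (sw k0 x y * g) := by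
      rw [← mul_assoc, ← mul_assoc]
      congr 1
      unfold sw
      exact (Pi.mulSingle_commute (f := fun _ : K => Equiv.Perm Z) (fun h => hk h.symm)
        (Equiv.swap x y) (Equiv.swap a b)).eq
    rw [h1]
    exact hf _ (keeps_mul cl (keeps_sw cl k0 hxy) hg) k a b hab

theorem GA_card_pos (cl : K → Z → C) (A : Finset (K × Z)) : 0 < (GA cl A).card := by
  apply card_pos.2
  refine ⟨1, ?_⟩
  rw [mem_GA]
  exact ⟨fun k z => rfl, fun k z _ => rfl⟩

theorem GA_empty (cl : K → Z → C) : GA cl ∅ = {1} := by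
  ext g
  rw [mem_GA, mem_singleton]
  constructor
  · rintro ⟨_, h⟩
    funext k
    ext1 z
    exact h k z (notMem_empty _)
  · rintro rfl
    exact ⟨fun k z => rfl, fun k z _ => rfl⟩

open Classical in
/-- The exponential moment. -/
theorem exp_moment (cl : K → Z → C) (L t : ℝ) (hL : 0 ≤ L) (A : Finset (K × Z)) :
    ∀ f : (K → Equiv.Perm Z) → ℝ, SwapLip cl f L →
      ∑ g ∈ GA cl A, Real.exp (t * f g) ≤
        (GA cl A).card * Real.exp (t * ((∑ g ∈ GA cl A, f g) / (GA cl A).card)) *
          Real.exp (A.card * (t ^ 2 * L ^ 2 / 2)) := by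
  induction A using Finset.induction_on with
  | empty =>
    intro f _
    rw [GA_empty]
    simp
  | insert p A hp ih =>
    obtain ⟨k0, z0⟩ := p
    intro f hf
    set B : Finset Z := univ.filter
      (fun y => (k0, y) ∈ insert (k0, z0) A ∧ cl k0 y = cl k0 z0) with hB
    have hBne : B.Nonempty := ⟨z0, by simp [hB]⟩
    have hBc : ∀ y ∈ B, cl k0 z0 = cl k0 y := by
      intro y hy
      rw [hB, mem_filter] at hy
      exact hy.2.2.symm
    set G : ℝ := ((GA cl A).card : ℝ) with hG
    have hGpos : 0 < G := by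
      rw [hG]; exact_mod_cast GA_card_pos cl A
    set b : ℝ := (B.card : ℝ) with hb
    have hbpos : 0 < b := by
      rw [hb]; exact_mod_cast hBne.card_pos
    -- the means
    let m : Z → ℝ := fun y => (∑ h ∈ GA cl A, f (sw k0 z0 y * h)) / G
    have hcard : ((GA cl (insert (k0, z0) A)).card : ℝ) = b * G := by
      have h := sum_GA_insert cl A k0 z0 hp (fun _ => (1 : ℝ))
      rw [← hB] at h
      simp only [sum_const, nsmul_eq_mul, mul_one] at h
      rw [h]
    have hmean : (∑ g ∈ GA cl (insert (k0, z0) A), f g) /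
        ((GA cl (insert (k0, z0) A)).card : ℝ) = (∑ y ∈ B, m y) / b := by
      rw [sum_GA_insert cl A k0 z0 hp f, ← hB, hcard]
      simp only [m]
      rw [← sum_div]
      field_simp
    have hdiff0 : ∀ y ∈ B, ∀ g, Keeps cl g → |f (sw k0 z0 y * g) - f g| ≤ L :=
      fun y hy g hg => hf g hg k0 z0 y (hBc y hy)
    have hmemk : ∀ h ∈ GA cl A, Keeps cl h := fun h hh => ((mem_GA _ _ _).1 hh).1
    have havg : ∀ (F F' : (K → Equiv.Perm Z) → ℝ),
        (∀ h ∈ GA cl A, |F h - F' h| ≤ L) →
        |(∑ h ∈ GA cl A, F h) / G - (∑ h ∈ GA cl A, F' h) / G| ≤ L := by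
      intro F F' hFF
      rw [← sub_div, ← sum_sub_distrib, abs_div, abs_of_pos hGpos, div_le_iff₀ hGpos]
      refine (abs_sum_le_sum_abs _ _).trans ((sum_le_sum hFF).trans (le_of_eq ?_))
      rw [sum_const, nsmul_eq_mul, hG, mul_comm]
    have hone : sw k0 z0 z0 = (1 : K → Equiv.Perm Z) := by
      unfold sw
      rw [Equiv.swap_self]
      exact Pi.mulSingle_one k0
    have hm : ∀ y ∈ B, ∀ y' ∈ B, |m y - m y'| ≤ L := by
      intro y hy y' hy'
      by_cases hyy : y = y'
      · subst hyy; simpa using hL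
      by_cases hy0 : y = z0
      · subst hy0
        refine havg _ _ (fun h hh => ?_)
        rw [hone, one_mul, abs_sub_comm]
        exact hdiff0 y' hy' h (hmemk h hh)
      by_cases hy0' : y' = z0
      · subst hy0'
        refine havg _ _ (fun h hh => ?_)
        rw [hone, one_mul]
        exact hdiff0 y hy h (hmemk h hh)
      -- reparametrise
      have hyA : (k0, y) ∈ A := by
        rw [hB, mem_filter] at hy
        rcases mem_insert.1 hy.2.1 with h | h
        · exact absurd (Prod.mk.inj h).2 hy0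
        · exact h
      have hyA' : (k0, y') ∈ A := by
        rw [hB, mem_filter] at hy'
        rcases mem_insert.1 hy'.2.1 with h | h
        · exact absurd (Prod.mk.inj h).2 hy0'
        · exact h
      have hcyy : cl k0 y = cl k0 y' := by rw [← hBc y hy, hBc y' hy']
      have hperm : ∑ h ∈ GA cl A, f (sw k0 z0 y * h) =
          ∑ h ∈ GA cl A, f (sw k0 z0 y * (sw k0 y y' * h)) := by
        symm
        have hmaps : ∀ h ∈ GA cl A, sw k0 y y' * h ∈ GA cl A := by
          intro h hh
          rw [mem_GA] at hh ⊢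
          refine ⟨keeps_mul cl (keeps_sw cl k0 hcyy) hh.1, ?_⟩
          intro k z hkz
          rw [Pi.mul_apply, Equiv.Perm.mul_apply, hh.2 k z hkz]
          by_cases hk : k = k0
          · subst hk
            rw [sw_apply_same]
            apply Equiv.swap_apply_of_ne_of_ne
            · rintro rfl; exact hkz hyA
            · rintro rfl; exact hkz hyA'
          · rw [sw_apply_ne hk]; rfl
        refine sum_nbij' (fun h => sw k0 y y' * h) (fun h => sw k0 y y' * h) hmaps hmaps ?_ ?_ ?_
        · intro h _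
          rw [← mul_assoc, sw_mul_sw_self, one_mul]
        · intro h _
          rw [← mul_assoc, sw_mul_sw_self, one_mul]
        · intro h _; rfl
      have halg : ∀ h : K → Equiv.Perm Z, sw k0 z0 y * (sw k0 y y' * h) =
          sw k0 y y' * (sw k0 z0 y' * h) := by
        intro h
        rw [← mul_assoc, ← mul_assoc, sw_mul_sw_comm k0 y y' z0 y', Equiv.swap_apply_right,
          Equiv.swap_apply_of_ne_of_ne (Ne.symm hy0) (Ne.symm hy0')]
      have : m y = (∑ h ∈ GA cl A, f (sw k0 y y' * (sw k0 z0 y' * h))) / G := by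
        simp only [m]
        rw [hperm]
        congr 1
        exact sum_congr rfl (fun h _ => by rw [halg])
      rw [this]
      refine havg _ _ (fun h hh => ?_)
      exact hf _ (keeps_mul cl (keeps_sw cl k0 (hBc y' hy')) (hmemk h hh)) k0 y y' hcyy
    rw [hmean, hcard, sum_GA_insert cl A k0 z0 hp (fun g => Real.exp (t * f g)), ← hB,
      card_insert_of_notMem hp]
    have hstep : ∀ y ∈ B, ∑ h ∈ GA cl A, Real.exp (t * f (sw k0 z0 y * h)) ≤
        G * Real.exp (t * m y) * Real.exp (A.card * (t ^ 2 * L ^ 2 / 2)) := by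
      intro y hy
      exact ih (fun h => f (sw k0 z0 y * h)) (swapLip_shift cl f L hf k0 z0 y (hBc y hy))
    have hj := sum_exp_le B m L t hm hBne
    rw [← hb] at hj
    calc ∑ y ∈ B, ∑ h ∈ GA cl A, Real.exp (t * f (sw k0 z0 y * h))
        ≤ ∑ y ∈ B, G * Real.exp (t * m y) * Real.exp (A.card * (t ^ 2 * L ^ 2 / 2)) :=
          sum_le_sum hstep
      _ = G * (∑ y ∈ B, Real.exp (t * m y)) * Real.exp (A.card * (t ^ 2 * L ^ 2 / 2)) := by
          rw [mul_sum, sum_mul]
      _ ≤ G * (b * Real.exp (t * ((∑ y ∈ B, m y) / b)) * Real.exp (t ^ 2 * L ^ 2 / 2)) *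
            Real.exp (A.card * (t ^ 2 * L ^ 2 / 2)) := by
          gcongr
      _ = b * G * Real.exp (t * ((∑ y ∈ B, m y) / b)) *
            (Real.exp (t ^ 2 * L ^ 2 / 2) * Real.exp (A.card * (t ^ 2 * L ^ 2 / 2))) := by ring
      _ = _ := by
          rw [← Real.exp_add]
          congr 2
          push_cast
          ring

open Classical in
/-- All families that keep the fibres. -/
noncomputable def keepSet (cl : K → Z → C) : Finset (K → Equiv.Perm Z) :=
  univ.filter (fun g => Keeps cl g)

theorem mem_keepSet (cl : K → Z → C) (g : K → Equiv.Perm Z) :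
    g ∈ keepSet cl ↔ Keeps cl g := by
  simp [keepSet]

theorem keepSet_eq (cl : K → Z → C) : keepSet cl = GA cl univ := by
  ext g
  rw [mem_GA, mem_keepSet]
  simp

open Classical in
/-- **Maurey's inequality** for families of permutations that keep fibres. -/
theorem maurey (cl : K → Z → C) (f : (K → Equiv.Perm Z) → ℝ) (L s : ℝ) (hL : 0 < L) (hs : 0 ≤ s)
    (hKZ : 0 < Fintype.card K * Fintype.card Z) (hf : SwapLip cl f L) :
    (((keepSet cl).filter (fun g => (∑ g ∈ keepSet cl, f g) / (keepSet cl).card + s ≤ f g)).card : ℝ)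
      ≤ Real.exp (-(s ^ 2 / (2 * L ^ 2 * (Fintype.card K * Fintype.card Z)))) *
        (keepSet cl).card := by
  have hn : (0 : ℝ) < Fintype.card K * Fintype.card Z := by exact_mod_cast hKZ
  set n : ℝ := (Fintype.card K : ℝ) * Fintype.card Z with hndef
  set M := (∑ g ∈ keepSet cl, f g) / (keepSet cl).card with hM
  set t := s / (L ^ 2 * n) with ht
  have ht0 : 0 ≤ t := by positivity
  have h1 := exp_moment cl L t hL.le univ f hf
  rw [← keepSet_eq, ← hM, card_univ, Fintype.card_prod, Nat.cast_mul, ← hndef] at h1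
  have h2 : (((keepSet cl).filter (fun g => M + s ≤ f g)).card : ℝ) * Real.exp (t * (M + s)) ≤
      ∑ g ∈ keepSet cl, Real.exp (t * f g) := by
    calc (((keepSet cl).filter (fun g => M + s ≤ f g)).card : ℝ) * Real.exp (t * (M + s))
        = ∑ g ∈ (keepSet cl).filter (fun g => M + s ≤ f g), Real.exp (t * (M + s)) := by
          rw [sum_const, nsmul_eq_mul]
      _ ≤ ∑ g ∈ (keepSet cl).filter (fun g => M + s ≤ f g), Real.exp (t * f g) := by
          refine sum_le_sum (fun g hg => ?_)
          rw [mem_filter] at hg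
          exact Real.exp_le_exp.2 (mul_le_mul_of_nonneg_left hg.2 ht0)
      _ ≤ _ := sum_le_sum_of_subset_of_nonneg (filter_subset _ _)
          (fun _ _ _ => (Real.exp_pos _).le)
  have h3 : (((keepSet cl).filter (fun g => M + s ≤ f g)).card : ℝ) * Real.exp (t * (M + s)) ≤
      (keepSet cl).card * Real.exp (t * M) * Real.exp (n * (t ^ 2 * L ^ 2 / 2)) := h2.trans h1
  have h4 : Real.exp (t * M) * Real.exp (n * (t ^ 2 * L ^ 2 / 2)) =
      Real.exp (t * (M + s)) * Real.exp (-(s ^ 2 / (2 * L ^ 2 * n))) := by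
    rw [← Real.exp_add, ← Real.exp_add]
    congr 1
    rw [ht]
    field_simp
    ring
  rw [mul_assoc, h4] at h3
  have h5 : (0 : ℝ) < Real.exp (t * (M + s)) := Real.exp_pos _
  have h6 : (((keepSet cl).filter (fun g => M + s ≤ f g)).card : ℝ) * Real.exp (t * (M + s)) ≤
      (Real.exp (-(s ^ 2 / (2 * L ^ 2 * n))) * (keepSet cl).card) * Real.exp (t * (M + s)) := by
    refine h3.trans (le_of_eq ?_)
    ring
  exact le_of_mul_le_mul_right h6 h5

end groups

end Pool.Agent.P325c
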