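import Pool.Agent.Lib.P325c.Box
import Pool.Agent.Lib.P325t.WEasy

/-!
# The easy side for partially commuting permutations

Sketch. Take a clique `F` with `∑ k ∈ F, w k = cliqueWeight G w` (the `sup` of a nonempty finite family is attained). If `F` is empty (or
the weight is `0`) the claim follows from `0 ≤ value` (`Pool.Agent.P325t.value_nonneg'`). Otherwise the
game restricted to the edges `e` with `c e ∈ F` (index type `{e // c e ∈ F}`, a proportion
`cliqueWeight / ∑ w` of all edges) satisfies the hypotheses of `lin_Zd` (with `κ := F`); combine as in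
`Pool.Agent.P325t.easyW_aux`, `easyW` (there is one component only): with `m ≤ d = card κ`, every `κ'`,
`m / n - κ' - 1000000 d ^ 2 (1 + log (1/κ')) ^ 2 / κ' * ε ≤ value`, and choose `κ' = 1000 d √ε (1 + log (1 / ε))` if this is at most `1` (as in
`easyW`), the claim being trivial otherwise.
-/

open Finset
open scoped BigOperators

namespace Pool.Agent.P325c

open Pool.Agent.P325f1f.Dich Pool.Agent.P325f1f.Amen Pool.Agent.P325t

/-- A clique of the largest weight. -/
theorem exists_clique {κ : Type} [Fintype κ] (G : SimpleGraph κ) (w : κ → ℕ) :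
    ∃ F : Finset κ, G.IsClique (F : Set κ) ∧ ∑ k ∈ F, w k = cliqueWeight G w := by
  classical
  have hne : (univ.filter (fun F : Finset κ => G.IsClique (F : Set κ))).Nonempty := by
    refine ⟨∅, ?_⟩
    rw [Finset.mem_filter]
    refine ⟨mem_univ _, ?_⟩
    rw [Finset.coe_empty]
    exact SimpleGraph.isClique_empty
  obtain ⟨F, hF, hsup⟩ := Finset.exists_mem_eq_sup _ hne (fun F => ∑ k ∈ F, w k)
  refine ⟨F, (Finset.mem_filter.1 hF).2, ?_⟩
  rw [cliqueWeight, ← hsup]

/-- The easy side with a free parameter `κ'`. -/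
theorem easyC_aux {κ : Type} [Fintype κ] (G : SimpleGraph κ)
    (w : κ → ℕ) (hw : 0 < ∑ k, w k) {U W Ω ι : Type} [Fintype Ω] [Nonempty Ω] [Fintype ι]
    [Nonempty ι] (I : Game U W Ω ι) (hI : CommutingWith G w I) (D : ℕ) (x : U → Ω → Fin D → ℝ)
    (y : W → Ω → Fin D → ℝ) (hx : ∀ u, IsSys (x u)) (hy : ∀ w, IsSys (y w))
    (a : ℝ) (ha : 0 < a) (ha1 : a ≤ 1) :
    (cliqueWeight G w : ℝ) / ((∑ k, w k : ℕ) : ℝ) - a -
      (1000000 * (Fintype.card κ : ℝ) ^ 2 * (1 + Real.log (1 / a)) ^ 2 / a) *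
      (1 - (𝔼 e, ∑ ω, ∑ i, x (I.src e) ω i * y (I.dst e) (I.perm e ω) i)) ≤ I.value := by
  classical
  obtain ⟨c, σ, hcomm, hperm, hfreq⟩ := hI
  have hι : (0 : ℝ) < Fintype.card ι := by exact_mod_cast Fintype.card_pos
  have hn : (0 : ℝ) < ((∑ k, w k : ℕ) : ℝ) := by exact_mod_cast hw
  set n : ℝ := ((∑ k, w k : ℕ) : ℝ) with hndef
  obtain ⟨F, hFs, hFw⟩ := exists_clique G w
  set B : ℝ := 1000000 * (Fintype.card κ : ℝ) ^ 2 * (1 + Real.log (1 / a)) ^ 2 / a with hB
  have hB0 : 0 ≤ B := by positivity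
  -- the edges with type in `F`
  set E : Finset ι := univ.filter (fun e => c e ∈ F) with hE
  have hEcard : (E.card : ℝ) * n = cliqueWeight G w * Fintype.card ι := by
    have h1 : E.card = ∑ k ∈ F, (univ.filter (fun e => c e = k)).card := by
      rw [Finset.card_eq_sum_card_fiberwise (f := c) (s := E) (t := F)
        (fun e he => (Finset.mem_filter.1 he).2)]
      refine Finset.sum_congr rfl (fun k hk => ?_)
      congr 1
      ext e
      simp only [Finset.mem_filter, mem_univ, true_and, hE]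
      exact ⟨fun h => h.2, fun h => ⟨by rw [h]; exact hk, h⟩⟩
    have h2 : E.card * ∑ l, w l = cliqueWeight G w * Fintype.card ι := by
      rw [h1, Finset.sum_mul, ← hFw, Finset.sum_mul]
      refine Finset.sum_congr rfl (fun k _ => ?_)
      rw [← hfreq k]
    rw [hndef]
    exact_mod_cast h2
  have hobj : (𝔼 e, ∑ ω, ∑ i, x (I.src e) ω i * y (I.dst e) (I.perm e ω) i) =
      (∑ e, contrib I x y e) / Fintype.card ι := by
    rw [Fintype.expect_eq_sum_div_card]
    rfl
  have hdef : ∑ e, (1 - contrib I x y e) = (1 - (𝔼 e, ∑ ω, ∑ i, x (I.src e) ω i *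
      y (I.dst e) (I.perm e ω) i)) * Fintype.card ι := by
    rw [Finset.sum_sub_distrib, Finset.sum_const, Finset.card_univ, nsmul_eq_mul, mul_one, hobj,
      sub_mul, div_mul_cancel₀ _ hι.ne', one_mul]
  have hdef0 : 0 ≤ ∑ e, (1 - contrib I x y e) :=
    Finset.sum_nonneg (fun e _ => by linarith [contrib_le I x y hx hy e])
  set δ : ℝ := 1 - (𝔼 e, ∑ ω, ∑ i, x (I.src e) ω i * y (I.dst e) (I.perm e ω) i) with hδ
  have hδ0 : 0 ≤ δ := by
    rw [hdef] at hdef0
    exact nonneg_of_mul_nonneg_left hdef0 hι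
  have h7 : (E.card : ℝ) = (cliqueWeight G w : ℝ) / n * Fintype.card ι := by
    rw [div_mul_eq_mul_div, eq_div_iff hn.ne']
    exact hEcard
  rcases E.eq_empty_or_nonempty with he | hne
  · have h1 : (cliqueWeight G w : ℝ) / n = 0 := by
      rw [he, Finset.card_empty, Nat.cast_zero] at h7
      rcases mul_eq_zero.1 h7.symm with h2 | h2
      · exact h2
      · exact absurd h2 hι.ne'
    rw [h1]
    have h2 := value_nonneg I
    have h3 : 0 ≤ B * δ := mul_nonneg hB0 hδ0
    linarith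
  have hneE : Nonempty E := by
    obtain ⟨e, he⟩ := hne
    exact ⟨⟨e, he⟩⟩
  have hneF : Nonempty F := by
    obtain ⟨e, he⟩ := hne
    exact ⟨⟨c e, (Finset.mem_filter.1 he).2⟩⟩
  have hcE : (0 : ℝ) < E.card := by exact_mod_cast hne.card_pos
  set J : Game U W Ω E :=
    { src := fun e => I.src e.1
      dst := fun e => I.dst e.1
      perm := fun e => I.perm e.1 } with hJ
  have hcF : ∀ k l : F, σ k.1 * σ l.1 = σ l.1 * σ k.1 := by
    intro k l
    by_cases hkl : k.1 = l.1
    · rw [hkl]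
    · exact hcomm k.1 l.1 (hFs (Finset.mem_coe.2 k.2) (Finset.mem_coe.2 l.2) hkl)
  have hJF : ∀ e : E, ∃ k : F, J.perm e = σ k.1 ∨ J.perm e = (σ k.1)⁻¹ := by
    intro e
    exact ⟨⟨c e.1, (Finset.mem_filter.1 e.2).2⟩, hperm e.1⟩
  have hval := lin_Zd a ha ha1 J (fun k : F => σ k.1) hcF hJF D x y hx hy
  have hobjJ : (𝔼 e, ∑ ω, ∑ i, x (J.src e) ω i * y (J.dst e) (J.perm e ω) i) =
      (∑ e ∈ E, contrib I x y e) / E.card := by
    have h1 : ∀ e : E, (∑ ω, ∑ i, x (J.src e) ω i * y (J.dst e) (J.perm e ω) i) =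
        contrib I x y e.1 := fun e => rfl
    rw [Finset.expect_congr rfl (fun e _ => h1 e), Fintype.expect_eq_sum_div_card,
      Fintype.card_coe, Finset.sum_coe_sort E (contrib I x y)]
  rw [hobjJ] at hval
  set B' : ℝ := 1000000 * (Fintype.card F : ℝ) ^ 2 * (1 + Real.log (1 / a)) ^ 2 / a with hB'
  have hBB : B' ≤ B := by
    have h1 : (Fintype.card F : ℝ) ≤ Fintype.card κ := by
      rw [Fintype.card_coe]
      exact_mod_cast Finset.card_le_univ F
    have h2 : (Fintype.card F : ℝ) ^ 2 ≤ (Fintype.card κ : ℝ) ^ 2 :=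
      pow_le_pow_left₀ (Nat.cast_nonneg _) h1 2
    rw [hB, hB', div_le_div_iff_of_pos_right ha]
    have h3 : (0 : ℝ) ≤ (1 + Real.log (1 / a)) ^ 2 := sq_nonneg _
    nlinarith [mul_le_mul_of_nonneg_right h2 h3]
  obtain ⟨p, q, hpq⟩ := exists_value J
  rw [← hpq, Game.satFrac, Fintype.card_coe, le_div_iff₀ hcE] at hval
  have h2 : ((univ.filter (fun e : E => J.perm e (p (J.src e)) = q (J.dst e))).card : ℝ) ≤
      ((univ.filter (fun e => I.perm e (p (I.src e)) = q (I.dst e))).card : ℝ) := by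
    rw [Nat.cast_le]
    refine Finset.card_le_card_of_injOn (fun e => e.1) ?_ ?_
    · intro e he
      have h3 := (Finset.mem_filter.1 he).2
      exact Finset.mem_coe.2 (Finset.mem_filter.2 ⟨mem_univ _, h3⟩)
    · intro e _ e' _ h
      exact Subtype.ext h
  refine le_trans ?_ (le_value I p q)
  rw [Game.satFrac, le_div_iff₀ hι]
  have h3 : (1 - a - B' * (1 - (∑ e ∈ E, contrib I x y e) / E.card)) *
      (E.card : ℝ) = (1 - a) * (E.card : ℝ) - B' * (∑ e ∈ E, (1 - contrib I x y e)) := by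
    rw [Finset.sum_sub_distrib, Finset.sum_const, nsmul_eq_mul, mul_one]
    field_simp
  rw [h3] at hval
  have h4 : ∑ e ∈ E, (1 - contrib I x y e) ≤ ∑ e, (1 - contrib I x y e) :=
    Finset.sum_le_sum_of_subset_of_nonneg (Finset.subset_univ _)
      (fun e _ _ => by linarith [contrib_le I x y hx hy e])
  have h4' : 0 ≤ ∑ e ∈ E, (1 - contrib I x y e) :=
    Finset.sum_nonneg (fun e _ => by linarith [contrib_le I x y hx hy e])
  rw [hdef] at h4
  have h5 : B' * (∑ e ∈ E, (1 - contrib I x y e)) ≤ B * (δ * Fintype.card ι) :=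
    mul_le_mul hBB h4 h4' hB0
  have h6 : (E.card : ℝ) ≤ Fintype.card ι := by exact_mod_cast Finset.card_le_univ E
  have h8 : a * (E.card : ℝ) ≤ a * Fintype.card ι := mul_le_mul_of_nonneg_left h6 ha.le
  have h9 : (((univ.filter (fun e : E => J.perm e (p (J.src e)) = q (J.dst e))).card : ℕ) : ℝ) ≤
      ((univ.filter (fun e => I.perm e (p (I.src e)) = q (I.dst e))).card : ℝ) := h2
  have h10 := hval.trans ((le_of_eq (by congr!)).trans (h9.trans (le_of_eq (by congr! :
    ((univ.filter (fun e => I.perm e (p (I.src e)) = q (I.dst e))).card : ℝ) = _))))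
  refine le_trans ?_ h10
  rw [sub_mul, sub_mul, ← h7]
  linarith

theorem easyC (ε : ℝ) (hε : 0 < ε) (hε1 : ε ≤ 1) {κ : Type} [Fintype κ] (G : SimpleGraph κ)
    (w : κ → ℕ) (hw : 0 < ∑ k, w k) {U W Ω ι : Type} [Fintype Ω] [Nonempty Ω] [Fintype ι]
    [Nonempty ι] (I : Game U W Ω ι) (hI : CommutingWith G w I) (D : ℕ) (x : U → Ω → Fin D → ℝ)
    (y : W → Ω → Fin D → ℝ) (hx : ∀ u, IsSys (x u)) (hy : ∀ w, IsSys (y w))
    (hobj : 1 - ε ≤ (𝔼 e, ∑ ω, ∑ i, x (I.src e) ω i * y (I.dst e) (I.perm e ω) i)) :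
    (cliqueWeight G w : ℝ) / ((∑ k, w k : ℕ) : ℝ) -
      2000 * (Fintype.card κ : ℝ) * (√ε * (1 + Real.log (1 / ε))) ≤ I.value := by
  have hlog : 0 ≤ Real.log (1 / ε) := Real.log_nonneg (by
    rw [le_div_iff₀ hε]
    linarith)
  set L : ℝ := 1 + Real.log (1 / ε) with hL
  have hL1 : 1 ≤ L := by linarith
  have hs0 : 0 < √ε := Real.sqrt_pos.2 hε
  have hn : (0 : ℝ) < ((∑ k, w k : ℕ) : ℝ) := by exact_mod_cast hw
  have hd1 : (1 : ℝ) ≤ Fintype.card κ := by
    have h1 : 0 < Fintype.card κ := by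
      rw [Fintype.card_pos_iff]
      by_contra hcon
      rw [not_nonempty_iff] at hcon
      rw [Finset.univ_eq_empty, Finset.sum_empty] at hw
      exact lt_irrefl _ hw
    exact_mod_cast h1
  set d : ℝ := (Fintype.card κ : ℝ) with hd
  have hM1 : (cliqueWeight G w : ℝ) / ((∑ k, w k : ℕ) : ℝ) ≤ 1 := by
    rw [div_le_one hn]
    obtain ⟨F, _, hF⟩ := exists_clique G w
    rw [← hF]
    exact_mod_cast Finset.sum_le_sum_of_subset (Finset.subset_univ F)
  by_cases hk : 1000 * d * (√ε * L) ≤ 1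
  · set k0 : ℝ := 1000 * d * (√ε * L) with hk0
    have hk00 : 0 < k0 := by positivity
    have hεk : ε ≤ k0 := by
      have h1 : √ε ≤ 1 := Real.sqrt_le_one.2 hε1
      have h2 : ε = √ε * √ε := (Real.mul_self_sqrt hε.le).symm
      have h3 : √ε * 1 ≤ √ε * L := mul_le_mul_of_nonneg_left hL1 hs0.le
      have h4 : 1 * (√ε * L) ≤ 1000 * d * (√ε * L) :=
        mul_le_mul_of_nonneg_right (by linarith) (by positivity)
      have h5 : √ε * √ε ≤ 1 * √ε := mul_le_mul_of_nonneg_right h1 hs0.le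
      rw [hk0]
      linarith
    have hlog2 : Real.log (1 / k0) ≤ Real.log (1 / ε) := by
      refine Real.log_le_log (by positivity) ?_
      exact one_div_le_one_div_of_le hε hεk
    have hlog3 : 0 ≤ Real.log (1 / k0) := Real.log_nonneg (by
      rw [le_div_iff₀ hk00]
      linarith)
    have h1 := easyC_aux G w hw I hI D x y hx hy k0 hk00 hk
    set B : ℝ := 1000000 * (Fintype.card κ : ℝ) ^ 2 * (1 + Real.log (1 / k0)) ^ 2 / k0 with hB
    have hB0 : 0 ≤ B := by positivity
    have h2 : B * ε ≤ k0 := by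
      have h3 : (1 + Real.log (1 / k0)) ^ 2 ≤ L ^ 2 := by
        refine pow_le_pow_left₀ (by linarith) (by linarith) 2
      rw [hB, div_mul_eq_mul_div, div_le_iff₀ hk00]
      have h4 : k0 * k0 = 1000000 * d ^ 2 * L ^ 2 * ε := by
        rw [hk0]
        have h2 : √ε * √ε = ε := Real.mul_self_sqrt hε.le
        calc 1000 * d * (√ε * L) * (1000 * d * (√ε * L)) =
            1000000 * d ^ 2 * L ^ 2 * (√ε * √ε) := by ring
          _ = _ := by rw [h2]
      rw [h4]
      refine mul_le_mul_of_nonneg_right ?_ hε.le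
      exact mul_le_mul_of_nonneg_left h3 (by positivity)
    have h5 : B * (1 - (𝔼 e, ∑ ω, ∑ i, x (I.src e) ω i * y (I.dst e) (I.perm e ω) i)) ≤
        B * ε := mul_le_mul_of_nonneg_left (by linarith) hB0
    have h6 : 2000 * d * (√ε * L) = 2 * k0 := by
      rw [hk0]
      ring
    rw [h6]
    linarith
  · push Not at hk
    have h1 := value_nonneg I
    have h6 : 2000 * d * (√ε * L) = 2 * (1000 * d * (√ε * L)) := by ring
    rw [h6]
    linarith

end Pool.Agent.P325c
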