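import Pool.Agent.Lib.P325c.Hard
import Pool.Agent.Lib.P325t.SdpGap

/-!
# Semidefinite gaps for partially commuting permutations

Sketch: word for word the proof of `Pool.Agent.P325t.sdp_gapW` with `hardC` in place of `hardW`
(`commGame` is a `typedGame`, so `typedSol`, `typedSol_isSol`, `typedSol_obj` apply after `unfold commGame`).
-/

open Finset
open scoped BigOperators

namespace Pool.Agent.P325c

open Pool.Agent.P325f1f.Dich Pool.Agent.P325f1f.Amen Pool.Agent.P325t

theorem sdp_gapC {κ : Type} [Fintype κ] (G : SimpleGraph κ) (w : κ → ℕ)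
    (hw : cliqueWeight G w < ∑ k, w k) (ε : ℝ) (hε : 0 < ε) :
    ∃ (U W Ω ι : Type) (_ : Fintype Ω) (_ : Nonempty Ω) (_ : Fintype ι) (_ : Nonempty ι)
      (J : Game U W Ω ι) (D : ℕ) (X : U ⊕ W → Ω → Fin D → ℝ),
      CommutingWith G w J ∧ IsSol X ∧ 1 - ε ≤ sdpObj J X ∧
        J.value < (cliqueWeight G w : ℝ) / ((∑ k, w k : ℕ) : ℝ) := by
  classical
  set ε' : ℝ := min ε 1 with hε'
  have h0 : 0 < ε' := lt_min hε one_pos
  have h1 : ε' ≤ 1 := min_le_right _ _
  obtain ⟨t, ht⟩ := exists_nat_gt (2 / ε')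
  have ht2 : (2 : ℝ) < t := by
    refine lt_of_le_of_lt ?_ ht
    rw [le_div_iff₀ h0]
    linarith
  have ht1 : 1 ≤ t := by
    have : (1 : ℝ) ≤ t := by linarith
    exact_mod_cast this
  obtain ⟨Ω, _, _, σ, c, M, hc, hgame⟩ := hardC G w hw t ht1
  obtain ⟨U, W, Λ, ι, _, _, _, _, _, I, D, X, hX, hobj, hval⟩ :=
    gap_games (1 - ε' / 2) (c / (2 * (|M| + 1))) (by linarith) (by positivity)
  obtain ⟨hT, hcomp, hsound⟩ := hgame U W Λ ι I
  have hpos : 0 < I.value := value_pos I
  have htr : 1 / (t : ℝ) < ε' / 2 := by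
    rw [div_lt_iff₀ (by linarith)]
    rw [div_lt_iff₀ h0] at ht
    linarith
  have hκ : Nonempty ((a : κ × Bool) × Fin (w a.1)) := by
    by_contra hcon
    have h2 : ∑ k, w k = 0 := by
      refine Finset.sum_eq_zero fun k _ => ?_
      by_contra h3
      exact hcon ⟨⟨(k, true), ⟨0, Nat.pos_of_ne_zero h3⟩⟩⟩
    omega
  have hne : Nonempty (Fin t × Ω) := ⟨(⟨0, ht1⟩, Classical.arbitrary Ω)⟩
  refine ⟨_, _, Ω, _, inferInstance, inferInstance, inferInstance, inferInstance,
    commGame t w σ I, D, typedSol Unit Unit Ω X, hT, typedSol_isSol hX, ?_, ?_⟩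
  · have h2 := typedSol_obj t ht1 ((T0 κ).copies (fun a => w a.1)) (fun p => lperm σ p.1) I hX
    refine le_trans ?_ h2
    have h3 : (1 - ε' / 2) * (1 - ε' / 2) ≤ (1 - 1 / (t : ℝ)) * sdpObj I X := by
      refine mul_le_mul (by linarith) hobj (by linarith) (by linarith)
    have h4 : ε' ≤ ε := min_le_left _ _
    nlinarith
  · have h2 : M * I.value ≤ c / 2 := by
      have h3 : M * I.value ≤ |M| * (c / (2 * (|M| + 1))) := by
        refine (mul_le_mul_of_nonneg_right (le_abs_self M) hpos.le).trans ?_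
        exact mul_le_mul_of_nonneg_left hval (abs_nonneg M)
      refine h3.trans ?_
      rw [mul_div_assoc', div_le_div_iff₀ (by positivity) two_pos]
      have := abs_nonneg M
      nlinarith
    linarith

end Pool.Agent.P325c
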