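import Pool.Agent.Lib.P325c.Heap

/-!
# A finite set with permutations that are free up to a given length

Sketch. The set of words of length at most `N` is finite (`List.finite_length_le`). For every nonempty reduced
word `l` of length at most `N` take `X l`, `σ l` from `exists_sep` (for the other words take `PUnit` and the
identity). `Ω = ∀ l, Equiv.Perm (X l)` (product over the finite type of words of length at most `N`) and
`σ k` = left multiplication by `fun l => σ l k` (`Equiv.mulLeft`). Then `wperm` of a word `l'` is left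
multiplication by `fun l => wperm (σ l) l'` (induction on the word, `lperm` first), and for `l' = l` the component `l` is
not `1`, so there is no fixed point.
-/

open Finset

namespace Pool.Agent.P325c

private theorem exists_sep' {κ : Type} [Fintype κ] (G : SimpleGraph κ) (l : List (κ × Bool)) :
    ∃ (X : Type) (_ : Finite X) (σ : κ → Equiv.Perm X), Comm G σ ∧
      (l ≠ [] → Red G l → wperm σ l ≠ 1) := by
  by_cases h : l ≠ [] ∧ Red G l
  · obtain ⟨X, hX, σ, h1, h2⟩ := exists_sep G l h.1 h.2
    exact ⟨X, Finite.of_fintype X, σ, h1, fun _ _ => h2⟩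
  · exact ⟨PUnit, inferInstance, fun _ => 1, fun k l _ => rfl, fun h1 h2 => absurd ⟨h1, h2⟩ h⟩

private theorem wperm_mulLeft {κ ι : Type} {X : ι → Type} (σ : ∀ i, κ → Equiv.Perm (X i))
    (l : List (κ × Bool)) (ω : ∀ i, Equiv.Perm (X i)) :
    wperm (fun k => Equiv.mulLeft (fun i => σ i k)) l ω = fun i => wperm (σ i) l * ω i := by
  induction l with
  | nil => funext i; simp [wperm]
  | cons a l ih =>
    rw [wperm, Equiv.Perm.mul_apply, ih]
    funext i
    rw [wperm]
    rcases a with ⟨k, b⟩
    cases b
    · simp [lperm, mul_assoc]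
    · simp [lperm, mul_assoc]

theorem exists_model {κ : Type} [Fintype κ] (G : SimpleGraph κ) (N : ℕ) :
    ∃ (Ω : Type) (_ : Fintype Ω) (_ : Nonempty Ω) (σ : κ → Equiv.Perm Ω),
      Comm G σ ∧ FreeUpTo G σ N := by
  classical
  choose X hX σ h1 h2 using exists_sep' G
  have : Finite {l : List (κ × Bool) | l.length ≤ N} := List.finite_length_le _ N
  refine ⟨∀ l : {l : List (κ × Bool) | l.length ≤ N}, Equiv.Perm (X l.1), Fintype.ofFinite _,
    ⟨1⟩, fun k => Equiv.mulLeft (fun l => σ l.1 k), ?_, ?_⟩
  · intro k m hkm
    ext1 ω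
    funext l
    have := h1 l.1 k m hkm
    simp only [Equiv.Perm.mul_apply, Equiv.coe_mulLeft, Pi.mul_apply]
    rw [← mul_assoc, ← mul_assoc, this]
  · intro l hl hN hred ω hω
    rw [wperm_mulLeft (X := fun l : {l : List (κ × Bool) | l.length ≤ N} => X l.1)
      (fun l => σ l.1) l ω] at hω
    have h3 := congrFun hω ⟨l, hN⟩
    simp only [mul_eq_right] at h3
    exact h2 l hl hred h3

end Pool.Agent.P325c
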