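import Pool.Agent.Lib.P325c.Own
import Pool.Agent.Lib.P325c.Model
import Pool.Agent.Lib.P325c.CommGame
import Pool.Agent.Lib.P325t.WHard

/-!
# The hard side for partially commuting permutations, including the boundary

The long code game is the typed long code game over the type graph `T0` with one left and one right vertex and
the letters as edges, each letter `(k, b)` with `w k` copies.

Sketch (see `Pool.Agent.P325t.hardW`). `n = ∑ w`, `m = cliqueWeight G w`, `1 ≤ m < n` (`m ≥ w k` for every `k`, and some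
`w k > 0`). Two scales: `θ2 = min (m / (40 n)) 1`, `η2 = (θ2 ^ 2) ^ (4 t)`,
`θ1 = min θ2 (m η2 / (20 n))`, `η1 = (θ1 ^ 2) ^ (4 t)`; `Ω`, `σ` from `exists_model` with
`2 * N + 1`, `N ≥ 2 / η1`. `sound_types` with `J = Bool`, `c = m / n - c0`, `c0 = m η2 / (4 n)`; the number
of copies is `2 n`. For distributions `μ`, `ν`: if some label has `μ`- or `ν`-weight greater than `η2` use scale 1:
the sum of `w a.1 * hsum` is the left side of `own_bound` for `A = {μ > η1}`, `B = {ν > η1}`
(`A.card + B.card ≤ 2 / η1`), `g` = that weight (the label is in `A` resp. `B` as `η1 ≤ η2`), so it is at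
most `2 m - m η2`, and the errors add up to `5 θ1 * 2 n ≤ m η2 / 2`.
Otherwise use scale 2: all `hsum` vanish and the errors add up to `5 θ2 * 2 n ≤ m / 4`.
-/

open Finset
open scoped BigOperators

namespace Pool.Agent.P325c

open Pool.Agent.P325f1f.Dich Pool.Agent.P325t

namespace HardAux

theorem card_K {κ : Type} [Fintype κ] (w : κ → ℕ) :
    Fintype.card ((a : κ × Bool) × Fin (w a.1)) = 2 * ∑ k, w k := by
  rw [Fintype.card_sigma]
  simp only [Fintype.card_fin]
  rw [Fintype.sum_prod_type, Finset.mul_sum]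
  refine Finset.sum_congr rfl (fun k _ => ?_)
  simp [two_mul]

theorem card_K_filter {κ : Type} [Fintype κ] [DecidableEq κ] (w : κ → ℕ) (k : κ) :
    (univ.filter (fun p : (a : κ × Bool) × Fin (w a.1) => p.1.1 = k)).card = 2 * w k := by
  rw [Finset.card_filter, Fintype.sum_sigma]
  have h1 : ∀ a : κ × Bool, (∑ _i : Fin (w a.1), (if a.1 = k then 1 else 0)) =
      if a.1 = k then w a.1 else 0 := by
    intro a
    split_ifs <;> simp
  rw [Finset.sum_congr rfl (fun a _ => h1 a), Fintype.sum_prod_type]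
  have h2 : ∀ x : κ, (∑ y : Bool, if ((x, y) : κ × Bool).1 = k then w ((x, y) : κ × Bool).1 else 0) =
      if x = k then 2 * w x else 0 := by
    intro x
    by_cases h : x = k
    · simp [h, two_mul]
    · simp [h]
  rw [Finset.sum_congr rfl (fun x _ => h2 x), Finset.sum_ite_eq' univ k]
  simp

theorem heavy_card {Ω : Type} [Fintype Ω] (μ : Ω → ℝ) (hμ : ∀ ω, 0 ≤ μ ω) (hμ1 : ∑ ω, μ ω = 1)
    (η : ℝ) (hη : 0 < η) (A : Finset Ω) (hA : ∀ ω ∈ A, η < μ ω) : (A.card : ℝ) ≤ 1 / η := by
  rw [le_div_iff₀ hη, ← hμ1, ← nsmul_eq_mul, ← Finset.sum_const]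
  exact (Finset.sum_le_sum (fun ω hω => (hA ω hω).le)).trans
    (Finset.sum_le_sum_of_subset_of_nonneg (Finset.subset_univ A) (fun ω _ _ => hμ ω))

end HardAux

open HardAux

theorem commutingWith_commGame {U W Λ ι Ω κ : Type} [Fintype Λ] [DecidableEq Λ] [Fintype ι]
    [Fintype κ] [Fintype Ω] (t : ℕ) (G : SimpleGraph κ) (w : κ → ℕ) (σ : κ → Equiv.Perm Ω)
    (hc : Comm G σ) (I : Game U W Λ ι) : CommutingWith G w (commGame t w σ I) := by
  classical
  refine ⟨fun e => e.2.1.1.1, σ, hc, ?_, ?_⟩
  · intro e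
    show lperm σ e.2.1.1 = σ e.2.1.1.1 ∨ lperm σ e.2.1.1 = (σ e.2.1.1.1)⁻¹
    unfold lperm
    by_cases h : e.2.1.1.2 = true
    · left
      rw [if_pos h]
    · right
      rw [if_neg h]
  · intro k
    have h1 : (univ.filter (fun e : ι × ((a : κ × Bool) × Fin (w a.1)) × (Λ → Ω) ×
        (Λ → Fin t × Ω) => e.2.1.1.1 = k)) = (univ : Finset ι) ×ˢ ((univ.filter
        (fun p : (a : κ × Bool) × Fin (w a.1) => p.1.1 = k)) ×ˢ
          (univ : Finset ((Λ → Ω) × (Λ → Fin t × Ω)))) := by
      ext e
      simp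
    have h4 : (univ.filter (fun e : ι × ((a : κ × Bool) × Fin (w a.1)) × (Λ → Ω) ×
        (Λ → Fin t × Ω) => e.2.1.1.1 = k)).card * ∑ l, w l =
        w k * Fintype.card (ι × ((a : κ × Bool) × Fin (w a.1)) × (Λ → Ω) ×
          (Λ → Fin t × Ω)) := by
      have hcf : (univ.filter
          (fun p : (a : κ × Bool) × Fin (w a.1) => p.1.1 = k)).card = 2 * w k := by
        convert card_K_filter w k
      rw [h1, Finset.card_product, Finset.card_product, hcf, Fintype.card_prod,
        Fintype.card_prod, card_K, Finset.card_univ, Finset.card_univ]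
      ring
    convert h4

theorem hardC {κ : Type} [Fintype κ] (G : SimpleGraph κ) (w : κ → ℕ)
    (hw : cliqueWeight G w < ∑ k, w k) (t : ℕ) (ht : 1 ≤ t) :
    ∃ (Ω : Type) (_ : Fintype Ω) (_ : Nonempty Ω) (σ : κ → Equiv.Perm Ω) (c M : ℝ), 0 < c ∧
      ∀ (U W Λ ι : Type) [Fintype Λ] [DecidableEq Λ] [Nonempty Λ] [Fintype ι] [Nonempty ι]
        (I : Game U W Λ ι),
        CommutingWith G w (commGame t w σ I) ∧
        (1 - 1 / (t : ℝ)) * I.value ≤ (commGame t w σ I).value ∧
        (commGame t w σ I).value ≤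
          (cliqueWeight G w : ℝ) / ((∑ k, w k : ℕ) : ℝ) - c + M * I.value := by
  classical
  have hn0 : 0 < ∑ k, w k := by omega
  have hn : (0 : ℝ) < ((∑ k, w k : ℕ) : ℝ) := by exact_mod_cast hn0
  set n : ℝ := ((∑ k, w k : ℕ) : ℝ) with hndef
  have hm1 : 1 ≤ cliqueWeight G w := by
    obtain ⟨k, -, hk⟩ := Finset.exists_ne_zero_of_sum_ne_zero hn0.ne'
    have h1 := sum_le_cliqueWeight G w {k} (by simp)
    rw [Finset.sum_singleton] at h1
    omega
  set m : ℝ := (cliqueWeight G w : ℝ) with hmdef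
  have hm : 1 ≤ m := by rw [hmdef]; exact_mod_cast hm1
  have hm0 : 0 < m := by linarith
  -- the scales
  set θ2 : ℝ := min (m / (40 * n)) 1 with hθ2
  have h20 : 0 < θ2 := lt_min (by positivity) one_pos
  have h21 : θ2 ≤ 1 := min_le_right _ _
  have h2l : 5 * θ2 * (2 * n) ≤ m / 4 := by
    have := min_le_left (m / (40 * n)) 1
    rw [← hθ2, le_div_iff₀ (by positivity)] at this
    linarith
  set η2 : ℝ := (θ2 ^ 2) ^ (4 * t) with hη2
  have hη20 : 0 < η2 := by positivity
  have hη21 : η2 ≤ 1 := pow_le_one₀ (by positivity) (pow_le_one₀ h20.le h21)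
  set θ1 : ℝ := min θ2 (m * η2 / (20 * n)) with hθ1
  have h10 : 0 < θ1 := lt_min h20 (by positivity)
  have h12 : θ1 ≤ θ2 := min_le_left _ _
  have h1l : 5 * θ1 * (2 * n) ≤ m * η2 / 2 := by
    have := min_le_right θ2 (m * η2 / (20 * n))
    rw [← hθ1, le_div_iff₀ (by positivity)] at this
    linarith
  set η1 : ℝ := (θ1 ^ 2) ^ (4 * t) with hη1
  have hη10 : 0 < η1 := by positivity
  have hη12 : η1 ≤ η2 := by
    rw [hη1, hη2]
    gcongr
  set N : ℕ := ⌈2 / η1⌉₊ with hN
  obtain ⟨Ω, fΩ, nΩ, σ, hcomm, hfree⟩ := exists_model G (2 * N + 1)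
  have hcardK : (Fintype.card ((a : κ × Bool) × Fin (w a.1)) : ℝ) = 2 * n := by
    rw [card_K, hndef]
    push_cast
    ring
  have hneK : Nonempty ((a : κ × Bool) × Fin (w a.1)) := by
    rw [← Fintype.card_pos_iff, card_K]
    omega
  set c : ℝ := m * η2 / (4 * n) with hc
  have hc0 : 0 < c := by positivity
  have hcn : c * (2 * n) = m * η2 / 2 := by
    rw [hc]
    field_simp
    ring
  have hmη : m * η2 ≤ m := by nlinarith
  obtain ⟨M, hM⟩ := sound_types (J := Bool) ((T0 κ).copies (fun a => w a.1))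
    (fun p => lperm σ p.1) t ht
    (fun b => if b then θ1 else θ2) (by rintro (_ | _) <;> simp [h10, h20])
    (by
      rintro (_ | _)
      · simpa using h21
      · simpa using h12.trans h21) (m / n - c) (by
      rw [sub_nonneg, le_div_iff₀ hn]
      linarith) (by
      intro μ ν hμ hν hμ1 hν1
      -- the sum over the copies
      have hcop : ∀ b : Bool, (∑ p : (a : κ × Bool) × Fin (w a.1),
          (hsum ((T0 κ).copies (fun a => w a.1)) (fun p => lperm σ p.1)
            (((if b then θ1 else θ2) ^ 2) ^ (4 * t)) μ ν p +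
            5 * (if b then θ1 else θ2))) =
          (∑ a : κ × Bool, (w a.1 : ℝ) * hsum (T0 κ) (lperm σ)
            (((if b then θ1 else θ2) ^ 2) ^ (4 * t)) μ ν a) +
            5 * (if b then θ1 else θ2) * (2 * n) := by
        intro b
        rw [Finset.sum_add_distrib, Finset.sum_const, Finset.card_univ, nsmul_eq_mul, hcardK,
          Fintype.sum_sigma]
        congr 1
        · refine Finset.sum_congr rfl (fun a _ => ?_)
          have h1 : ∀ i : Fin (w a.1), hsum ((T0 κ).copies (fun a => w a.1))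
              (fun p => lperm σ p.1) (((if b then θ1 else θ2) ^ 2) ^ (4 * t)) μ ν ⟨a, i⟩ =
              hsum (T0 κ) (lperm σ) (((if b then θ1 else θ2) ^ 2) ^ (4 * t)) μ ν a :=
            fun i => rfl
          rw [Finset.sum_congr rfl (fun i _ => h1 i), Finset.sum_const, Finset.card_univ,
            Fintype.card_fin, nsmul_eq_mul]
        · ring
      by_cases hbig : ∃ ω, η2 < μ () ω ∨ η2 < ν () ω
      · refine ⟨fun _ => true, ?_⟩
        have h1 := hcop true
        simp only [if_true] at h1 ⊢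
        rw [h1, hcardK, div_le_iff₀ (by positivity), ← hη1]
        obtain ⟨ω0, hω0⟩ := hbig
        set A : Finset Ω := univ.filter (fun ω => η1 < μ () ω) with hA
        set B : Finset Ω := univ.filter (fun ω => η1 < ν () ω) with hB
        have hAc := heavy_card (μ ()) (hμ ()) (hμ1 ()) η1 hη10 A
          (fun ω hω => (Finset.mem_filter.1 hω).2)
        have hBc := heavy_card (ν ()) (hν ()) (hν1 ()) η1 hη10 B
          (fun ω hω => (Finset.mem_filter.1 hω).2)
        have hAB : A.card + B.card ≤ N := by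
          have h2 : ((A.card + B.card : ℕ) : ℝ) ≤ (N : ℝ) := by
            push_cast
            calc (A.card : ℝ) + B.card ≤ 1 / η1 + 1 / η1 := add_le_add hAc hBc
              _ = 2 / η1 := by ring
              _ ≤ N := Nat.le_ceil _
          exact_mod_cast h2
        have hsumeq : ∀ a : κ × Bool, hsum (T0 κ) (lperm σ) η1 μ ν a =
            ∑ ω ∈ A, if lperm σ a ω ∈ B then min (μ () ω) (ν () (lperm σ a ω)) else 0 := by
          intro a
          rw [hA, Finset.sum_filter]
          refine Finset.sum_congr rfl (fun ω _ => ?_)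
          show (if η1 < μ () ω ∧ η1 < ν () (lperm σ a ω) then _ else _) = _
          have hBm : lperm σ a ω ∈ B ↔ η1 < ν () (lperm σ a ω) := by simp [hB]
          by_cases h3 : η1 < μ () ω
          · by_cases h4 : η1 < ν () (lperm σ a ω)
            · rw [if_pos ⟨h3, h4⟩, if_pos h3, if_pos (hBm.2 h4)]
            · rw [if_neg (fun h => h4 h.2), if_pos h3, if_neg (fun h => h4 (hBm.1 h))]
          · rw [if_neg (fun h => h3 h.1), if_neg h3]
        have hA1 : ∑ ω ∈ A, μ () ω ≤ 1 := by
          rw [← hμ1 ()]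
          exact Finset.sum_le_sum_of_subset_of_nonneg (Finset.subset_univ A)
            (fun ω _ _ => hμ () ω)
        have hB1 : ∑ ω ∈ B, ν () ω ≤ 1 := by
          rw [← hν1 ()]
          exact Finset.sum_le_sum_of_subset_of_nonneg (Finset.subset_univ B)
            (fun ω _ _ => hν () ω)
        have key : (∑ a : κ × Bool, (w a.1 : ℝ) * hsum (T0 κ) (lperm σ) η1 μ ν a) + m * η2 ≤
            2 * m := by
          have h5 : ∀ g : ℝ, η2 ≤ g → (g = 0 ∨ (∃ v ∈ A, g = μ () v) ∨ (∃ v ∈ B, g = ν () v)) →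
              (∑ a : κ × Bool, (w a.1 : ℝ) * hsum (T0 κ) (lperm σ) η1 μ ν a) + m * η2 ≤
              2 * m := by
            intro g hg1 hg2
            have h6 := own_bound G σ hcomm N hfree w A B hAB (μ ()) (ν ()) (hμ ()) (hν ()) g hg2
            simp only [hsumeq]
            have h7 : m * η2 ≤ m * g := mul_le_mul_of_nonneg_left hg1 hm0.le
            have h8 : m * (∑ ω ∈ A, μ () ω + ∑ ω ∈ B, ν () ω) ≤ m * 2 :=
              mul_le_mul_of_nonneg_left (by linarith) hm0.le
            linarith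
          rcases hω0 with h | h
          · exact h5 (μ () ω0) h.le (Or.inr (Or.inl ⟨ω0, by
              rw [hA, Finset.mem_filter]
              exact ⟨mem_univ _, hη12.trans_lt h⟩, rfl⟩))
          · exact h5 (ν () ω0) h.le (Or.inr (Or.inr ⟨ω0, by
              rw [hB, Finset.mem_filter]
              exact ⟨mem_univ _, hη12.trans_lt h⟩, rfl⟩))
        have h9 : (m / n - c) * (2 * n) = 2 * m - m * η2 / 2 := by
          rw [sub_mul, hcn]
          field_simp
        rw [h9]
        linarith
      · push Not at hbig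
        refine ⟨fun _ => false, ?_⟩
        have h1 := hcop false
        simp only [Bool.false_eq_true, if_false] at h1 ⊢
        rw [h1, hcardK, div_le_iff₀ (by positivity), ← hη2]
        have h2 : ∀ a : κ × Bool, hsum (T0 κ) (lperm σ) η2 μ ν a = 0 := by
          intro a
          refine Finset.sum_eq_zero (fun ω _ => ?_)
          rw [if_neg]
          rintro ⟨h6, -⟩
          exact absurd h6 (not_lt.2 (hbig ω).1)
        have h3 : ∑ a : κ × Bool, (w a.1 : ℝ) * hsum (T0 κ) (lperm σ) η2 μ ν a = 0 :=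
          Finset.sum_eq_zero (fun a _ => by rw [h2 a, mul_zero])
        have h9 : (m / n - c) * (2 * n) = 2 * m - m * η2 / 2 := by
          rw [sub_mul, hcn]
          field_simp
        rw [h3, h9]
        linarith)
  refine ⟨Ω, fΩ, nΩ, σ, c, M, hc0, ?_⟩
  intro U W Λ ι _ _ _ _ _ I
  exact ⟨commutingWith_commGame t G w σ hcomm I,
    typed_complete t ht ((T0 κ).copies (fun a => w a.1)) (fun p => lperm σ p.1) I,
    hM U W Λ ι I⟩

end Pool.Agent.P325c
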