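import Pool.Agent.Lib.P325c.Partial

/-!
# A finite model for a reduced word

For a nonempty reduced word `l` of length `n` there are commuting permutations of a finite set for which the
word is not the identity.

Sketch. Positions `j : Fin n`, letters `l.get j = (k j, b j)` (`k j = (l.get j).1`). A state is a set
`S : Finset (Fin n)` that is closed: if `j ∈ S`, `j < m` and `¬ G.Adj (k j) (k m)` then `m ∈ S` (the last letter
acts first, so states grow from the end of the word). `D` = the (finite) type of all closed `S`. Moves: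
`R i S S'` iff either there is `j ∉ S` with `k j = i`, `b j = true`, `S' = insert j S`, or there is `j ∈ S` with
`k j = i`, `b j = false`, `S' = S.erase j` (i.e. `j ∉ S'` and `S = insert j S'`). So with
`T c i S S' := ∃ j ∉ S, k j = i ∧ b j = c ∧ S' = insert j S` (`c : Bool`) we have
`R i S S' ↔ T true i S S' ∨ T false i S' S`, and `Mv R i c S S' ↔ T (!c) i S S' ∨ T c i S' S`.

*Unique* (`hf` of `extend`): suppose `S'` and `S''` both arise from `S` by the move of `i` in the direction `c`.
(a) both by insertion of `j`, `j'` with the same type `i`: if `j < j'` then (same type, not adjacent)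
`j' ∈ insert j S`, contradiction, so `j' ∈ S`, contradiction; the same for `j' < j`; so `j = j'`.
(b) both by erasing `j`, `j'` in `S`: if `j < j'`, then `S.erase j'` is closed and contains `j`, so it contains
`j'`, contradiction.
(c) one inserts `j` (sign `!c`), the other erases `j'` (sign `c`), `j ∉ S`, `j' ∈ S`, both of type `i`. If
`j' < j` then `j ∈ S`, contradiction. So `j < j'`. As the word is reduced there is `m` with `j < m < j'` and
`¬ G.Adj i (k m)`. `insert j S` is closed so `m ∈ insert j S`, `m ∈ S`; `S.erase j'` is closed, contains `m`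
and `m < j'`, `¬ G.Adj (k m) i`, so it contains `j'`, contradiction.

*Squares* (`hsq`): the moves of `i` and `l` at `S` toggle positions `j` (of type `i`) and `m` (of type `l`),
`G.Adj i l`, so `j ≠ m`; the set obtained by toggling both is closed: let `a` be in it, `a < p`,
`¬ G.Adj (k a) (k p)`. If `a = j` was inserted then `p ∈ insert j S`, `p ≠ j`, so `p ∈ S`, and `p ≠ m` as `k j`, `k m`
are adjacent. The same for `a = m`. If `a ∈ S`, `a ≠ j, m`: `p ∈ S`; if `p = j` was erased, then `S.erase j` is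
closed and contains `a`, so `j` is in it, contradiction; the same for `m`.

*The word moves*: `extend` gives `σ`. By induction on the suffix `l.drop r`: `wperm σ (l.drop r)` maps
`(∅, false)` to `({j | r ≤ j}, false)` (this set is closed; the letter `j = r` with sign `true` is `R i S (insert j S)`, with sign
`false` it is `R i (insert j S) S`, so `(σ i)⁻¹` maps `(S, false)` to `(insert j S, false)`). For `r = 0` the image
is `(univ, false) ≠ (∅, false)`.
-/

open Finset

namespace Pool.Agent.P325c

namespace HeapAux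

variable {κ : Type} {n : ℕ}

/-- Closed sets of positions. -/
def Cl (G : SimpleGraph κ) (K : Fin n → κ) (S : Finset (Fin n)) : Prop :=
  ∀ j ∈ S, ∀ m, j < m → ¬ G.Adj (K j) (K m) → m ∈ S

/-- The type of closed sets. -/
def D (G : SimpleGraph κ) (K : Fin n → κ) : Type := {S : Finset (Fin n) // Cl G K S}

/-- Insertion of a position of type `i` and sign `c`. -/
def T (G : SimpleGraph κ) (K : Fin n → κ) (b : Fin n → Bool) (c : Bool) (i : κ)
    (S S' : D G K) : Prop :=
  ∃ j, j ∉ S.1 ∧ K j = i ∧ b j = c ∧ S'.1 = insert j S.1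

/-- The moves. -/
def R (G : SimpleGraph κ) (K : Fin n → κ) (b : Fin n → Bool) (i : κ) (S S' : D G K) : Prop :=
  T G K b true i S S' ∨ T G K b false i S' S

theorem mv_iff (G : SimpleGraph κ) (K : Fin n → κ) (b : Fin n → Bool) (i : κ) (c : Bool)
    (S S' : D G K) :
    Mv (R G K b) i c S S' ↔ T G K b (!c) i S S' ∨ T G K b c i S' S := by
  cases c
  · simp [Mv, R]
  · simp [Mv, R, or_comm]

theorem ext_D {G : SimpleGraph κ} {K : Fin n → κ} {S S' : D G K} (h : S.1 = S'.1) : S = S' :=
  Subtype.ext h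

/-- two insertions of the same type coincide -/
theorem ins_ins {G : SimpleGraph κ} {K : Fin n → κ} {S : Finset (Fin n)} {j j' : Fin n}
    (h1 : Cl G K (insert j S)) (hj' : j' ∉ S) (hK : K j = K j') : ¬ j < j' := by
  intro hlt
  have h3 := h1 j (mem_insert_self _ _) j' hlt (by rw [hK]; exact G.irrefl)
  rcases mem_insert.1 h3 with h | h
  · exact absurd h hlt.ne'
  · exact hj' h

theorem er_er {G : SimpleGraph κ} {K : Fin n → κ} {S S'' : Finset (Fin n)} {j j' : Fin n}
    (h2 : Cl G K S'') (hj' : j' ∉ S'') (hS : S = insert j' S'') (hj : j ∈ S)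
    (hK : K j = K j') : ¬ j < j' := by
  intro hlt
  rw [hS] at hj
  rcases mem_insert.1 hj with h | h
  · exact absurd h hlt.ne
  · exact hj' (h2 j h j' hlt (by rw [hK]; exact G.irrefl))

theorem ins_er {G : SimpleGraph κ} {K : Fin n → κ} {b : Fin n → Bool}
    (hred : ∀ j j' : Fin n, j < j' → K j = K j' → b j' = !b j →
      ∃ m, j < m ∧ m < j' ∧ ¬ G.Adj (K j) (K m))
    {S S'' : Finset (Fin n)} {j j' : Fin n} (h0 : Cl G K S)
    (h1 : Cl G K (insert j S)) (hj : j ∉ S)
    (h2 : Cl G K S'') (hj' : j' ∉ S'') (hS : S = insert j' S'')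
    (hK : K j = K j') (hb : b j' = !b j) : False := by
  have hj'S : j' ∈ S := by rw [hS]; exact mem_insert_self _ _
  rcases lt_trichotomy j j' with hlt | heq | hgt
  · obtain ⟨m, hm1, hm2, hm3⟩ := hred j j' hlt hK hb
    have hm4 := h1 j (mem_insert_self _ _) m hm1 hm3
    have hm5 : m ∈ S := by
      rcases mem_insert.1 hm4 with h | h
      · exact absurd h hm1.ne'
      · exact h
    have hm6 : m ∈ S'' := by
      rw [hS] at hm5
      rcases mem_insert.1 hm5 with h | h
      · exact absurd h hm2.ne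
      · exact h
    apply hj'
    apply h2 m hm6 j' hm2
    rw [← hK]
    exact fun h => hm3 h.symm
  · exact hj (heq ▸ hj'S)
  · exact hj (h0 j' hj'S j hgt (by rw [hK]; exact G.irrefl))

theorem unique {G : SimpleGraph κ} {K : Fin n → κ} {b : Fin n → Bool}
    (hred : ∀ j j' : Fin n, j < j' → K j = K j' → b j' = !b j →
      ∃ m, j < m ∧ m < j' ∧ ¬ G.Adj (K j) (K m))
    (i : κ) (c : Bool) (x y y' : D G K) (h : Mv (R G K b) i c x y)
    (h' : Mv (R G K b) i c x y') : y = y' := by
  rw [mv_iff] at h h'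
  apply ext_D
  rcases h with ⟨j, hj, hKj, hbj, hy⟩ | ⟨j, hj, hKj, hbj, hy⟩ <;>
  rcases h' with ⟨j', hj', hKj', hbj', hy'⟩ | ⟨j', hj', hKj', hbj', hy'⟩
  · have h1 : ¬ j < j' := ins_ins (hy ▸ y.2) hj' (hKj.trans hKj'.symm)
    have h2 : ¬ j' < j := ins_ins (hy' ▸ y'.2) hj (hKj'.trans hKj.symm)
    have h3 : j = j' := le_antisymm (not_lt.1 h2) (not_lt.1 h1)
    rw [hy, hy', h3]
  · exact (ins_er hred x.2 (hy ▸ y.2) hj y'.2 hj' hy' (hKj.trans hKj'.symm)
      (by rw [hbj, hbj', Bool.not_not])).elim
  · exact (ins_er hred x.2 (hy' ▸ y'.2) hj' y.2 hj hy (hKj'.trans hKj.symm)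
      (by rw [hbj, hbj', Bool.not_not])).elim
  · have hjx : j ∈ x.1 := by rw [hy]; exact mem_insert_self _ _
    have hjx' : j' ∈ x.1 := by rw [hy']; exact mem_insert_self _ _
    have h1 : ¬ j < j' := er_er y'.2 hj' hy' hjx (hKj.trans hKj'.symm)
    have h2 : ¬ j' < j := er_er y.2 hj hy hjx' (hKj'.trans hKj.symm)
    have h3 : j = j' := le_antisymm (not_lt.1 h2) (not_lt.1 h1)
    rw [← erase_insert hj, ← hy, hy', h3, erase_insert hj']

/-- insertion of `j` against removal of `m` -/
theorem square_mixed {G : SimpleGraph κ} {K : Fin n → κ} {b : Fin n → Bool} {i l : κ}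
    (hil : G.Adj i l) {c c' : Bool} {x x1 x2 : D G K} (h1 : T G K b c i x x1)
    (h2 : T G K b c' l x2 x) : ∃ x3, T G K b c' l x3 x1 ∧ T G K b c i x2 x3 := by
  obtain ⟨j, hj, hKj, hbj, hx1⟩ := h1
  obtain ⟨m, hm, hKm, hbm, hx⟩ := h2
  have hjm : j ≠ m := by
    rintro rfl
    rw [hKj] at hKm
    exact hil.ne hKm
  have hcl : Cl G K (insert j x2.1) := by
    intro a ha p hp hap
    rcases mem_insert.1 ha with rfl | ha
    · have h3 : p ∈ x1.1 := by
        apply x1.2 a _ p hp hap
        rw [hx1]
        exact mem_insert_self _ _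
      rw [hx1, hx] at h3
      rcases mem_insert.1 h3 with h4 | h4
      · exact absurd h4 hp.ne'
      · rcases mem_insert.1 h4 with h5 | h5
        · rw [h5, hKj, hKm] at hap
          exact absurd hil hap
        · exact mem_insert_of_mem h5
    · exact mem_insert_of_mem (x2.2 a ha p hp hap)
  refine ⟨⟨insert j x2.1, hcl⟩, ⟨m, ?_, hKm, hbm, ?_⟩, ⟨j, ?_, hKj, hbj, rfl⟩⟩
  · intro h
    rcases mem_insert.1 h with h | h
    · exact hjm h.symm
    · exact hm h
  · show x1.1 = insert m (insert j x2.1)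
    rw [hx1, hx, insert_comm]
  · intro h
    apply hj
    rw [hx]
    exact mem_insert_of_mem h

theorem square {G : SimpleGraph κ} {K : Fin n → κ} {b : Fin n → Bool} (i l : κ)
    (hil : G.Adj i l) (c c' : Bool) (x x1 x2 : D G K) (h1 : Mv (R G K b) i c x x1)
    (h2 : Mv (R G K b) l c' x x2) :
    ∃ x3, Mv (R G K b) l c' x1 x3 ∧ Mv (R G K b) i c x2 x3 := by
  rw [mv_iff] at h1 h2
  simp only [mv_iff]
  rcases h1 with h1 | h1 <;> rcases h2 with h2 | h2
  · obtain ⟨j, hj, hKj, hbj, hx1⟩ := h1
    obtain ⟨m, hm, hKm, hbm, hx2⟩ := h2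
    have hjm : j ≠ m := by
      rintro rfl
      rw [hKj] at hKm
      exact hil.ne hKm
    have hcl : Cl G K (insert m x1.1) := by
      intro a ha p hp hap
      rcases mem_insert.1 ha with rfl | ha
      · have h3 : p ∈ x2.1 := by
          apply x2.2 a _ p hp hap
          rw [hx2]
          exact mem_insert_self _ _
        rw [hx2] at h3
        rcases mem_insert.1 h3 with h4 | h4
        · rw [h4]; exact mem_insert_self _ _
        · rw [hx1]; exact mem_insert_of_mem (mem_insert_of_mem h4)
      · exact mem_insert_of_mem (x1.2 a ha p hp hap)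
    refine ⟨⟨insert m x1.1, hcl⟩, Or.inl ⟨m, ?_, hKm, hbm, rfl⟩, Or.inl ⟨j, ?_, hKj, hbj, ?_⟩⟩
    · rw [hx1]
      intro h
      rcases mem_insert.1 h with h | h
      · exact hjm h.symm
      · exact hm h
    · rw [hx2]
      intro h
      rcases mem_insert.1 h with h | h
      · exact hjm h
      · exact hj h
    · show insert m x1.1 = insert j x2.1
      rw [hx1, hx2, insert_comm]
  · obtain ⟨x3, h3, h4⟩ := square_mixed hil h1 h2
    exact ⟨x3, Or.inr h3, Or.inl h4⟩
  · obtain ⟨x3, h3, h4⟩ := square_mixed hil.symm h2 h1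
    exact ⟨x3, Or.inl h4, Or.inr h3⟩
  · obtain ⟨j, hj, hKj, hbj, hx1⟩ := h1
    obtain ⟨m, hm, hKm, hbm, hx2⟩ := h2
    have hjm : j ≠ m := by
      rintro rfl
      rw [hKj] at hKm
      exact hil.ne hKm
    have he1 : x1.1 = x.1.erase j := by rw [hx1, erase_insert hj]
    have he2 : x2.1 = x.1.erase m := by rw [hx2, erase_insert hm]
    have hjx : j ∈ x.1 := by rw [hx1]; exact mem_insert_self _ _
    have hmx : m ∈ x.1 := by rw [hx2]; exact mem_insert_self _ _
    have hcl : Cl G K ((x.1.erase j).erase m) := by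
      intro a ha p hp hap
      have ha1 : a ≠ m := ne_of_mem_erase ha
      have ha2 : a ∈ x.1.erase j := mem_of_mem_erase ha
      have ha3 : a ∈ x.1 := mem_of_mem_erase ha2
      have h5 : p ∈ x1.1 := x1.2 a (by rw [he1]; exact ha2) p hp hap
      have h6 : p ∈ x2.1 := x2.2 a (by rw [he2]; exact mem_erase.2 ⟨ha1, ha3⟩) p hp hap
      rw [he1] at h5
      rw [he2] at h6
      exact mem_erase.2 ⟨ne_of_mem_erase h6, h5⟩
    refine ⟨⟨(x.1.erase j).erase m, hcl⟩, Or.inr ⟨m, notMem_erase _ _, hKm, hbm, ?_⟩,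
      Or.inr ⟨j, ?_, hKj, hbj, ?_⟩⟩
    · show x1.1 = insert m ((x.1.erase j).erase m)
      rw [insert_erase (mem_erase.2 ⟨hjm.symm, hmx⟩), he1]
    · exact fun h => (notMem_erase j x.1) (mem_of_mem_erase h)
    · show x2.1 = insert j ((x.1.erase j).erase m)
      rw [erase_right_comm, insert_erase (mem_erase.2 ⟨hjm, hjx⟩), he2]

theorem red_pos {G : SimpleGraph κ} {l : List (κ × Bool)} (hred : Red G l)
    (j j' : Fin l.length) (hlt : j < j') (hK : (l.get j).1 = (l.get j').1)
    (hb : (l.get j').2 = !(l.get j).2) :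
    ∃ m : Fin l.length, j < m ∧ m < j' ∧ ¬ G.Adj (l.get j).1 (l.get m).1 := by
  have hlt' : (j : ℕ) < (j' : ℕ) := hlt
  have hj'l : (j' : ℕ) < l.length := j'.2
  obtain ⟨d, hd⟩ := Nat.exists_eq_add_of_lt hlt'
  have h1 : l = l.take j ++ l.get j ::
      ((l.drop (j + 1)).take d ++ linv (l.get j) :: l.drop (j' + 1)) := by
    have h2 : linv (l.get j) = l.get j' := by
      unfold linv
      rw [← hb, hK]
    rw [h2]
    have h3 : l.drop j = l.get j :: l.drop (j + 1) := List.drop_eq_getElem_cons j.2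
    have h4 : l.drop j' = l.get j' :: l.drop (j' + 1) := List.drop_eq_getElem_cons j'.2
    have h5 : (l.drop (j + 1)).take d ++ l.drop j' = l.drop (j + 1) := by
      have h6 : l.drop j' = (l.drop (j + 1)).drop d := by
        rw [List.drop_drop, hd]
        congr 1
        omega
      rw [h6, List.take_append_drop]
    rw [← h4, h5, ← h3, List.take_append_drop]
  obtain ⟨c, hc, hadj⟩ := hred _ _ _ _ h1
  obtain ⟨r, hr, hrc⟩ := List.mem_iff_getElem.1 hc
  have hr' : r < d := by
    rw [List.length_take] at hr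
    exact hr.trans_le (min_le_left _ _)
  have hrl : j + 1 + r < l.length := by omega
  refine ⟨⟨j + 1 + r, hrl⟩, ?_, ?_, ?_⟩
  · rw [Fin.lt_def]
    show (j : ℕ) < j + 1 + r
    omega
  · rw [Fin.lt_def]
    show (j : ℕ) + 1 + r < j'
    omega
  · have h7 : c = l.get ⟨j + 1 + r, hrl⟩ := by
      rw [← hrc, List.getElem_take, List.getElem_drop]
      rfl
    rw [← h7]
    exact hadj

/-- the positions `≥ r` -/
def up (n r : ℕ) : Finset (Fin n) := univ.filter fun j => r ≤ (j : ℕ)

theorem up_closed (G : SimpleGraph κ) (K : Fin n → κ) (r : ℕ) : Cl G K (up n r) := by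
  intro j hj m hm _
  rw [up, mem_filter] at hj ⊢
  have : (j : ℕ) < (m : ℕ) := hm
  exact ⟨mem_univ _, by omega⟩

theorem up_succ {r : ℕ} (hr : r < n) : up n r = insert ⟨r, hr⟩ (up n (r + 1)) := by
  ext j
  rw [mem_insert, up, up, mem_filter, mem_filter, Fin.ext_iff]
  simp only [mem_univ, true_and]
  omega

theorem up_notMem {r : ℕ} (hr : r < n) : (⟨r, hr⟩ : Fin n) ∉ up n (r + 1) := by
  rw [up, mem_filter]
  simp

theorem chain {G : SimpleGraph κ} (l : List (κ × Bool))
    (σ : κ → Equiv.Perm (D G (fun j => (l.get j).1) × (κ → Bool)))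
    (hσ : ∀ i x y, R G (fun j => (l.get j).1) (fun j => (l.get j).2) i x y →
      σ i (x, fun _ => false) = (y, fun _ => false)) (d : ℕ) :
    ∀ r, r + d = l.length →
    wperm σ (l.drop r) (⟨up l.length l.length, up_closed G _ _⟩, fun _ => false) =
      (⟨up l.length r, up_closed G _ _⟩, fun _ => false) := by
  induction d with
  | zero =>
    intro r hr
    obtain rfl : r = l.length := by omega
    rw [List.drop_length]
    rfl
  | succ d ih =>
    intro r hr
    have hrl : r < l.length := by omega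
    have h1 := ih (r + 1) (by omega)
    rw [List.drop_eq_getElem_cons hrl]
    show (lperm σ l[r] * wperm σ (l.drop (r + 1))) _ = _
    rw [Equiv.Perm.mul_apply, h1]
    unfold lperm
    by_cases hb : (l[r]).2 = true
    · rw [if_pos hb]
      apply hσ
      exact Or.inl ⟨⟨r, hrl⟩, up_notMem hrl, rfl, hb, up_succ hrl⟩
    · rw [if_neg hb, Equiv.Perm.inv_eq_iff_eq]
      symm
      apply hσ
      exact Or.inr ⟨⟨r, hrl⟩, up_notMem hrl, rfl, by simpa using hb, up_succ hrl⟩

end HeapAux

open HeapAux

theorem exists_sep {κ : Type} [Fintype κ] (G : SimpleGraph κ) (l : List (κ × Bool)) (hl : l ≠ [])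
    (hred : Red G l) :
    ∃ (X : Type) (_ : Fintype X) (σ : κ → Equiv.Perm X), Comm G σ ∧ wperm σ l ≠ 1 := by
  classical
  obtain ⟨σ, hcomm, hσ⟩ := extend G (R G (fun j => (l.get j).1) (fun j => (l.get j).2))
    (unique fun j j' hlt hK hb => red_pos hred j j' hlt hK hb) square
  have : Finite (D G (fun j : Fin l.length => (l.get j).1)) := by
    unfold D
    infer_instance
  refine ⟨D G (fun j : Fin l.length => (l.get j).1) × (κ → Bool), Fintype.ofFinite _, σ, hcomm, ?_⟩
  intro h
  have h1 := chain l σ hσ l.length 0 (by omega)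
  rw [List.drop_zero, h, Equiv.Perm.one_apply] at h1
  have h2 : up l.length l.length = up l.length 0 :=
    congrArg (fun p : D G (fun j : Fin l.length => (l.get j).1) × (κ → Bool) => p.1.1) h1
  have hpos : 0 < l.length := List.length_pos_of_ne_nil hl
  have h3 : (⟨0, hpos⟩ : Fin l.length) ∈ up l.length 0 := by
    rw [up, mem_filter]
    exact ⟨mem_univ _, le_rfl⟩
  rw [← h2, up, mem_filter] at h3
  exact absurd h3.2 (not_le.2 hpos)

end Pool.Agent.P325c
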