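import Pool.Agent.Lib.P325c.Words

/-!
# The clique bound for small sets

Sketch. Vertices `V = {x // x ∈ A} ⊕ {x // x ∈ B}` (card `≤ N`), simple graph: `inl ω` and `inr ω'` are joined if
`ω' = lperm σ a ω` for some letter `a` (the symmetric relation, also written on the other side). Choose for every
connected component a root: `v0` for the component of `v0`, an arbitrary vertex for the others; `ρ v` = the root of
the component of `v`. A path from `ρ v` to `v` (`SimpleGraph.Reachable`, `SimpleGraph.Walk.toPath`,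
`SimpleGraph.Walk.IsPath.length_lt`) gives a word of length `< card V ≤ N` that maps the point of `ρ v` to the point of `v`
(induction on the walk). Take `Dn` from `depth` for every root. For an edge (letter `a`, `ω ∈ A`,
`ω' = lperm σ a ω ∈ B`) the two ends have the same root and either `Dn ω a` (then bound the `min` by `μ ω`) or
`Dn ω' (linv a)` (bound it by `ν ω'`). For a vertex with point `v` the letters `a` with `Dn v a` have pairwise
adjacent types (in particular distinct types), so the sum of `w a.1` over them is at most `cliqueWeight G w`; for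
the root `v0` there are none. In the second sum substitute `ω = lperm σ (linv a) ω'`.
-/

open Finset
open scoped BigOperators

namespace Pool.Agent.P325c

theorem sum_le_cliqueWeight {κ : Type} [Fintype κ] (G : SimpleGraph κ) (w : κ → ℕ) (F : Finset κ)
    (hF : G.IsClique (F : Set κ)) : ∑ k ∈ F, w k ≤ cliqueWeight G w := by
  classical
  unfold cliqueWeight
  exact Finset.le_sup (f := fun F : Finset κ => ∑ k ∈ F, w k)
    (Finset.mem_filter.2 ⟨mem_univ _, hF⟩)

namespace OwnAux

theorem linv_linv {κ : Type} (a : κ × Bool) : linv (linv a) = a := by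
  simp [linv]

theorem lperm_linv {κ Ω : Type} (σ : κ → Equiv.Perm Ω) (a : κ × Bool) :
    lperm σ (linv a) = (lperm σ a)⁻¹ := by
  obtain ⟨k, b⟩ := a
  cases b <;> simp [lperm, linv]

theorem wperm_append {κ Ω : Type} (σ : κ → Equiv.Perm Ω) (l l' : List (κ × Bool)) :
    wperm σ (l ++ l') = wperm σ l * wperm σ l' := by
  induction l with
  | nil => simp [wperm]
  | cons a l ih => simp [wperm, ih, mul_assoc]

open scoped Classical in
/-- The letters owned by one vertex have pairwise adjacent types. -/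
theorem letters_le {κ : Type} [Fintype κ] (G : SimpleGraph κ) (w : κ → ℕ) (D : κ × Bool → Prop)
    (hD : ∀ a b, D a → D b → a ≠ b → G.Adj a.1 b.1) :
    ∑ a : κ × Bool, (if D a then (w a.1 : ℝ) else 0) ≤ (cliqueWeight G w : ℝ) := by
  set S : Finset (κ × Bool) := univ.filter D with hS
  have hmem : ∀ a, a ∈ S ↔ D a := fun a => by rw [hS, Finset.mem_filter]; simp
  have hinj : Set.InjOn (fun a : κ × Bool => a.1) (S : Set (κ × Bool)) := by
    intro a ha b hb hab
    by_contra hne
    have h1 := hD a b ((hmem a).1 ha) ((hmem b).1 hb) hne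
    have h2 : a.1 = b.1 := hab
    rw [h2] at h1
    exact G.irrefl h1
  have h1 : ∑ a : κ × Bool, (if D a then (w a.1 : ℝ) else 0) = ∑ a ∈ S, (w a.1 : ℝ) := by
    rw [hS, Finset.sum_filter]
  have h2 : ∑ a ∈ S, (w a.1 : ℝ) = ∑ k ∈ S.image (fun a => a.1), (w k : ℝ) := by
    rw [Finset.sum_image]
    exact hinj
  have h3 : G.IsClique ((S.image (fun a => a.1) : Finset κ) : Set κ) := by
    intro k hk l hl hkl
    rw [Finset.mem_coe, Finset.mem_image] at hk hl
    obtain ⟨a, ha, rfl⟩ := hk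
    obtain ⟨b, hb, rfl⟩ := hl
    exact hD a b ((hmem a).1 ha) ((hmem b).1 hb) (fun h => hkl (by rw [h]))
  rw [h1, h2]
  exact_mod_cast sum_le_cliqueWeight G w _ h3

open scoped Classical in
/-- Summation over the owners of the edges. -/
theorem sum_own {κ Ω : Type} [Fintype κ] (σ : κ → Equiv.Perm Ω) (w : κ → ℕ) (A B : Finset Ω)
    (μ ν : Ω → ℝ) (hμ : ∀ ω, 0 ≤ μ ω) (hν : ∀ ω, 0 ≤ ν ω) (DA DB : Ω → κ × Bool → Prop)
    (hedge : ∀ a, ∀ x ∈ A, lperm σ a x ∈ B → DA x a ∨ DB (lperm σ a x) (linv a))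
    (cA cB : Ω → ℝ)
    (hA : ∀ x ∈ A, ∑ a : κ × Bool, (if DA x a then (w a.1 : ℝ) else 0) ≤ cA x)
    (hB : ∀ y ∈ B, ∑ a : κ × Bool, (if DB y a then (w a.1 : ℝ) else 0) ≤ cB y) :
    (∑ a : κ × Bool, (w a.1 : ℝ) *
        ∑ ω ∈ A, if lperm σ a ω ∈ B then min (μ ω) (ν (lperm σ a ω)) else 0) ≤
      ∑ x ∈ A, cA x * μ x + ∑ y ∈ B, cB y * ν y := by
  have h1 : ∀ a : κ × Bool, (w a.1 : ℝ) *
      (∑ ω ∈ A, if lperm σ a ω ∈ B then min (μ ω) (ν (lperm σ a ω)) else 0) ≤
      ∑ x ∈ A, (if DA x a then (w a.1 : ℝ) else 0) * μ x +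
        ∑ y ∈ B, (if DB y (linv a) then (w a.1 : ℝ) else 0) * ν y := by
    intro a
    have hw : (0 : ℝ) ≤ w a.1 := Nat.cast_nonneg _
    have h2 : ∀ x ∈ A, (w a.1 : ℝ) * (if lperm σ a x ∈ B then min (μ x) (ν (lperm σ a x)) else 0) ≤
        (if DA x a then (w a.1 : ℝ) else 0) * μ x +
          (if lperm σ a x ∈ B then (if DB (lperm σ a x) (linv a) then (w a.1 : ℝ) else 0) *
            ν (lperm σ a x) else 0) := by
      intro x hx
      have hμx := hμ x
      have hνx := hν (lperm σ a x)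
      by_cases hb : lperm σ a x ∈ B
      · rw [if_pos hb, if_pos hb]
        rcases hedge a x hx hb with h | h
        · rw [if_pos h]
          have h3 : (w a.1 : ℝ) * min (μ x) (ν (lperm σ a x)) ≤ w a.1 * μ x :=
            mul_le_mul_of_nonneg_left (min_le_left _ _) hw
          have h4 : 0 ≤ (if DB (lperm σ a x) (linv a) then (w a.1 : ℝ) else 0) *
              ν (lperm σ a x) := by
            split_ifs <;> positivity
          linarith
        · rw [if_pos h]
          have h3 : (w a.1 : ℝ) * min (μ x) (ν (lperm σ a x)) ≤ w a.1 * ν (lperm σ a x) :=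
            mul_le_mul_of_nonneg_left (min_le_right _ _) hw
          have h4 : 0 ≤ (if DA x a then (w a.1 : ℝ) else 0) * μ x := by
            split_ifs <;> positivity
          linarith
      · rw [if_neg hb, if_neg hb, mul_zero, add_zero]
        split_ifs <;> positivity
    rw [Finset.mul_sum]
    refine (Finset.sum_le_sum h2).trans ?_
    rw [Finset.sum_add_distrib]
    refine add_le_add le_rfl ?_
    rw [← Finset.sum_filter]
    have h5 : ∑ x ∈ A.filter (fun x => lperm σ a x ∈ B),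
        (if DB (lperm σ a x) (linv a) then (w a.1 : ℝ) else 0) * ν (lperm σ a x) =
        ∑ y ∈ (A.filter (fun x => lperm σ a x ∈ B)).image (lperm σ a),
          (if DB y (linv a) then (w a.1 : ℝ) else 0) * ν y := by
      rw [Finset.sum_image]
      intro x _ y _ hxy
      exact (lperm σ a).injective hxy
    rw [h5]
    apply Finset.sum_le_sum_of_subset_of_nonneg
    · intro y hy
      rw [Finset.mem_image] at hy
      obtain ⟨x, hx, rfl⟩ := hy
      exact (Finset.mem_filter.1 hx).2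
    · intro y _ _
      have := hν y
      split_ifs <;> positivity
  refine (Finset.sum_le_sum fun a _ => h1 a).trans ?_
  rw [Finset.sum_add_distrib]
  refine add_le_add ?_ ?_
  · rw [Finset.sum_comm]
    refine Finset.sum_le_sum fun x hx => ?_
    rw [← Finset.sum_mul]
    exact mul_le_mul_of_nonneg_right (hA x hx) (hμ x)
  · rw [Finset.sum_comm]
    refine Finset.sum_le_sum fun y hy => ?_
    rw [← Finset.sum_mul]
    refine mul_le_mul_of_nonneg_right ?_ (hν y)
    refine le_trans (le_of_eq ?_) (hB y hy)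
    have hbij : Function.Bijective (linv : κ × Bool → κ × Bool) :=
      Function.Involutive.bijective linv_linv
    exact Fintype.sum_bijective linv hbij _ _ (fun a => rfl)

/-- The point of a vertex. -/
def pt {Ω : Type} {A B : Finset Ω} : {x // x ∈ A} ⊕ {x // x ∈ B} → Ω :=
  Sum.elim Subtype.val Subtype.val

/-- The relation of the graph. -/
def rel {κ Ω : Type} (σ : κ → Equiv.Perm Ω) (A B : Finset Ω) :
    {x // x ∈ A} ⊕ {x // x ∈ B} → {x // x ∈ A} ⊕ {x // x ∈ B} → Prop :=
  fun u v => ∃ a, pt v = lperm σ a (pt u)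

theorem rel_symm {κ Ω : Type} {σ : κ → Equiv.Perm Ω} {A B : Finset Ω}
    {u v : {x // x ∈ A} ⊕ {x // x ∈ B}} (h : rel σ A B u v) : rel σ A B v u := by
  obtain ⟨a, ha⟩ := h
  refine ⟨linv a, ?_⟩
  rw [ha, lperm_linv]
  simp

/-- The graph. -/
def gr {κ Ω : Type} (σ : κ → Equiv.Perm Ω) (A B : Finset Ω) :
    SimpleGraph ({x // x ∈ A} ⊕ {x // x ∈ B}) := SimpleGraph.fromRel (rel σ A B)

theorem walk_word {κ Ω : Type} (σ : κ → Equiv.Perm Ω) (A B : Finset Ω)
    {u v : {x // x ∈ A} ⊕ {x // x ∈ B}} (p : (gr σ A B).Walk u v) :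
    ∃ l : List (κ × Bool), l.length = p.length ∧ wperm σ l (pt u) = pt v := by
  induction p with
  | nil => exact ⟨[], rfl, by simp [wperm]⟩
  | cons h p ih =>
    obtain ⟨l, hl, hw⟩ := ih
    have h1 := ((SimpleGraph.fromRel_adj _ _ _).1 h).2
    have h2 := h1.elim id rel_symm
    obtain ⟨a, ha⟩ := h2
    refine ⟨l ++ [a], by simp [hl], ?_⟩
    rw [wperm_append, Equiv.Perm.mul_apply]
    have h3 : wperm σ [a] = lperm σ a := by simp [wperm]
    rw [h3, ← ha, hw]

theorem reach_word {κ Ω : Type} (σ : κ → Equiv.Perm Ω) (A B : Finset Ω) (N : ℕ)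
    (hAB : A.card + B.card ≤ N) {u v : {x // x ∈ A} ⊕ {x // x ∈ B}}
    (h : (gr σ A B).Reachable u v) :
    ∃ l : List (κ × Bool), l.length ≤ N ∧ wperm σ l (pt u) = pt v := by
  classical
  obtain ⟨p⟩ := h
  obtain ⟨l, hl, hw⟩ := walk_word σ A B (p.toPath : (gr σ A B).Walk u v)
  refine ⟨l, ?_, hw⟩
  have h1 := (p.toPath).2.length_lt
  have h2 : Fintype.card ({x // x ∈ A} ⊕ {x // x ∈ B}) = A.card + B.card := by
    rw [Fintype.card_sum, Fintype.card_coe, Fintype.card_coe]
  rw [h2] at h1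
  omega

open scoped Classical in
/-- The clique bound for a given choice of roots. -/
theorem core {κ Ω : Type} [Fintype κ] (G : SimpleGraph κ) (σ : κ → Equiv.Perm Ω)
    (hc : Comm G σ) (N : ℕ) (hfree : FreeUpTo G σ (2 * N + 1)) (w : κ → ℕ) (A B : Finset Ω)
    (hAB : A.card + B.card ≤ N) (μ ν : Ω → ℝ) (hμ : ∀ ω, 0 ≤ μ ω) (hν : ∀ ω, 0 ≤ ν ω)
    (ρ : {x // x ∈ A} ⊕ {x // x ∈ B} → {x // x ∈ A} ⊕ {x // x ∈ B})
    (hρ : ∀ u v, (gr σ A B).Reachable u v → ρ u = ρ v) (hr : ∀ v, (gr σ A B).Reachable (ρ v) v)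
    (cA cB : Ω → ℝ)
    (hA : ∀ x, ∀ hx : x ∈ A, cliqueWeight G w ≤ cA x ∨
      (cA x = 0 ∧ ρ (Sum.inl ⟨x, hx⟩) = Sum.inl ⟨x, hx⟩))
    (hB : ∀ y, ∀ hy : y ∈ B, cliqueWeight G w ≤ cB y ∨
      (cB y = 0 ∧ ρ (Sum.inr ⟨y, hy⟩) = Sum.inr ⟨y, hy⟩)) :
    (∑ a : κ × Bool, (w a.1 : ℝ) *
        ∑ ω ∈ A, if lperm σ a ω ∈ B then min (μ ω) (ν (lperm σ a ω)) else 0) ≤
      ∑ x ∈ A, cA x * μ x + ∑ y ∈ B, cB y * ν y := by
  choose Dn hD0 hD1 hD2 using fun r : Ω => depth G σ hc N hfree r
  have hball : ∀ v, ∃ l : List (κ × Bool), l.length ≤ N ∧ wperm σ l (pt (ρ v)) = pt v :=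
    fun v => reach_word σ A B N hAB (hr v)
  refine sum_own σ w A B μ ν hμ hν
    (fun x a => ∃ hx : x ∈ A, Dn (pt (ρ (Sum.inl ⟨x, hx⟩))) x a)
    (fun y a => ∃ hy : y ∈ B, Dn (pt (ρ (Sum.inr ⟨y, hy⟩))) y a) ?_ cA cB ?_ ?_
  · intro a x hx hb
    set u : {x // x ∈ A} ⊕ {x // x ∈ B} := Sum.inl ⟨x, hx⟩ with hu
    set v : {x // x ∈ A} ⊕ {x // x ∈ B} := Sum.inr ⟨lperm σ a x, hb⟩ with hv
    have huv : (gr σ A B).Adj u v := by
      rw [gr, SimpleGraph.fromRel_adj]
      exact ⟨by simp [hu, hv], Or.inl ⟨a, rfl⟩⟩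
    have hρuv : ρ u = ρ v := hρ u v huv.reachable
    have h1 := hD1 (pt (ρ u)) x a (hball u) (by
      rw [hρuv]
      exact hball v)
    rcases h1 with h1 | h1
    · exact Or.inl ⟨hx, h1⟩
    · right
      refine ⟨hb, ?_⟩
      rw [← hv, ← hρuv]
      exact h1
  · intro x hx
    rcases hA x hx with h | ⟨h0, h⟩
    · refine le_trans ?_ h
      apply letters_le G w
      rintro a b ⟨h1, h2⟩ ⟨h3, h4⟩ hab
      exact hD2 _ x a b (hball (Sum.inl ⟨x, hx⟩)) h2 h4 hab
    · rw [h0]
      apply le_of_eq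
      apply Finset.sum_eq_zero
      intro a _
      rw [if_neg]
      rintro ⟨h1, h2⟩
      rw [h] at h2
      exact hD0 _ a h2
  · intro y hy
    rcases hB y hy with h | ⟨h0, h⟩
    · refine le_trans ?_ h
      apply letters_le G w
      rintro a b ⟨h1, h2⟩ ⟨h3, h4⟩ hab
      exact hD2 _ y a b (hball (Sum.inr ⟨y, hy⟩)) h2 h4 hab
    · rw [h0]
      apply le_of_eq
      apply Finset.sum_eq_zero
      intro a _
      rw [if_neg]
      rintro ⟨h1, h2⟩
      rw [h] at h2
      exact hD0 _ a h2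

open scoped Classical in
/-- Roots of the components, with one prescribed root. -/
theorem exists_roots {V : Type} (H : SimpleGraph V) (v0 : V) :
    ∃ ρ : V → V, (∀ u v, H.Reachable u v → ρ u = ρ v) ∧ (∀ v, H.Reachable (ρ v) v) ∧
      ρ v0 = v0 := by
  refine ⟨fun v => if H.Reachable v0 v then v0 else (H.connectedComponentMk v).out, ?_, ?_, ?_⟩
  · intro u v huv
    have h1 : H.connectedComponentMk u = H.connectedComponentMk v :=
      SimpleGraph.ConnectedComponent.eq.2 huv
    by_cases h : H.Reachable v0 u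
    · have h2 : H.Reachable v0 v := h.trans huv
      simp only [h, h2, if_true]
    · have h2 : ¬ H.Reachable v0 v := fun h3 => h (h3.trans huv.symm)
      simp only [h, h2, if_false, h1]
  · intro v
    beta_reduce
    split_ifs with h
    · exact h
    · exact SimpleGraph.ConnectedComponent.exact (Quot.out_eq (H.connectedComponentMk v))
  · simp

end OwnAux

open OwnAux

open scoped Classical in
/-- The clique bound, with the gain of one chosen vertex. -/
theorem own_bound {κ Ω : Type} [Fintype κ] (G : SimpleGraph κ) (σ : κ → Equiv.Perm Ω)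
    (hc : Comm G σ) (N : ℕ) (hfree : FreeUpTo G σ (2 * N + 1)) (w : κ → ℕ) (A B : Finset Ω)
    (hAB : A.card + B.card ≤ N) (μ ν : Ω → ℝ) (hμ : ∀ ω, 0 ≤ μ ω) (hν : ∀ ω, 0 ≤ ν ω)
    (g : ℝ) (hg : g = 0 ∨ (∃ v ∈ A, g = μ v) ∨ (∃ v ∈ B, g = ν v)) :
    (∑ a : κ × Bool, (w a.1 : ℝ) *
        ∑ ω ∈ A, if lperm σ a ω ∈ B then min (μ ω) (ν (lperm σ a ω)) else 0) +
      (cliqueWeight G w : ℝ) * g ≤
      (cliqueWeight G w : ℝ) * (∑ ω ∈ A, μ ω + ∑ ω ∈ B, ν ω) := by
  set cw : ℝ := (cliqueWeight G w : ℝ) with hcw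
  rcases hg with rfl | ⟨v, hv, rfl⟩ | ⟨v, hv, rfl⟩
  · rw [mul_zero, add_zero, mul_add, Finset.mul_sum, Finset.mul_sum]
    by_cases hne : Nonempty ({x // x ∈ A} ⊕ {x // x ∈ B})
    · obtain ⟨ρ, h1, h2, -⟩ := exists_roots (gr σ A B) (Classical.arbitrary _)
      exact core G σ hc N hfree w A B hAB μ ν hμ hν ρ h1 h2 (fun _ => cw) (fun _ => cw)
        (fun x hx => Or.inl le_rfl) (fun y hy => Or.inl le_rfl)
    · have hA : A = ∅ := by
        by_contra h
        obtain ⟨x, hx⟩ := Finset.nonempty_iff_ne_empty.2 h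
        exact hne ⟨Sum.inl ⟨x, hx⟩⟩
      have hB : B = ∅ := by
        by_contra h
        obtain ⟨x, hx⟩ := Finset.nonempty_iff_ne_empty.2 h
        exact hne ⟨Sum.inr ⟨x, hx⟩⟩
      rw [hA, hB]
      simp
  · obtain ⟨ρ, h1, h2, h3⟩ := exists_roots (gr σ A B) (Sum.inl ⟨v, hv⟩)
    have h4 := core G σ hc N hfree w A B hAB μ ν hμ hν ρ h1 h2
      (fun x => if x = v then 0 else cw) (fun _ => cw)
      (fun x hx => by
        by_cases hxv : x = v
        · right
          subst hxv
          exact ⟨by simp, h3⟩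
        · left
          simp [hxv, hcw]) (fun y hy => Or.inl le_rfl)
    have h5 : ∑ x ∈ A, (if x = v then 0 else cw) * μ x = cw * ∑ x ∈ A, μ x - cw * μ v := by
      have h6 : ∀ x ∈ A, (if x = v then 0 else cw) * μ x =
          cw * μ x - (if x = v then cw * μ x else 0) := by
        intro x _
        split_ifs <;> ring
      rw [Finset.sum_congr rfl h6, Finset.sum_sub_distrib, Finset.sum_ite_eq' A v, if_pos hv,
        ← Finset.mul_sum]
    rw [h5, ← Finset.mul_sum] at h4
    linarith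
  · obtain ⟨ρ, h1, h2, h3⟩ := exists_roots (gr σ A B) (Sum.inr ⟨v, hv⟩)
    have h4 := core G σ hc N hfree w A B hAB μ ν hμ hν ρ h1 h2 (fun _ => cw)
      (fun x => if x = v then 0 else cw) (fun x hx => Or.inl le_rfl)
      (fun x hx => by
        by_cases hxv : x = v
        · right
          subst hxv
          exact ⟨by simp, h3⟩
        · left
          simp [hxv, hcw])
    have h5 : ∑ x ∈ B, (if x = v then 0 else cw) * ν x = cw * ∑ x ∈ B, ν x - cw * ν v := by
      have h6 : ∀ x ∈ B, (if x = v then 0 else cw) * ν x =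
          cw * ν x - (if x = v then cw * ν x else 0) := by
        intro x _
        split_ifs <;> ring
      rw [Finset.sum_congr rfl h6, Finset.sum_sub_distrib, Finset.sum_ite_eq' B v, if_pos hv,
        ← Finset.mul_sum]
    rw [h5, ← Finset.mul_sum] at h4
    linarith

end Pool.Agent.P325c
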