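import Pool.Agent.Lib.P325c.Defs

/-!
# From partial bijections to permutations

`R i x y` says that the partial bijection number `i` maps `x` to `y`. If the partial bijections of adjacent
`i`, `l` commute in the strong sense (squares can be completed, with all combinations of directions) then
there are permutations of `D × (κ → Bool)` which commute and extend the partial bijections on the copy of
`D` over `fun _ => false`.

Sketch. For `x : D` let `s i x : Option D` be the `y` with `R i x y` (unique) and `t i x : Option D` the `y`
with `R i y x` (unique). Put `ŝ i (x, b) =`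
* if `b i = false`: `(y, b)` if `s i x = some y`, and `(x, update b i true)` if `s i x = none`;
* if `b i = true`: `(y, b)` if `t i x = some y`, and `(x, update b i false)` if `t i x = none`.
The inverse is the same with `s` and `t` exchanged in the two cases:
* if `b i = false`: `(y, b)` if `t i x = some y`, and `(x, update b i true)` if `t i x = none`;
* if `b i = true`: `(y, b)` if `s i x = some y`, and `(x, update b i false)` if `s i x = none`.
(`s i x = some y ↔ t i y = some x`.) For adjacent `i`, `l` (so `i ≠ l`) the squares give: if a move of `i`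
(`s i` or `t i`) maps `x` to `x1` and a move of `l` maps `x` to `x2`, then the move of `l` maps `x1` to some `x3`
and the move of `i` maps `x2` to the same `x3`; hence also: if the move of `l` maps `x` to `x2` and the move of
`i` is undefined at `x`, it is undefined at `x2` (otherwise apply the square at `x2` with the move of `l`
reversed). A case analysis proves `ŝ i * ŝ l = ŝ l * ŝ i`.

It may be convenient to write `mv c i x y := if c then R i y x else R i x y` (`c : Bool` the direction).
-/

open Finset

namespace Pool.Agent.P325c

/-- The move number `i`, forward or backward. -/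
def Mv {κ D : Type} (R : κ → D → D → Prop) (i : κ) (c : Bool) (x y : D) : Prop :=
  if c then R i y x else R i x y

theorem Mv_not {κ D : Type} (R : κ → D → D → Prop) (i : κ) (c : Bool) (x y : D) (h : Mv R i c x y) :
    Mv R i (!c) y x := by
  unfold Mv at *
  cases c <;> simpa using h

open Classical in
/-- The move as a partial function. -/
noncomputable def mvO {κ D : Type} (R : κ → D → D → Prop) (i : κ) (c : Bool) (x : D) : Option D :=
  if h : ∃ y, Mv R i c x y then some h.choose else none

theorem mvO_some {κ D : Type} (R : κ → D → D → Prop)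
    (hf : ∀ i c x y y', Mv R i c x y → Mv R i c x y' → y = y') {i : κ} {c : Bool} {x y : D}
    (h : Mv R i c x y) : mvO R i c x = some y := by
  unfold mvO
  have he : ∃ y, Mv R i c x y := ⟨y, h⟩
  rw [dif_pos he]
  exact congrArg some (hf i c x _ _ he.choose_spec h)

theorem mvO_none {κ D : Type} (R : κ → D → D → Prop) {i : κ} {c : Bool} {x : D}
    (h : ¬ ∃ y, Mv R i c x y) : mvO R i c x = none := by
  unfold mvO
  rw [dif_neg h]

/-- The extended move. -/
noncomputable def gm {κ D : Type} [DecidableEq κ] (R : κ → D → D → Prop) (i : κ) (d : Bool)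
    (p : D × (κ → Bool)) : D × (κ → Bool) :=
  match mvO R i (xor d (p.2 i)) p.1 with
  | some y => (y, p.2)
  | none => (p.1, Function.update p.2 i (!(p.2 i)))

theorem gm_some {κ D : Type} [DecidableEq κ] (R : κ → D → D → Prop)
    (hf : ∀ i c x y y', Mv R i c x y → Mv R i c x y' → y = y') {i : κ} {d : Bool}
    {x y : D} {b : κ → Bool} (h : Mv R i (xor d (b i)) x y) : gm R i d (x, b) = (y, b) := by
  unfold gm
  simp only [mvO_some R hf h]

theorem gm_none {κ D : Type} [DecidableEq κ] (R : κ → D → D → Prop) {i : κ} {d : Bool}
    {x : D} {b : κ → Bool} (h : ¬ ∃ y, Mv R i (xor d (b i)) x y) :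
    gm R i d (x, b) = (x, Function.update b i (!(b i))) := by
  unfold gm
  simp only [mvO_none R h]

theorem gm_inv {κ D : Type} [DecidableEq κ] (R : κ → D → D → Prop)
    (hf : ∀ i c x y y', Mv R i c x y → Mv R i c x y' → y = y') (i : κ) (d : Bool)
    (p : D × (κ → Bool)) : gm R i (!d) (gm R i d p) = p := by
  obtain ⟨x, b⟩ := p
  by_cases h : ∃ y, Mv R i (xor d (b i)) x y
  · obtain ⟨y, hy⟩ := h
    rw [gm_some R hf hy]
    have h2 := Mv_not R i _ _ _ hy
    apply gm_some R hf
    have e : (xor (!d) (b i)) = !(xor d (b i)) := by cases d <;> cases b i <;> rfl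
    rw [e]
    exact h2
  · rw [gm_none R h]
    have e : (xor (!d) (Function.update b i (!(b i)) i)) = xor d (b i) := by
      rw [Function.update_self]
      cases d <;> cases b i <;> rfl
    rw [gm_none R (by rw [e]; exact h)]
    simp

/-- The extended move as a permutation. -/
noncomputable def gp {κ D : Type} [DecidableEq κ] (R : κ → D → D → Prop)
    (hf : ∀ i c x y y', Mv R i c x y → Mv R i c x y' → y = y') (i : κ) :
    Equiv.Perm (D × (κ → Bool)) where
  toFun := gm R i false
  invFun := gm R i true
  left_inv p := gm_inv R hf i false p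
  right_inv p := gm_inv R hf i true p

theorem extend {κ D : Type} [DecidableEq κ] (G : SimpleGraph κ) (R : κ → D → D → Prop)
    (hf : ∀ i c x y y', Mv R i c x y → Mv R i c x y' → y = y')
    (hsq : ∀ i l, G.Adj i l → ∀ c c' x x1 x2, Mv R i c x x1 → Mv R l c' x x2 →
      ∃ x3, Mv R l c' x1 x3 ∧ Mv R i c x2 x3) :
    ∃ σ : κ → Equiv.Perm (D × (κ → Bool)), Comm G σ ∧
      ∀ i x y, R i x y → σ i (x, fun _ => false) = (y, fun _ => false) := by
  refine ⟨gp R hf, ?_, ?_⟩
  · -- propagation of undefinedness
    have hun : ∀ i l, G.Adj i l → ∀ c c' x x1, Mv R i c x x1 → (¬ ∃ y, Mv R l c' x y) →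
        ¬ ∃ y, Mv R l c' x1 y := by
      rintro i l hil c c' x x1 h1 h2 ⟨y, hy⟩
      obtain ⟨x4, h4, -⟩ := hsq i l hil (!c) c' x1 x y (Mv_not R i c x x1 h1) hy
      exact h2 ⟨x4, h4⟩
    intro i l hil
    have hne : i ≠ l := hil.ne
    apply Equiv.ext
    rintro ⟨x, b⟩
    show gm R i false (gm R l false (x, b)) = gm R l false (gm R i false (x, b))
    by_cases hi : ∃ y, Mv R i (xor false (b i)) x y <;> by_cases hl : ∃ y, Mv R l (xor false (b l)) x y
    · obtain ⟨x1, h1⟩ := hi
      obtain ⟨x2, h2⟩ := hl
      obtain ⟨x3, h3, h4⟩ := hsq i l hil _ _ x x1 x2 h1 h2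
      rw [gm_some R hf h1, gm_some R hf h2, gm_some R hf h3, gm_some R hf h4]
    · obtain ⟨x1, h1⟩ := hi
      have h3 := hun i l hil _ _ x x1 h1 hl
      rw [gm_some R hf h1, gm_none R hl, gm_none R h3]
      apply gm_some R hf
      rw [Function.update_of_ne hne]
      exact h1
    · obtain ⟨x2, h2⟩ := hl
      have h3 := hun l i hil.symm _ _ x x2 h2 hi
      rw [gm_some R hf h2, gm_none R hi, gm_none R h3]
      symm
      apply gm_some R hf
      rw [Function.update_of_ne hne.symm]
      exact h2
    · rw [gm_none R hi, gm_none R hl]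
      rw [gm_none R (by rw [Function.update_of_ne hne]; exact hi),
        gm_none R (by rw [Function.update_of_ne hne.symm]; exact hl)]
      rw [Function.update_of_ne hne, Function.update_of_ne hne.symm, Function.update_comm hne]
  · intro i x y h
    show gm R i false (x, fun _ => false) = (y, fun _ => false)
    apply gm_some R hf
    simpa [Mv] using h

end Pool.Agent.P325c
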