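import Mathlib
import Pool.Agent.Lib.CovT.Walk
import Pool.Agent.Lib.P325c.Conc

/-!
# Walks along reduced words in random matchings

`Z` is the set of copies, `cl` the cloud map, `Φ k` a fixed permutation of the slots. A routing `g`
is a family of permutations `g k` of `Z` that keep the clouds. The walk moves along
`g k * Φ k * (g k)⁻¹`. The letter `k` may be used at the copies `z` with `inc k z` only.
-/

set_option linter.unusedSectionVars false

open Finset

namespace Pool.Agent.P325c

open Pool.Agent.P325f1f.Dich

section word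

variable {K Z C Nd : Type} [Fintype K] [DecidableEq K] [Fintype Z] [DecidableEq Z]
  [DecidableEq C] [DecidableEq Nd]

theorem app_inv (f : Equiv.Perm Z) (z : Z) : f (f⁻¹ z) = z := f.apply_symm_apply z

theorem inv_app (f : Equiv.Perm Z) (z : Z) : f⁻¹ (f z) = z := f.symm_apply_apply z

/-- The matching of the letter `k`. -/
def mate (Φ g : K → Equiv.Perm Z) (k : K) : Equiv.Perm Z := g k * Φ k * (g k)⁻¹

theorem mate_apply (Φ g : K → Equiv.Perm Z) (k : K) (z : Z) :
    mate Φ g k z = g k (Φ k ((g k)⁻¹ z)) := rfl

/-- The walk along a word, the first letter first. -/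
def walk {V : Type} (M : K → V → V) : List K → V → V
  | [], z => z
  | k :: ks, z => walk M ks (M k z)

/-- All letters of the walk may be used. -/
def valid {V : Type} (M : K → V → V) (inc : K → V → Prop) : List K → V → Prop
  | [], _ => True
  | k :: ks, z => inc k z ∧ valid M inc ks (M k z)

/-- The slots in the cloud of `z`. -/
def cloud (cl : Z → C) (z : Z) : Finset Z := univ.filter (fun a => cl a = cl z)

theorem mem_cloud (cl : Z → C) (z a : Z) : a ∈ cloud cl z ↔ cl a = cl z := by simp [cloud]

theorem cloud_pos (cl : Z → C) (z : Z) : 0 < (cloud cl z).card :=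
  card_pos.2 ⟨z, by simp [cloud]⟩

open Classical in
/-- The value of the walk that starts with the slot `p` of the letter `k` and avoids repeated
nodes. -/
noncomputable def val (node : Z → Nd) (inc : K → Z → Prop) (F : Nd → ℝ)
    (Φ g : K → Equiv.Perm Z) : Finset Nd → K → List K → Z → ℝ
  | _, k, [], p => if inc k p then F (node (Φ k p)) else 0
  | D, k, k' :: ks, p =>
    if ¬ inc k p ∨ node (Φ k p) ∈ D then 0
    else val node inc F Φ g (insert (node (Φ k p)) D) k' ks ((g k')⁻¹ (g k (Φ k p)))

open Classical in
/-- The walk meets a node twice (the last node does not count). -/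
noncomputable def bad (node : Z → Nd) (inc : K → Z → Prop) (Φ g : K → Equiv.Perm Z) :
    Finset Nd → K → List K → Z → ℝ
  | _, _, [], _ => 0
  | D, k, k' :: ks, p =>
    if ¬ inc k p then 0
    else if node (Φ k p) ∈ D then 1
    else bad node inc Φ g (insert (node (Φ k p)) D) k' ks ((g k')⁻¹ (g k (Φ k p)))

theorem inv_agree (cl : Z → C) (node : Z → Nd) (hn : ∀ z z', cl z = cl z' → node z = node z')
    {g g' : K → Equiv.Perm Z} (hg' : Keeps (fun _ : K => cl) g') {D : Finset Nd}
    (h : ∀ k z, node z ∉ D → g k z = g' k z) (k : K) (z : Z) (hz : node z ∉ D) :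
    (g k)⁻¹ z = (g' k)⁻¹ z := by
  rw [Equiv.Perm.inv_eq_iff_eq]
  have h1 : node ((g' k)⁻¹ z) = node z := by
    apply hn
    have := hg' k ((g' k)⁻¹ z)
    rw [app_inv] at this
    exact this.symm
  rw [h k _ (by rw [h1]; exact hz), app_inv]

theorem node_keeps (cl : Z → C) (node : Z → Nd) (hn : ∀ z z', cl z = cl z' → node z = node z')
    {g : K → Equiv.Perm Z} (hg : Keeps (fun _ : K => cl) g) (k : K) (z : Z) :
    node (g k z) = node z := hn _ _ (hg k z)

theorem val_congr (cl : Z → C) (node : Z → Nd) (hn : ∀ z z', cl z = cl z' → node z = node z')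
    (inc : K → Z → Prop) (F : Nd → ℝ) (Φ g g' : K → Equiv.Perm Z)
    (hg' : Keeps (fun _ : K => cl) g') :
    ∀ (ks : List K) (D : Finset Nd) (k : K) (p : Z),
      (∀ k z, node z ∉ D → g k z = g' k z) →
        val node inc F Φ g D k ks p = val node inc F Φ g' D k ks p := by
  intro ks
  induction ks with
  | nil => intro D k p _; rfl
  | cons k' ks ih =>
    intro D k p h
    rw [val, val]
    by_cases hD : ¬ inc k p ∨ node (Φ k p) ∈ D
    · rw [if_pos hD, if_pos hD]
    · rw [if_neg hD, if_neg hD]
      push Not at hD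
      have h1 : g k (Φ k p) = g' k (Φ k p) := h k _ hD.2
      have h2 : (g k')⁻¹ (g k (Φ k p)) = (g' k')⁻¹ (g' k (Φ k p)) := by
        rw [h1]
        apply inv_agree cl node hn hg' h
        rw [node_keeps cl node hn hg']
        exact hD.2
      rw [h2]
      exact ih _ _ _ (fun k z hz => h k z (fun hz' => hz (mem_insert_of_mem hz')))

theorem bad_congr (cl : Z → C) (node : Z → Nd) (hn : ∀ z z', cl z = cl z' → node z = node z')
    (inc : K → Z → Prop) (Φ g g' : K → Equiv.Perm Z) (hg' : Keeps (fun _ : K => cl) g') :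
    ∀ (ks : List K) (D : Finset Nd) (k : K) (p : Z),
      (∀ k z, node z ∉ D → g k z = g' k z) →
        bad node inc Φ g D k ks p = bad node inc Φ g' D k ks p := by
  intro ks
  induction ks with
  | nil => intro D k p _; rfl
  | cons k' ks ih =>
    intro D k p h
    rw [bad, bad]
    by_cases hI : ¬ inc k p
    · rw [if_pos hI, if_pos hI]
    rw [if_neg hI, if_neg hI]
    by_cases hD : node (Φ k p) ∈ D
    · rw [if_pos hD, if_pos hD]
    · rw [if_neg hD, if_neg hD]
      have h1 : g k (Φ k p) = g' k (Φ k p) := h k _ hD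
      have h2 : (g k')⁻¹ (g k (Φ k p)) = (g' k')⁻¹ (g' k (Φ k p)) := by
        rw [h1]
        apply inv_agree cl node hn hg' h
        rw [node_keeps cl node hn hg']
        exact hD
      rw [h2]
      exact ih _ _ _ (fun k z hz => h k z (fun hz' => hz (mem_insert_of_mem hz')))

/-- Averaging over the slot at the next vertex. -/
theorem average (cl : Z → C) (k k' : K) (hk : k ≠ k') (q : Z)
    (h : (K → Equiv.Perm Z) → Z → ℝ)
    (hinv : ∀ g a a1 a2, Keeps (fun _ : K => cl) g → cl a = cl q → cl a1 = cl q → cl a2 = cl q →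
      h (g * sw k' a1 a2) a = h g a) :
    ((cloud cl q).card : ℝ) *
      ∑ g ∈ keepSet (fun _ : K => cl), h g ((g k')⁻¹ (g k q)) =
      ∑ a ∈ cloud cl q, ∑ g ∈ keepSet (fun _ : K => cl), h g a := by
  classical
  set G := keepSet (fun _ : K => cl) with hG
  have hmemG : ∀ g, g ∈ G ↔ Keeps (fun _ : K => cl) g := fun g => mem_keepSet _ g
  have hcl : ∀ g ∈ G, cl ((g k')⁻¹ (g k q)) = cl q := by
    intro g hg
    have h1 := (hmemG g).1 hg
    have h2 : cl (g k' ((g k')⁻¹ (g k q))) = cl ((g k')⁻¹ (g k q)) := h1 k' _
    rw [app_inv] at h2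
    rw [← h2]
    exact h1 k q
  -- sums over the fibres
  have hfib : ∀ a ∈ cloud cl q, ∀ a' ∈ cloud cl q,
      ∑ g ∈ G with (g k')⁻¹ (g k q) = a, h g a = ∑ g ∈ G with (g k')⁻¹ (g k q) = a', h g a := by
    intro a ha a' ha'
    rw [mem_cloud] at ha ha'
    have hsw : cl a = cl a' := by rw [ha, ha']
    have hmap : ∀ b b' : Z, cl b = cl b' → ∀ g, Keeps (fun _ : K => cl) g →
        Keeps (fun _ : K => cl) (g * sw k' b b') := fun b b' hb g hg =>
      keeps_mul _ hg (keeps_sw (fun _ : K => cl) k' hb)
    have hnew : ∀ (b b' : Z) (g : K → Equiv.Perm Z), (g k')⁻¹ (g k q) = b →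
        ((g * sw k' b b') k')⁻¹ ((g * sw k' b b') k q) = b' := by
      intro b b' g hb
      rw [Pi.mul_apply, Pi.mul_apply, sw_apply_ne hk, mul_one, mul_inv_rev, Equiv.Perm.mul_apply,
        hb]
      simp [sw]
    refine sum_nbij' (fun g => g * sw k' a a') (fun g => g * sw k' a' a) ?_ ?_ ?_ ?_ ?_
    · intro g hg
      rw [mem_filter, hmemG] at hg ⊢
      exact ⟨hmap a a' hsw g hg.1, hnew a a' g hg.2⟩
    · intro g hg
      rw [mem_filter, hmemG] at hg ⊢
      exact ⟨hmap a' a hsw.symm g hg.1, hnew a' a g hg.2⟩
    · intro g _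
      have h1 : sw k' a' a = sw k' a a' := by unfold sw; rw [Equiv.swap_comm]
      rw [h1, mul_assoc, sw_mul_sw_self, mul_one]
    · intro g _
      have h1 : sw k' a' a = sw k' a a' := by unfold sw; rw [Equiv.swap_comm]
      rw [h1, mul_assoc, sw_mul_sw_self, mul_one]
    · intro g hg
      rw [mem_filter, hmemG] at hg
      exact (hinv g a a a' hg.1 ha ha ha').symm
  have hsplit : ∀ f : (K → Equiv.Perm Z) → ℝ, ∑ g ∈ G, f g =
      ∑ a' ∈ cloud cl q, ∑ g ∈ G with (g k')⁻¹ (g k q) = a', f g := by
    intro f
    rw [Finset.sum_fiberwise_of_maps_to]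
    intro g hg
    rw [mem_cloud]
    exact hcl g hg
  rw [hsplit (fun g => h g ((g k')⁻¹ (g k q))), mul_sum]
  refine sum_congr rfl (fun a ha => ?_)
  rw [hsplit (fun g => h g a), ← sum_congr rfl (fun a' ha' => hfib a ha a' ha'), sum_const,
    nsmul_eq_mul]
  congr 1
  refine sum_congr rfl (fun g hg => ?_)
  rw [(mem_filter.1 hg).2]

theorem sw_agree (cl : Z → C) (node : Z → Nd) (hn : ∀ z z', cl z = cl z' → node z = node z')
    (g : K → Equiv.Perm Z) (k' : K) (a1 a2 q : Z) (h1 : cl a1 = cl q) (h2 : cl a2 = cl q)
    (D : Finset Nd) (hD : node q ∈ D) :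
    ∀ k z, node z ∉ D → (g * sw k' a1 a2) k z = g k z := by
  intro k z hz
  rw [Pi.mul_apply, Equiv.Perm.mul_apply]
  congr 1
  by_cases hk : k = k'
  · subst hk
    rw [sw_apply_same]
    apply Equiv.swap_apply_of_ne_of_ne
    · rintro rfl
      exact hz (by rw [hn _ _ h1]; exact hD)
    · rintro rfl
      exact hz (by rw [hn _ _ h2]; exact hD)
  · rw [sw_apply_ne hk]; rfl

variable (cl : Z → C) (node : Z → Nd) (inc : K → Z → Prop) (Φ : K → Equiv.Perm Z)

/-- Averages over the slots of a cloud are given by the operators `P k` on functions of nodes. -/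
def Walks (P : K → (Nd → ℝ) → Nd → ℝ) : Prop :=
  ∀ k z, inc k z → ∀ F : Nd → ℝ,
    ∑ a ∈ cloud cl z, F (node (Φ k a)) = (cloud cl z).card * P k F (node z)

/-- At most a fraction `1/N` of the slots of a cloud leads to the same node. -/
def Spread (N : ℕ) : Prop :=
  ∀ k z, inc k z → ∀ u,
    N * ((cloud cl z).filter (fun a => node (Φ k a) = u)).card ≤ (cloud cl z).card

/-- The composition of the operators along a word, the first letter is applied last. -/
def Pw (P : K → (Nd → ℝ) → Nd → ℝ) (F : Nd → ℝ) : List K → Nd → ℝ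
  | [] => F
  | k :: ks => P k (Pw P F ks)

variable {cl node inc Φ}

theorem Pw_nonneg (P : K → (Nd → ℝ) → Nd → ℝ)
    (hP : ∀ k, ∀ F : Nd → ℝ, (∀ u, 0 ≤ F u) → ∀ u, 0 ≤ P k F u)
    (F : Nd → ℝ) (hF : ∀ u, 0 ≤ F u) (ks : List K) : ∀ u, 0 ≤ Pw P F ks u := by
  induction ks with
  | nil => exact hF
  | cons k ks ih => exact hP k _ ih

theorem sum_val (hn : ∀ z z', cl z = cl z' → node z = node z')
    (hi : ∀ k z z', cl z = cl z' → inc k z → inc k z') (P : K → (Nd → ℝ) → Nd → ℝ)
    (hP : ∀ k, ∀ F : Nd → ℝ, (∀ u, 0 ≤ F u) → ∀ u, 0 ≤ P k F u) (hW : Walks cl node inc Φ P)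
    (F : Nd → ℝ) (hF : ∀ u, 0 ≤ F u) :
    ∀ (ks : List K) (D : Finset Nd) (k : K) (p : Z), Red (k :: ks) →
      ∑ g ∈ keepSet (fun _ : K => cl), val node inc F Φ g D k ks p ≤
        (keepSet (fun _ : K => cl)).card * Pw P F ks (node (Φ k p)) := by
  intro ks
  induction ks with
  | nil =>
    intro D k p _
    simp only [val, sum_const, nsmul_eq_mul, Pw]
    refine mul_le_mul_of_nonneg_left ?_ (Nat.cast_nonneg _)
    split_ifs
    · exact le_refl _
    · exact hF _
  | cons k' ks ih =>
    intro D k p hred
    have hpos : 0 ≤ ((keepSet (fun _ : K => cl)).card : ℝ) * Pw P F (k' :: ks) (node (Φ k p)) :=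
      mul_nonneg (Nat.cast_nonneg _) (Pw_nonneg P hP F hF _ _)
    simp only [val]
    by_cases hD : ¬ inc k p ∨ node (Φ k p) ∈ D
    · simp only [if_pos hD, sum_const_zero]
      exact hpos
    · simp only [if_neg hD]
      have hc : (0 : ℝ) < (cloud cl (Φ k p)).card := by exact_mod_cast cloud_pos cl (Φ k p)
      have h1 := average cl k k' hred.1 (Φ k p)
        (fun g a => val node inc F Φ g (insert (node (Φ k p)) D) k' ks a)
        (fun g a a1 a2 hg ha ha1 ha2 => val_congr cl node hn inc F Φ _ _ hg ks _ k' a
          (sw_agree cl node hn g k' a1 a2 (Φ k p) ha1 ha2 _ (mem_insert_self _ _)))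
      simp only at h1
      by_cases hI : inc k' (Φ k p)
      · have h2 : ∑ a ∈ cloud cl (Φ k p), ∑ g ∈ keepSet (fun _ : K => cl),
            val node inc F Φ g (insert (node (Φ k p)) D) k' ks a ≤
            ∑ a ∈ cloud cl (Φ k p), ((keepSet (fun _ : K => cl)).card : ℝ) *
              Pw P F ks (node (Φ k' a)) :=
          sum_le_sum (fun a _ => ih _ k' a hred.2)
        rw [← mul_sum, hW k' (Φ k p) hI (Pw P F ks), ← h1] at h2
        have h3 : ((cloud cl (Φ k p)).card : ℝ) * ∑ g ∈ keepSet (fun _ : K => cl),
            val node inc F Φ g (insert (node (Φ k p)) D) k' ks ((g k')⁻¹ (g k (Φ k p))) ≤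
            ((cloud cl (Φ k p)).card : ℝ) * ((keepSet (fun _ : K => cl)).card *
              P k' (Pw P F ks) (node (Φ k p))) := by
          refine h2.trans (le_of_eq (by ring))
        exact le_of_mul_le_mul_left h3 hc
      · have h2 : ∑ a ∈ cloud cl (Φ k p), ∑ g ∈ keepSet (fun _ : K => cl),
            val node inc F Φ g (insert (node (Φ k p)) D) k' ks a = 0 := by
          refine sum_eq_zero (fun a ha => sum_eq_zero (fun g _ => ?_))
          have hna : ¬ inc k' a := fun h => hI (hi k' a _ ((mem_cloud _ _ _).1 ha) h)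
          cases ks with
          | nil => rw [val, if_neg hna]
          | cons k'' ks => rw [val, if_pos (Or.inl hna)]
        rw [← h1] at h2
        rcases mul_eq_zero.1 h2 with h | h
        · exact absurd h hc.ne'
        · rw [h]; exact hpos

theorem sum_bad (hn : ∀ z z', cl z = cl z' → node z = node z')
    (hi : ∀ k z z', cl z = cl z' → inc k z → inc k z') (N : ℕ) (hN : 0 < N)
    (hS : Spread cl node inc Φ N) (m : ℕ) :
    ∀ (ks : List K) (D : Finset Nd) (k : K) (p : Z), Red (k :: ks) → D.card + ks.length ≤ m →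
      ∑ g ∈ keepSet (fun _ : K => cl), bad node inc Φ g D k ks p ≤
        (keepSet (fun _ : K => cl)).card *
          ((if node (Φ k p) ∈ D then 1 else 0) + ks.length * (m / N : ℝ)) := by
  intro ks
  have hN' : (0 : ℝ) < N := by exact_mod_cast hN
  induction ks with
  | nil =>
    intro D k p _ _
    simp only [bad, sum_const_zero, List.length_nil, Nat.cast_zero, zero_mul, add_zero]
    split_ifs <;> simp
  | cons k' ks ih =>
    intro D k p hred hm
    have hlen0 : (0 : ℝ) ≤ ((k' :: ks).length : ℝ) * (m / N : ℝ) := by positivity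
    simp only [bad]
    by_cases hI0 : ¬ inc k p
    · simp only [if_pos hI0, sum_const_zero]
      refine mul_nonneg (Nat.cast_nonneg _) (add_nonneg ?_ hlen0)
      split_ifs <;> norm_num
    simp only [if_neg hI0]
    by_cases hD : node (Φ k p) ∈ D
    · simp only [if_pos hD, sum_const, nsmul_eq_mul]
      exact mul_le_mul_of_nonneg_left (by linarith) (Nat.cast_nonneg _)
    · simp only [if_neg hD, zero_add]
      have hc : (0 : ℝ) < (cloud cl (Φ k p)).card := by exact_mod_cast cloud_pos cl (Φ k p)
      have h1 := average cl k k' hred.1 (Φ k p)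
        (fun g a => bad node inc Φ g (insert (node (Φ k p)) D) k' ks a)
        (fun g a a1 a2 hg ha ha1 ha2 => bad_congr cl node hn inc Φ _ _ hg ks _ k' a
          (sw_agree cl node hn g k' a1 a2 (Φ k p) ha1 ha2 _ (mem_insert_self _ _)))
      simp only at h1
      have hcard : (insert (node (Φ k p)) D).card + ks.length ≤ m := by
        have := card_insert_le (node (Φ k p)) D
        rw [List.length_cons] at hm
        omega
      generalize hD' : insert (node (Φ k p)) D = D' at h1 hcard ⊢
      have hD'm : D'.card ≤ m := by omega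
      set G : ℝ := ((keepSet (fun _ : K => cl)).card : ℝ) with hG
      by_cases hI : inc k' (Φ k p)
      · have h2 : ∑ a ∈ cloud cl (Φ k p), ∑ g ∈ keepSet (fun _ : K => cl),
            bad node inc Φ g D' k' ks a ≤
            ∑ a ∈ cloud cl (Φ k p), G *
              ((if node (Φ k' a) ∈ D' then 1 else 0) + ks.length * (m / N : ℝ)) :=
          sum_le_sum (fun a _ => ih _ k' a hred.2 hcard)
        have h3 : ∑ a ∈ cloud cl (Φ k p), (if node (Φ k' a) ∈ D' then (1 : ℝ) else 0) ≤
            (cloud cl (Φ k p)).card * (m / N : ℝ) := by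
          rw [← sum_filter, sum_const, nsmul_eq_mul, mul_one]
          have h4 : ((cloud cl (Φ k p)).filter (fun a => node (Φ k' a) ∈ D')).card ≤
              ∑ u ∈ D', ((cloud cl (Φ k p)).filter (fun a => node (Φ k' a) = u)).card := by
            rw [Finset.card_eq_sum_card_fiberwise (f := fun a => node (Φ k' a)) (t := D')
              (fun a ha => by simpa using (mem_filter.1 ha).2)]
            refine sum_le_sum (fun u _ => card_le_card ?_)
            intro a ha
            simp only [mem_filter] at ha ⊢
            exact ⟨ha.1.1, ha.2⟩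
          have h5 : (N : ℝ) * ((cloud cl (Φ k p)).filter (fun a => node (Φ k' a) ∈ D')).card ≤
              (m : ℝ) * (cloud cl (Φ k p)).card := by
            calc (N : ℝ) * ((cloud cl (Φ k p)).filter (fun a => node (Φ k' a) ∈ D')).card
                ≤ N * ((∑ u ∈ D',
                    ((cloud cl (Φ k p)).filter (fun a => node (Φ k' a) = u)).card : ℕ) : ℝ) := by
                  refine mul_le_mul_of_nonneg_left ?_ hN'.le
                  exact_mod_cast h4
              _ = ∑ u ∈ D',
                  (N : ℝ) * ((cloud cl (Φ k p)).filter (fun a => node (Φ k' a) = u)).card := by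
                  push_cast
                  rw [mul_sum]
              _ ≤ ∑ u ∈ D', ((cloud cl (Φ k p)).card : ℝ) := by
                  refine sum_le_sum (fun u _ => ?_)
                  exact_mod_cast hS k' (Φ k p) hI u
              _ = D'.card * (cloud cl (Φ k p)).card := by rw [sum_const, nsmul_eq_mul]
              _ ≤ m * (cloud cl (Φ k p)).card := by
                  refine mul_le_mul_of_nonneg_right ?_ hc.le
                  exact_mod_cast hD'm
          rw [mul_div_assoc', le_div_iff₀ hN']
          linarith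
        have h6 : ((cloud cl (Φ k p)).card : ℝ) * ∑ g ∈ keepSet (fun _ : K => cl),
            bad node inc Φ g D' k' ks ((g k')⁻¹ (g k (Φ k p))) ≤
            ((cloud cl (Φ k p)).card : ℝ) * (G * ((k' :: ks).length * (m / N : ℝ))) := by
          rw [h1]
          refine h2.trans ?_
          rw [← mul_sum, sum_add_distrib, sum_const, nsmul_eq_mul]
          calc G * (∑ a ∈ cloud cl (Φ k p), (if node (Φ k' a) ∈ D' then (1 : ℝ) else 0) +
                (cloud cl (Φ k p)).card * (ks.length * (m / N : ℝ)))
              ≤ G * ((cloud cl (Φ k p)).card * (m / N : ℝ) +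
                (cloud cl (Φ k p)).card * (ks.length * (m / N : ℝ))) := by
                refine mul_le_mul_of_nonneg_left ?_ (Nat.cast_nonneg _)
                linarith
            _ = _ := by
                rw [List.length_cons]
                push_cast
                ring
        exact le_of_mul_le_mul_left h6 hc
      · have h2 : ∑ a ∈ cloud cl (Φ k p), ∑ g ∈ keepSet (fun _ : K => cl),
            bad node inc Φ g D' k' ks a = 0 := by
          refine sum_eq_zero (fun a ha => sum_eq_zero (fun g _ => ?_))
          have hna : ¬ inc k' a := fun h => hI (hi k' a _ ((mem_cloud _ _ _).1 ha) h)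
          cases ks with
          | nil => rw [bad]
          | cons k'' ks => rw [bad, if_pos hna]
        rw [← h1] at h2
        rcases mul_eq_zero.1 h2 with h | h
        · exact absurd h hc.ne'
        · rw [h]; positivity

open Classical in
/-- The end of the walk is controlled by `val` and `bad`. -/
theorem walk_le (hn : ∀ z z', cl z = cl z' → node z = node z')
    (hi : ∀ k z z', cl z = cl z' → inc k z → inc k z')
    (F : Nd → ℝ) (hF1 : ∀ u, F u ≤ 1) (g : K → Equiv.Perm Z)
    (hg : Keeps (fun _ : K => cl) g) :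
    ∀ (ks : List K) (D : Finset Nd) (k : K) (p : Z),
      (if valid (fun k z => mate Φ g k z) inc (k :: ks) (g k p) then
        F (node (walk (fun k z => mate Φ g k z) (k :: ks) (g k p))) else 0) ≤
        val node inc F Φ g D k ks p + bad node inc Φ g D k ks p := by
  intro ks
  have hgi : ∀ k z, inc k (g k z) ↔ inc k z := fun k z =>
    ⟨fun h => hi k _ _ (hg k z) h, fun h => hi k _ _ (hg k z).symm h⟩
  induction ks with
  | nil =>
    intro D k p
    simp only [walk, val, bad, add_zero, mate_apply, inv_app, valid, and_true, hgi]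
    by_cases h : inc k p
    · rw [if_pos h, if_pos h, node_keeps cl node hn hg]
    · rw [if_neg h, if_neg h]
  | cons k' ks ih =>
    intro D k p
    by_cases hI : inc k p
    · by_cases hD : node (Φ k p) ∈ D
      · have hv : val node inc F Φ g D k (k' :: ks) p = 0 := by
          rw [val, if_pos (Or.inr hD)]
        have hb : bad node inc Φ g D k (k' :: ks) p = 1 := by
          rw [bad, if_neg (not_not.2 hI), if_pos hD]
        rw [hv, hb, zero_add]
        split_ifs
        · exact hF1 _
        · exact zero_le_one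
      · have hv : val node inc F Φ g D k (k' :: ks) p =
            val node inc F Φ g (insert (node (Φ k p)) D) k' ks ((g k')⁻¹ (g k (Φ k p))) := by
          rw [val, if_neg (by rw [not_or, not_not]; exact ⟨hI, hD⟩)]
        have hb : bad node inc Φ g D k (k' :: ks) p =
            bad node inc Φ g (insert (node (Φ k p)) D) k' ks ((g k')⁻¹ (g k (Φ k p))) := by
          rw [bad, if_neg (not_not.2 hI), if_neg hD]
        rw [hv, hb]
        have h1 := ih (insert (node (Φ k p)) D) k' ((g k')⁻¹ (g k (Φ k p)))
        rw [app_inv] at h1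
        refine le_trans (le_of_eq ?_) h1
        have h2 : mate Φ g k (g k p) = g k (Φ k p) := by rw [mate_apply, inv_app]
        have h3 : inc k (g k p) := (hgi k p).2 hI
        simp only [walk, valid, h2, h3, true_and]
        all_goals congr
    · have hv : val node inc F Φ g D k (k' :: ks) p = 0 := by
        rw [val, if_pos (Or.inl hI)]
      have hb : bad node inc Φ g D k (k' :: ks) p = 0 := by
        rw [bad, if_pos hI]
      rw [hv, hb, add_zero, if_neg]
      intro h
      exact hI ((hgi k p).1 h.1)

open Classical in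
/-- The number of copies over `S` whose walk along the word ends over `S'`. -/
noncomputable def count (node : Z → Nd) (inc : K → Z → Prop) (Φ : K → Equiv.Perm Z) (w : List K)
    (S S' : Finset Nd) (g : K → Equiv.Perm Z) : ℝ :=
  ((univ.filter (fun z => node z ∈ S ∧ valid (fun k z => mate Φ g k z) inc w z ∧
    node (walk (fun k z => mate Φ g k z) w z) ∈ S')).card : ℝ)

theorem sum_cloud (hn : ∀ z z', cl z = cl z' → node z = node z')
    (hi : ∀ k z z', cl z = cl z' → inc k z → inc k z') (P : K → (Nd → ℝ) → Nd → ℝ)
    (hW : Walks cl node inc Φ P) (k : K) (A F : Nd → ℝ) [DecidablePred (inc k)] :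
    ∑ z, A (node z) * (if inc k z then F (node (Φ k z)) else 0) =
      ∑ z, A (node z) * (if inc k z then P k F (node z) else 0) := by
  classical
  rw [← Finset.sum_fiberwise_of_maps_to (s := (univ : Finset Z)) (t := univ.image cl) (g := cl)
    (fun z _ => mem_image_of_mem _ (mem_univ z))
      (fun z => A (node z) * (if inc k z then F (node (Φ k z)) else 0)),
    ← Finset.sum_fiberwise_of_maps_to (s := (univ : Finset Z)) (t := univ.image cl) (g := cl)
    (fun z _ => mem_image_of_mem _ (mem_univ z))
      (fun z => A (node z) * (if inc k z then P k F (node z) else 0))]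
  refine sum_congr rfl (fun c hc => ?_)
  obtain ⟨z0, _, rfl⟩ := mem_image.1 hc
  have h1 : ∀ z ∈ univ.filter (fun z => cl z = cl z0), node z = node z0 :=
    fun z hz => hn _ _ (mem_filter.1 hz).2
  by_cases hI : inc k z0
  · have h3 : ∀ z ∈ univ.filter (fun z => cl z = cl z0), inc k z :=
      fun z hz => hi k _ _ (mem_filter.1 hz).2.symm hI
    rw [sum_congr rfl (fun z hz => by rw [h1 z hz, if_pos (h3 z hz)]), ← mul_sum]
    have h2 := hW k z0 hI F
    unfold cloud at h2
    rw [h2]
    rw [sum_congr rfl (fun z hz => by rw [h1 z hz, if_pos (h3 z hz)]), sum_const, nsmul_eq_mul]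
    ring
  · have h3 : ∀ z ∈ univ.filter (fun z => cl z = cl z0), ¬ inc k z :=
      fun z hz h => hI (hi k _ _ (mem_filter.1 hz).2 h)
    refine sum_congr rfl (fun z hz => ?_)
    rw [if_neg (h3 z hz), if_neg (h3 z hz)]

open Classical in
theorem expect_count (hn : ∀ z z', cl z = cl z' → node z = node z')
    (hi : ∀ k z z', cl z = cl z' → inc k z → inc k z') (P : K → (Nd → ℝ) → Nd → ℝ)
    (hP : ∀ k, ∀ F : Nd → ℝ, (∀ u, 0 ≤ F u) → ∀ u, 0 ≤ P k F u) (hW : Walks cl node inc Φ P)
    (N : ℕ) (hN : 0 < N) (hS : Spread cl node inc Φ N) (k : K) (ks : List K)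
    (hred : Red (k :: ks)) (S S' : Finset Nd) :
    ∑ g ∈ keepSet (fun _ : K => cl), count node inc Φ (k :: ks) S S' g ≤
      (keepSet (fun _ : K => cl)).card *
        ((∑ z, (if node z ∈ S ∧ inc k z then
          Pw P (fun u => if u ∈ S' then 1 else 0) (k :: ks) (node z) else 0)) +
          Fintype.card Z * (((k :: ks).length : ℝ) ^ 2 / N)) := by
  set A : Nd → ℝ := fun u => if u ∈ S then 1 else 0 with hA
  set F : Nd → ℝ := fun u => if u ∈ S' then 1 else 0 with hF
  have hA0 : ∀ u, 0 ≤ A u := fun u => by simp only [hA]; split_ifs <;> norm_num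
  have hA1 : ∀ u, A u ≤ 1 := fun u => by simp only [hA]; split_ifs <;> norm_num
  have hF0 : ∀ u, 0 ≤ F u := fun u => by simp only [hF]; split_ifs <;> norm_num
  have hF1 : ∀ u, F u ≤ 1 := fun u => by simp only [hF]; split_ifs <;> norm_num
  set G : ℝ := ((keepSet (fun _ : K => cl)).card : ℝ) with hG
  have hG0 : 0 ≤ G := Nat.cast_nonneg _
  have hbad0 : ∀ p, ¬ inc k p → ∀ g, val node inc F Φ g ∅ k ks p = 0 ∧
      bad node inc Φ g ∅ k ks p = 0 := by
    intro p hp g
    cases ks with
    | nil => rw [val, bad, if_neg hp]; exact ⟨rfl, rfl⟩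
    | cons k' ks => rw [val, bad, if_pos (Or.inl hp), if_pos hp]; exact ⟨rfl, rfl⟩
  have h1 : ∀ g ∈ keepSet (fun _ : K => cl), count node inc Φ (k :: ks) S S' g ≤
      ∑ p, A (node p) * (val node inc F Φ g ∅ k ks p + bad node inc Φ g ∅ k ks p) := by
    intro g hg
    rw [mem_keepSet] at hg
    have h2 : count node inc Φ (k :: ks) S S' g =
        ∑ z, A (node z) * (if valid (fun k z => mate Φ g k z) inc (k :: ks) z then
          F (node (walk (fun k z => mate Φ g k z) (k :: ks) z)) else 0) := by
      unfold count
      rw [Finset.natCast_card_filter]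
      refine sum_congr rfl (fun z _ => ?_)
      simp only [hA, hF]
      by_cases h3 : node z ∈ S <;>
        by_cases h4 : node (walk (fun k z => mate Φ g k z) (k :: ks) z) ∈ S' <;>
        by_cases h5 : valid (fun k z => mate Φ g k z) inc (k :: ks) z <;> simp [h3, h4, h5]
    rw [h2, ← Equiv.sum_comp (g k)]
    refine sum_le_sum (fun p _ => ?_)
    rw [node_keeps cl node hn hg]
    exact mul_le_mul_of_nonneg_left (walk_le hn hi F hF1 g hg ks ∅ k p) (hA0 _)
  calc ∑ g ∈ keepSet (fun _ : K => cl), count node inc Φ (k :: ks) S S' g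
      ≤ ∑ g ∈ keepSet (fun _ : K => cl),
          ∑ p, A (node p) * (val node inc F Φ g ∅ k ks p + bad node inc Φ g ∅ k ks p) :=
        sum_le_sum h1
    _ = ∑ p, A (node p) * (∑ g ∈ keepSet (fun _ : K => cl), val node inc F Φ g ∅ k ks p +
          ∑ g ∈ keepSet (fun _ : K => cl), bad node inc Φ g ∅ k ks p) := by
        rw [sum_comm]
        refine sum_congr rfl (fun p _ => ?_)
        rw [← mul_sum, sum_add_distrib]
    _ ≤ ∑ p, (G * (A (node p) * (if inc k p then Pw P F ks (node (Φ k p)) else 0)) +
          G * (ks.length * ((ks.length : ℝ) / N))) := by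
        refine sum_le_sum (fun p _ => ?_)
        have hE : (0 : ℝ) ≤ G * (ks.length * ((ks.length : ℝ) / N)) := by positivity
        by_cases hI : inc k p
        · rw [if_pos hI, mul_add]
          refine add_le_add ?_ ?_
          · calc A (node p) * ∑ g ∈ keepSet (fun _ : K => cl), val node inc F Φ g ∅ k ks p
                ≤ A (node p) * (G * Pw P F ks (node (Φ k p))) :=
                  mul_le_mul_of_nonneg_left (sum_val hn hi P hP hW F hF0 ks ∅ k p hred) (hA0 _)
              _ = _ := by ring
          · have h5 := sum_bad hn hi N hN hS ks.length ks ∅ k p hred (by simp)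
            have h6 : ∑ g ∈ keepSet (fun _ : K => cl), bad node inc Φ g ∅ k ks p ≤
                G * (ks.length * ((ks.length : ℝ) / N)) := by simpa using h5
            calc A (node p) * ∑ g ∈ keepSet (fun _ : K => cl), bad node inc Φ g ∅ k ks p
                ≤ A (node p) * (G * (ks.length * ((ks.length : ℝ) / N))) :=
                  mul_le_mul_of_nonneg_left h6 (hA0 _)
              _ ≤ 1 * (G * (ks.length * ((ks.length : ℝ) / N))) :=
                  mul_le_mul_of_nonneg_right (hA1 _) hE
              _ = _ := one_mul _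
        · rw [if_neg hI, sum_congr rfl (fun g _ => (hbad0 p hI g).1),
            sum_congr rfl (fun g _ => (hbad0 p hI g).2)]
          simp only [sum_const_zero, mul_zero, add_zero, zero_add]
          exact hE
    _ = G * (∑ p, A (node p) * (if inc k p then Pw P F ks (node (Φ k p)) else 0)) +
          Fintype.card Z * (G * (ks.length * ((ks.length : ℝ) / N))) := by
        rw [sum_add_distrib, ← mul_sum, sum_const, nsmul_eq_mul, card_univ]
    _ ≤ _ := by
        rw [sum_cloud hn hi P hW k A (Pw P F ks), mul_add]
        refine add_le_add (le_of_eq ?_) ?_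
        · congr 1
          refine sum_congr rfl (fun z _ => ?_)
          simp only [hA, Pw]
          by_cases h3 : node z ∈ S <;> by_cases h4 : inc k z <;> simp [h3, h4]
        · have hN' : (0 : ℝ) < N := by exact_mod_cast hN
          have h7 : (ks.length : ℝ) * ((ks.length : ℝ) / N) ≤
              (((k :: ks).length : ℕ) : ℝ) ^ 2 / N := by
            rw [← mul_div_assoc, List.length_cons]
            apply div_le_div_of_nonneg_right _ hN'.le
            push_cast
            nlinarith [(Nat.cast_nonneg ks.length : (0 : ℝ) ≤ ks.length)]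
          calc Fintype.card Z * (G * (ks.length * ((ks.length : ℝ) / N)))
              ≤ Fintype.card Z * (G * ((((k :: ks).length : ℕ) : ℝ) ^ 2 / N)) := by
                gcongr
            _ = _ := by ring

theorem mate_sw (Φ g : K → Equiv.Perm Z) (k k' : K) (x y z : Z)
    (h : mate Φ (sw k' x y * g) k z ≠ mate Φ g k z) :
    z = x ∨ z = y ∨ mate Φ g k z = x ∨ mate Φ g k z = y := by
  by_contra hcon
  push Not at hcon
  obtain ⟨h1, h2, h3, h4⟩ := hcon
  apply h
  by_cases hk : k = k'
  · subst hk
    rw [mate_apply, mate_apply, Pi.mul_apply, mul_inv_rev, Equiv.Perm.mul_apply,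
      Equiv.Perm.mul_apply]
    have h5 : (sw k x y k)⁻¹ z = z := by
      rw [Equiv.Perm.inv_eq_iff_eq, sw_apply_same]
      exact (Equiv.swap_apply_of_ne_of_ne h1 h2).symm
    rw [h5, sw_apply_same]
    exact Equiv.swap_apply_of_ne_of_ne h3 h4
  · rw [mate_apply, mate_apply, Pi.mul_apply, sw_apply_ne hk, one_mul]

open Classical in
theorem card_walk_ne (inc : K → Z → Prop) (Φ g : K → Equiv.Perm Z) (k' : K) (x y : Z)
    (w : List K) :
    (univ.filter (fun z => ¬ (walk (fun k z => mate Φ (sw k' x y * g) k z) w z =
      walk (fun k z => mate Φ g k z) w z ∧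
      (valid (fun k z => mate Φ (sw k' x y * g) k z) inc w z ↔
        valid (fun k z => mate Φ g k z) inc w z)))).card ≤ 4 * w.length := by
  induction w with
  | nil => simp [walk, valid]
  | cons k ks ih =>
    have h1 : (univ.filter (fun z => ¬ (walk (fun k z => mate Φ (sw k' x y * g) k z) (k :: ks) z =
        walk (fun k z => mate Φ g k z) (k :: ks) z ∧
        (valid (fun k z => mate Φ (sw k' x y * g) k z) inc (k :: ks) z ↔
        valid (fun k z => mate Φ g k z) inc (k :: ks) z)))) ⊆
        ({x, y, (mate Φ g k)⁻¹ x, (mate Φ g k)⁻¹ y} : Finset Z) ∪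
        (univ.filter (fun z => ¬ (walk (fun k z => mate Φ (sw k' x y * g) k z) ks z =
          walk (fun k z => mate Φ g k z) ks z ∧
          (valid (fun k z => mate Φ (sw k' x y * g) k z) inc ks z ↔
        valid (fun k z => mate Φ g k z) inc ks z)))).image (fun z => (mate Φ g k)⁻¹ z) := by
      intro z hz
      rw [mem_filter] at hz
      simp only [mem_union, mem_insert, mem_singleton, mem_image, mem_filter, mem_univ, true_and]
      by_cases h2 : mate Φ (sw k' x y * g) k z = mate Φ g k z
      · right
        refine ⟨mate Φ g k z, ?_, inv_app _ _⟩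
        have h3 := hz.2
        simp only [walk, valid] at h3
        rw [h2] at h3
        intro h4
        exact h3 ⟨h4.1, by rw [h4.2]⟩
      · left
        rcases mate_sw Φ g k k' x y z h2 with h | h | h | h
        · exact Or.inl h
        · exact Or.inr (Or.inl h)
        · right; right; left
          rw [← h]; exact (inv_app _ _).symm
        · right; right; right
          rw [← h]; exact (inv_app _ _).symm
    refine (card_le_card h1).trans ((card_union_le _ _).trans ?_)
    have h2 : (({x, y, (mate Φ g k)⁻¹ x, (mate Φ g k)⁻¹ y} : Finset Z)).card ≤ 4 :=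
      Finset.card_le_four
    have h3 := (card_image_le (s := univ.filter (fun z =>
      ¬ (walk (fun k z => mate Φ (sw k' x y * g) k z) ks z =
          walk (fun k z => mate Φ g k z) ks z ∧
          (valid (fun k z => mate Φ (sw k' x y * g) k z) inc ks z ↔
        valid (fun k z => mate Φ g k z) inc ks z)))) (f := fun z => (mate Φ g k)⁻¹ z)).trans ih
    rw [List.length_cons]
    omega

theorem count_lip (w : List K) (S S' : Finset Nd) :
    SwapLip (fun _ : K => cl) (count node inc Φ w S S') (4 * w.length) := by
  classical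
  intro g _ k x y _
  set a := univ.filter (fun z => node z ∈ S ∧ valid (fun k z => mate Φ g k z) inc w z ∧
    node (walk (fun k z => mate Φ g k z) w z) ∈ S') with ha
  set b := univ.filter (fun z => node z ∈ S ∧
    valid (fun k' z => mate Φ (sw k x y * g) k' z) inc w z ∧
    node (walk (fun k' z => mate Φ (sw k x y * g) k' z) w z) ∈ S') with hb
  set c := univ.filter (fun z => ¬ (walk (fun k' z => mate Φ (sw k x y * g) k' z) w z =
      walk (fun k z => mate Φ g k z) w z ∧
      (valid (fun k' z => mate Φ (sw k x y * g) k' z) inc w z ↔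
        valid (fun k z => mate Φ g k z) inc w z))) with hc
  have h1 : a ⊆ b ∪ c := by
    intro z hz
    rw [ha, mem_filter] at hz
    rw [mem_union, hb, hc, mem_filter, mem_filter]
    by_cases h : (walk (fun k' z => mate Φ (sw k x y * g) k' z) w z =
        walk (fun k z => mate Φ g k z) w z ∧
        (valid (fun k' z => mate Φ (sw k x y * g) k' z) inc w z ↔
        valid (fun k z => mate Φ g k z) inc w z))
    · left
      rw [h.1, h.2]
      exact hz
    · right
      exact ⟨mem_univ _, h⟩
  have h2 : b ⊆ a ∪ c := by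
    intro z hz
    rw [hb, mem_filter] at hz
    rw [mem_union, ha, hc, mem_filter, mem_filter]
    by_cases h : (walk (fun k' z => mate Φ (sw k x y * g) k' z) w z =
        walk (fun k z => mate Φ g k z) w z ∧
        (valid (fun k' z => mate Φ (sw k x y * g) k' z) inc w z ↔
        valid (fun k z => mate Φ g k z) inc w z))
    · left
      rw [← h.1, ← h.2]
      exact hz
    · right
      exact ⟨mem_univ _, h⟩
  have h3 : c.card ≤ 4 * w.length := card_walk_ne inc Φ g k x y w
  have h4 : a.card ≤ b.card + 4 * w.length :=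
    (card_le_card h1).trans ((card_union_le _ _).trans (by omega))
  have h5 : b.card ≤ a.card + 4 * w.length :=
    (card_le_card h2).trans ((card_union_le _ _).trans (by omega))
  have h4' : (a.card : ℝ) ≤ b.card + 4 * w.length := by exact_mod_cast h4
  have h5' : (b.card : ℝ) ≤ a.card + 4 * w.length := by exact_mod_cast h5
  show |(b.card : ℝ) - a.card| ≤ 4 * w.length
  rw [abs_le]
  constructor <;> linarith

open Classical in
/-- **Law of large numbers** for the walks along one reduced word (first letter first): outside an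
exponentially small fraction of the routings, the number of copies over `S` whose walk ends over
`S'` is at most the number given by the walk of the nodes, with a small error. -/
theorem word_lln' (hn : ∀ z z', cl z = cl z' → node z = node z')
    (hi : ∀ k z z', cl z = cl z' → inc k z → inc k z') (P : K → (Nd → ℝ) → Nd → ℝ)
    (hP : ∀ k, ∀ F : Nd → ℝ, (∀ u, 0 ≤ F u) → ∀ u, 0 ≤ P k F u) (hW : Walks cl node inc Φ P)
    (N : ℕ) (hN : 0 < N) (hS : Spread cl node inc Φ N) (k : K) (ks : List K)
    (hred : Red (k :: ks)) (S S' : Finset Nd) (s : ℝ) (hs : 0 ≤ s) :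
    (((keepSet (fun _ : K => cl)).filter (fun g =>
      (∑ z, (if node z ∈ S ∧ inc k z then
          Pw P (fun u => if u ∈ S' then 1 else 0) (k :: ks) (node z) else 0)) +
          Fintype.card Z * (((k :: ks).length : ℝ) ^ 2 / N) + s ≤
        count node inc Φ (k :: ks) S S' g)).card : ℝ) ≤
      Real.exp (-(s ^ 2 / (32 * ((k :: ks).length : ℝ) ^ 2 *
        (Fintype.card K * Fintype.card Z)))) * (keepSet (fun _ : K => cl)).card := by
  have hG : (0 : ℝ) < (keepSet (fun _ : K => cl)).card := by
    have : 0 < (keepSet (fun _ : K => cl)).card := by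
      rw [keepSet_eq]; exact GA_card_pos _ _
    exact_mod_cast this
  rcases Nat.eq_zero_or_pos (Fintype.card Z) with hZ | hZ
  · -- no copies
    rw [hZ]
    simp only [Nat.cast_zero, mul_zero, div_zero, neg_zero, Real.exp_zero, one_mul]
    exact_mod_cast card_filter_le _ _
  have hK : 0 < Fintype.card K := Fintype.card_pos_iff.2 ⟨k⟩
  have h1 := maurey (fun _ : K => cl) (count node inc Φ (k :: ks) S S')
    (4 * ((k :: ks).length : ℝ)) s (by rw [List.length_cons]; positivity) hs (Nat.mul_pos hK hZ) (count_lip _ S S')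
  have h2 := expect_count hn hi P hP hW N hN hS k ks hred S S'
  have h3 : (∑ g ∈ keepSet (fun _ : K => cl), count node inc Φ (k :: ks) S S' g) /
      (keepSet (fun _ : K => cl)).card ≤ (∑ z, (if node z ∈ S ∧ inc k z then
          Pw P (fun u => if u ∈ S' then 1 else 0) (k :: ks) (node z) else 0)) +
          Fintype.card Z * (((k :: ks).length : ℝ) ^ 2 / N) := by
    rw [div_le_iff₀ hG]
    linarith
  refine le_trans ?_ (h1.trans (le_of_eq ?_))
  · refine Nat.cast_le.2 (card_le_card ?_)
    intro g hg
    rw [mem_filter] at hg ⊢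
    exact ⟨hg.1, by linarith [hg.2]⟩
  · congr 2
    ring_nf

end word

end Pool.Agent.P325c
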