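import Mathlib
import Pool.Agent.Lib.P325c.Word

/-!
# The law of large numbers for all words and all sets of nodes

`wact M l` acts by the last letter of `l` first.
-/

set_option linter.unusedSectionVars false

open Finset

namespace Pool.Agent.P325c

open Pool.Agent.P325f1f.Dich
open Pool.Agent.CovT (words InF mem_words card_words_le)

section rev

variable {K V : Type}

theorem walk_append (M : K → V → V) (l l' : List K) (v : V) :
    walk M (l ++ l') v = walk M l' (walk M l v) := by
  induction l generalizing v with
  | nil => rfl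
  | cons k l ih => exact ih (M k v)

theorem valid_append (M : K → V → V) (inc : K → V → Prop) (l l' : List K) (v : V) :
    valid M inc (l ++ l') v ↔ valid M inc l v ∧ valid M inc l' (walk M l v) := by
  induction l generalizing v with
  | nil => simp [valid, walk]
  | cons k l ih =>
    simp only [List.cons_append, valid, walk]
    rw [ih, and_assoc]

theorem wact_eq_walk (M : K → V → V) (l : List K) (v : V) :
    wact M l v = walk M l.reverse v := by
  induction l with
  | nil => rfl
  | cons k l ih =>
    rw [List.reverse_cons, walk_append, wact, ih]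
    rfl

theorem inF_iff_valid (M : K → V → V) (F : Set (K × V)) (l : List K) (v : V) :
    InF M F l v ↔ valid M (fun k v => (k, v) ∈ F) l.reverse v := by
  induction l with
  | nil => simp [InF, valid]
  | cons k l ih =>
    rw [List.reverse_cons, valid_append, InF, ih, wact_eq_walk]
    simp [valid]

theorem red_iff (l : List K) : Red l ↔ l.IsChain (· ≠ ·) := by
  induction l with
  | nil => simp [Red]
  | cons a l ih =>
    cases l with
    | nil => simp [Red]
    | cons b l => rw [Red, ih, List.isChain_cons_cons]

theorem red_reverse (l : List K) : Red l.reverse ↔ Red l := by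
  rw [red_iff, red_iff, List.isChain_reverse]
  simp only [ne_comm]

theorem red_append_singleton (l : List K) (k : K) (h : Red (l ++ [k])) : Red (k :: l.reverse) := by
  have := (red_reverse (l ++ [k])).2 h
  rwa [List.reverse_append] at this

end rev

section all

variable {K Z C Nd : Type} [Fintype K] [DecidableEq K] [Fintype Z] [DecidableEq Z]
  [DecidableEq C] [DecidableEq Nd]

/-- The composition of the operators along a word; the last letter of the list is the first letter
of the walk. -/
def Pv (P : K → (Nd → ℝ) → Nd → ℝ) (l : List K) (F : Nd → ℝ) : Nd → ℝ := Pw P F l.reverse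

theorem Pv_nil (P : K → (Nd → ℝ) → Nd → ℝ) (F : Nd → ℝ) : Pv P [] F = F := rfl

theorem Pw_append (P : K → (Nd → ℝ) → Nd → ℝ) (F : Nd → ℝ) (l l' : List K) :
    Pw P F (l ++ l') = Pw P (Pw P F l') l := by
  induction l with
  | nil => rfl
  | cons k l ih => rw [List.cons_append, Pw, ih, Pw]

theorem Pv_cons (P : K → (Nd → ℝ) → Nd → ℝ) (k : K) (l : List K) (F : Nd → ℝ) :
    Pv P (k :: l) F = Pv P l (P k F) := by
  unfold Pv
  rw [List.reverse_cons, Pw_append]
  rfl

open Classical in
/-- The number of copies over `S` whose walk ends over `S'` and uses allowed letters only. -/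
noncomputable def cnt (node : Z → Nd) (inc : K → Z → Prop) (Φ : K → Equiv.Perm Z) (l : List K)
    (S S' : Finset Nd) (g : K → Equiv.Perm Z) : ℕ :=
  (univ.filter (fun z => node z ∈ S ∧
    InF (fun k z => mate Φ g k z) {p | inc p.1 p.2} l z ∧
    node (wact (fun k z => mate Φ g k z) l z) ∈ S')).card

theorem cnt_eq_count (node : Z → Nd) (inc : K → Z → Prop) (Φ : K → Equiv.Perm Z) (l : List K)
    (S S' : Finset Nd) (g : K → Equiv.Perm Z) :
    (cnt node inc Φ l S S' g : ℝ) = count node inc Φ l.reverse S S' g := by
  unfold cnt count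
  congr 2
  ext z
  simp only [mem_filter, mem_univ, true_and]
  rw [inF_iff_valid, wact_eq_walk]
  rfl

open Classical in
/-- The routing `g` satisfies the law of large numbers for all words of length `m` and all sets of
nodes. -/
def GoodWalks (node : Z → Nd) (inc : K → Z → Prop) (Φ : K → Equiv.Perm Z)
    (P : K → (Nd → ℝ) → Nd → ℝ) (m : ℕ) (ε : ℝ) (g : K → Equiv.Perm Z) : Prop :=
  ∀ l ∈ words K m, ∀ S ⊆ univ.image node, ∀ S' ⊆ univ.image node,
    (cnt node inc Φ l S S' g : ℝ) ≤
      (∑ z, (if node z ∈ S then Pv P l (fun u => if u ∈ S' then 1 else 0) (node z) else 0)) +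
        ε * Fintype.card Z

open Classical in
/-- **Law of large numbers** for all reduced words of length `m` and all sets of nodes. -/
theorem word_lln (cl : Z → C) (node : Z → Nd) (inc : K → Z → Prop) (Φ : K → Equiv.Perm Z)
    (hn : ∀ z z', cl z = cl z' → node z = node z')
    (hi : ∀ k z z', cl z = cl z' → inc k z → inc k z') (P : K → (Nd → ℝ) → Nd → ℝ)
    (hP : ∀ k, ∀ F : Nd → ℝ, (∀ u, 0 ≤ F u) → ∀ u, 0 ≤ P k F u) (hW : Walks cl node inc Φ P)
    (N : ℕ) (hS : Spread cl node inc Φ N) (m : ℕ) (hm : 0 < m) (ε : ℝ) (hε : 0 < ε)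
    (hN : 2 * (m : ℝ) ^ 2 ≤ ε * N) :
    (((keepSet (fun _ : K => cl)).filter
      (fun g => ¬ GoodWalks node inc Φ P m ε g)).card : ℝ) ≤
      (Fintype.card K : ℝ) ^ m * 4 ^ (univ.image node).card *
        Real.exp (-(ε ^ 2 * Fintype.card Z / (128 * (m : ℝ) ^ 2 * Fintype.card K))) *
        (keepSet (fun _ : K => cl)).card := by
  have hm' : (0 : ℝ) < m := by exact_mod_cast hm
  have hN0 : 0 < N := by
    rcases Nat.eq_zero_or_pos N with h | h
    · rw [h] at hN
      simp only [Nat.cast_zero, mul_zero] at hN
      nlinarith [sq_pos_of_pos hm']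
    · exact h
  have hN' : (0 : ℝ) < N := by exact_mod_cast hN0
  set G := keepSet (fun _ : K => cl) with hG
  set Im := (univ : Finset Z).image node with hIm
  set z0 : ℝ := (Fintype.card Z : ℝ) with hz0
  set s : ℝ := ε / 2 * z0 with hs
  have hs0 : 0 ≤ s := by positivity
  set E : ℝ := Real.exp (-(ε ^ 2 * z0 / (128 * (m : ℝ) ^ 2 * Fintype.card K))) with hE
  -- the bad events
  let B : List K × Finset Nd × Finset Nd → Finset (K → Equiv.Perm Z) := fun q =>
    G.filter (fun g => (∑ z, (if node z ∈ q.2.1 then
      Pv P q.1 (fun u => if u ∈ q.2.2 then 1 else 0) (node z) else 0)) + ε * z0 <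
        (cnt node inc Φ q.1 q.2.1 q.2.2 g : ℝ))
  have hsub : G.filter (fun g => ¬ GoodWalks node inc Φ P m ε g) ⊆
      (words K m ×ˢ Im.powerset ×ˢ Im.powerset).biUnion B := by
    intro g hg
    rw [mem_filter] at hg
    obtain ⟨hgG, hgb⟩ := hg
    unfold GoodWalks at hgb
    push Not at hgb
    obtain ⟨l, hl, S, hSI, S', hSI', hlt⟩ := hgb
    rw [mem_biUnion]
    refine ⟨(l, S, S'), ?_, ?_⟩
    · simp only [mem_product, mem_powerset]
      exact ⟨hl, hSI, hSI'⟩
    · simp only [B, mem_filter]
      exact ⟨hgG, hlt⟩
  have hB : ∀ q ∈ (words K m ×ˢ Im.powerset ×ˢ Im.powerset), ((B q).card : ℝ) ≤ E * G.card := by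
    rintro ⟨l, S, S'⟩ hq
    simp only [mem_product, mem_powerset] at hq
    obtain ⟨hlen, hred⟩ := (mem_words m l).1 hq.1
    have hred' : Red l.reverse := (red_reverse l).2 hred
    obtain ⟨k, ks, hk⟩ : ∃ k ks, l.reverse = k :: ks := by
      cases h : l.reverse with
      | nil =>
        have : l.length = 0 := by rw [← List.length_reverse, h]; rfl
        omega
      | cons k ks => exact ⟨k, ks, rfl⟩
    have hlen' : (k :: ks).length = m := by rw [← hk, List.length_reverse, hlen]
    rw [hk] at hred'
    have h1 := word_lln' hn hi P hP hW N hN0 hS k ks hred' S S' s hs0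
    rw [← hG] at h1
    have h2 : Real.exp (-(s ^ 2 / (32 * ((k :: ks).length : ℝ) ^ 2 *
        (Fintype.card K * Fintype.card Z)))) ≤ E ∨ (Fintype.card Z = 0) := by
      rcases Nat.eq_zero_or_pos (Fintype.card Z) with h | h
      · exact Or.inr h
      · left
        have hz : (0 : ℝ) < z0 := by rw [hz0]; exact_mod_cast h
        have hK : (0 : ℝ) < Fintype.card K := by
          exact_mod_cast Fintype.card_pos_iff.2 ⟨k⟩
        rw [hE]
        apply Real.exp_le_exp.2
        rw [hlen', ← hz0]
        apply neg_le_neg
        rw [hs]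
        have : ε ^ 2 * z0 / (128 * (m : ℝ) ^ 2 * Fintype.card K) =
            (ε / 2 * z0) ^ 2 / (32 * (m : ℝ) ^ 2 * (Fintype.card K * z0)) := by
          field_simp
          ring
        rw [this]
    rcases h2 with h2 | h2
    · refine le_trans ?_ (h1.trans (mul_le_mul_of_nonneg_right h2 (Nat.cast_nonneg _)))
      refine Nat.cast_le.2 (card_le_card ?_)
      intro g hg
      simp only [B, mem_filter] at hg ⊢
      refine ⟨hg.1, ?_⟩
      have h3 := hg.2
      rw [cnt_eq_count, hk] at h3
      refine le_trans ?_ h3.le
      have h4 : (∑ z, (if node z ∈ S ∧ inc k z then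
          Pw P (fun u => if u ∈ S' then 1 else 0) (k :: ks) (node z) else 0)) ≤
          ∑ z, (if node z ∈ S then
            Pv P l (fun u => if u ∈ S' then 1 else 0) (node z) else 0) := by
        refine sum_le_sum (fun z _ => ?_)
        have h5 : Pv P l (fun u => if u ∈ S' then (1 : ℝ) else 0) =
            Pw P (fun u => if u ∈ S' then 1 else 0) (k :: ks) := by
          unfold Pv; rw [hk]
        rw [h5]
        have h6 : 0 ≤ Pw P (fun u => if u ∈ S' then (1 : ℝ) else 0) (k :: ks) (node z) :=
          Pw_nonneg P hP _ (fun u => by split_ifs <;> norm_num) _ _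
        by_cases h7 : node z ∈ S
        · rw [if_pos h7]
          split_ifs
          · exact le_refl _
          · exact h6
        · rw [if_neg (fun h => h7 h.1), if_neg h7]
      have h8 : z0 * (((k :: ks).length : ℝ) ^ 2 / N) ≤ ε / 2 * z0 := by
        rw [hlen', mul_comm (ε / 2) z0]
        apply mul_le_mul_of_nonneg_left _ (Nat.cast_nonneg _)
        rw [div_le_iff₀ hN']
        linarith
      rw [← hz0]
      have h9 : s = ε / 2 * z0 := hs
      linarith
    · -- no copies: the event is empty
      have h3 : (B (l, S, S')) = ∅ := by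
        rw [Finset.eq_empty_iff_forall_notMem]
        intro g hg
        simp only [B, mem_filter] at hg
        have hempty : IsEmpty Z := Fintype.card_eq_zero_iff.1 h2
        have h4 := hg.2
        have h5 : cnt node inc Φ l S S' g = 0 := by
          unfold cnt
          rw [Finset.card_eq_zero, Finset.eq_empty_iff_forall_notMem]
          intro z
          exact hempty.elim z
        rw [h5, hz0, h2] at h4
        simp at h4
      rw [h3]
      simp only [card_empty, Nat.cast_zero]
      positivity
  calc (((G.filter (fun g => ¬ GoodWalks node inc Φ P m ε g))).card : ℝ)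
      ≤ (((words K m ×ˢ Im.powerset ×ˢ Im.powerset).biUnion B).card : ℝ) := by
        exact_mod_cast card_le_card hsub
    _ ≤ ∑ q ∈ (words K m ×ˢ Im.powerset ×ˢ Im.powerset), ((B q).card : ℝ) := by
        exact_mod_cast card_biUnion_le
    _ ≤ ∑ _q ∈ (words K m ×ˢ Im.powerset ×ˢ Im.powerset), E * G.card := sum_le_sum hB
    _ = ((words K m).card : ℝ) * ((2 : ℝ) ^ Im.card * 2 ^ Im.card) * (E * G.card) := by
        rw [sum_const, nsmul_eq_mul, card_product, card_product, card_powerset]
        push_cast
        ring
    _ ≤ (Fintype.card K : ℝ) ^ m * ((2 : ℝ) ^ Im.card * 2 ^ Im.card) * (E * G.card) := by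
        have h1 : ((words K m).card : ℝ) ≤ (Fintype.card K : ℝ) ^ m := by
          exact_mod_cast card_words_le (K := K) m
        gcongr
    _ = _ := by
        have h4 : (4 : ℝ) ^ Im.card = (2 : ℝ) ^ Im.card * 2 ^ Im.card := by
          rw [← mul_pow]; norm_num
        rw [h4]
        ring

end all

end Pool.Agent.P325c
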