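import Pool.Agent.Lib.P325c.Defs

/-!
# Reduced words are geodesic

Sketch. `winv l` = the reversed word of the inverse letters; `wperm σ (winv l) = (wperm σ l)⁻¹`;
`Red G (winv l) ↔ Red G l`; a factor (sublist of consecutive letters) of a reduced word is reduced.

*Moving a letter*: if all letters of `y` commute with `a` (`∀ c ∈ y, G.Adj a.1 c.1`) then
`wperm σ (y ++ a :: z) = lperm σ a * wperm σ (y ++ z)`.

*Deleting*: if `x ++ a :: y` is reduced and all letters of `x` commute with `a` then `x ++ y` is reduced.
(Let `x ++ y = p ++ d :: (q ++ linv d :: r)`. If both letters are in `x` or both in `y` then the same pair and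
the same letters between them occur in `x ++ a :: y`. If `d` is in `x` and `linv d` in `y`: `x = p ++ d :: q1`,
`y = q2 ++ linv d :: r`, `q = q1 ++ q2`; in `x ++ a :: y` there is a letter `c` in `q1 ++ a :: q2` not commuting with `d`;
it is not `a`, as `a` commutes with `d`.)

`same_length`: induction on `w.length + w'.length`. Put `v = winv w ++ w'`; it fixes `r`. If it is empty both
words are empty. Otherwise it is not reduced (by `FreeUpTo`), so `v = x ++ a :: (y ++ linv a :: z)` with all
letters of `y` commuting with `a`. As `winv w` and `w'` are reduced, `a` is in `winv w` and `linv a` in `w'`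
(`List.append_eq_append_iff`): `winv w = x ++ a :: y1`, `w' = y2 ++ linv a :: z`, `y = y1 ++ y2`. Then
`w = winv y1 ++ linv a :: winv x`, all letters of `winv y1` commute with `a`. So `winv y1 ++ winv x` and
`y2 ++ z` are reduced, are shorter by one and map `r` to the same point (cancel `lperm σ (linv a)`).

`depth`: let `d v` be the least length of a word that maps `r` to `v` (`sInf`), `Dn v a := d (lperm σ a v) < d v`.
A word of least length is reduced (otherwise cancel a pair, `wperm` does not change).
For `v` in the ball take `w` of least length. For a letter `a`: if `a :: w` is reduced then by `same_length`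
`d (lperm σ a v) = d v + 1`; otherwise, as `w` is reduced, the cancelling pair contains the first letter, so
`w = y ++ linv a :: z` with all letters of `y` commuting with `a` and then `d (lperm σ a v) ≤ d v - 1`.
(own): if neither `Dn v a` nor `Dn v' (linv a)` (`v' = lperm σ a v`) then `d v = d v'`, contradiction to the alternative.
(clique): if `Dn v a`, `Dn v b`, then `w = y ++ linv a :: z = y' ++ linv b :: z'`; if `y.length = y'.length` then
`a = b`; if `y.length < y'.length` then `linv a ∈ y'`, so `G.Adj b.1 a.1`; and symmetrically.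
-/

open Finset

namespace Pool.Agent.P325c

/-- The inverse word. -/
def winv {κ : Type} (l : List (κ × Bool)) : List (κ × Bool) := (l.map linv).reverse

section words

variable {κ Ω : Type}

theorem linv_linv (a : κ × Bool) : linv (linv a) = a := by
  obtain ⟨k, b⟩ := a
  simp [linv]

theorem linv_fst (a : κ × Bool) : (linv a).1 = a.1 := rfl

theorem lperm_linv (σ : κ → Equiv.Perm Ω) (a : κ × Bool) : lperm σ (linv a) = (lperm σ a)⁻¹ := by
  obtain ⟨k, b⟩ := a
  cases b <;> simp [linv, lperm]

theorem wperm_append (σ : κ → Equiv.Perm Ω) (x y : List (κ × Bool)) :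
    wperm σ (x ++ y) = wperm σ x * wperm σ y := by
  induction x with
  | nil => simp [wperm]
  | cons a x ih => simp [wperm, ih, mul_assoc]

theorem winv_append (x y : List (κ × Bool)) : winv (x ++ y) = winv y ++ winv x := by
  simp [winv]

theorem winv_cons (a : κ × Bool) (x : List (κ × Bool)) : winv (a :: x) = winv x ++ [linv a] := by
  simp [winv]

theorem winv_winv (x : List (κ × Bool)) : winv (winv x) = x := by
  induction x with
  | nil => rfl
  | cons a x ih =>
    rw [winv_cons, winv_append, ih]
    simp [winv, linv_linv]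

theorem winv_length (x : List (κ × Bool)) : (winv x).length = x.length := by
  simp [winv]

theorem mem_winv {x : List (κ × Bool)} {c : κ × Bool} (h : c ∈ winv x) : linv c ∈ x := by
  simp only [winv, List.mem_reverse, List.mem_map] at h
  obtain ⟨b, hb, rfl⟩ := h
  rwa [linv_linv]

theorem wperm_winv (σ : κ → Equiv.Perm Ω) (x : List (κ × Bool)) :
    wperm σ (winv x) = (wperm σ x)⁻¹ := by
  induction x with
  | nil => simp [winv, wperm]
  | cons a x ih =>
    rw [winv_cons, wperm_append, ih]
    simp [wperm, lperm_linv]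

theorem winv_pair (x y z : List (κ × Bool)) (a : κ × Bool) :
    winv (x ++ a :: (y ++ linv a :: z)) = winv z ++ a :: (winv y ++ linv a :: winv x) := by
  rw [winv_append, winv_cons, winv_append, winv_cons, linv_linv]
  simp

theorem red_winv {G : SimpleGraph κ} {l : List (κ × Bool)} (h : Red G l) : Red G (winv l) := by
  intro x y z a hl
  have h1 : l = winv z ++ a :: (winv y ++ linv a :: winv x) := by
    rw [← winv_pair, ← hl, winv_winv]
  obtain ⟨c, hc, hadj⟩ := h _ _ _ _ h1
  exact ⟨linv c, mem_winv hc, hadj⟩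

theorem red_right {G : SimpleGraph κ} {x y : List (κ × Bool)} (h : Red G (x ++ y)) : Red G y := by
  intro p q z a hy
  exact h (x ++ p) q z a (by rw [hy]; simp)

theorem lperm_comm {G : SimpleGraph κ} {σ : κ → Equiv.Perm Ω} (hc : Comm G σ) {a c : κ × Bool}
    (h : G.Adj a.1 c.1) : lperm σ c * lperm σ a = lperm σ a * lperm σ c := by
  have h1 : Commute (σ c.1) (σ a.1) := hc _ _ h.symm
  obtain ⟨k, b⟩ := a
  obtain ⟨l, b'⟩ := c
  cases b <;> cases b'
  · exact h1.inv_left.inv_right
  · exact h1.inv_right
  · exact h1.inv_left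
  · exact h1

theorem move {G : SimpleGraph κ} {σ : κ → Equiv.Perm Ω} (hc : Comm G σ) (a : κ × Bool)
    (y z : List (κ × Bool)) (hy : ∀ c ∈ y, G.Adj a.1 c.1) :
    wperm σ (y ++ a :: z) = lperm σ a * wperm σ (y ++ z) := by
  induction y with
  | nil => rfl
  | cons c y ih =>
    have h1 := ih (fun d hd => hy d (List.mem_cons_of_mem _ hd))
    show lperm σ c * wperm σ (y ++ a :: z) = lperm σ a * (lperm σ c * wperm σ (y ++ z))
    rw [h1, ← mul_assoc, ← mul_assoc, lperm_comm hc (hy c List.mem_cons_self)]

theorem cancel_pair {G : SimpleGraph κ} {σ : κ → Equiv.Perm Ω} (hc : Comm G σ) (a : κ × Bool)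
    (x y z : List (κ × Bool)) (hy : ∀ c ∈ y, G.Adj a.1 c.1) :
    wperm σ (x ++ a :: (y ++ linv a :: z)) = wperm σ (x ++ (y ++ z)) := by
  rw [wperm_append, wperm_append σ x (y ++ z)]
  congr 1
  show lperm σ a * wperm σ (y ++ linv a :: z) = wperm σ (y ++ z)
  rw [move hc (linv a) y z hy, lperm_linv, mul_inv_cancel_left]

theorem red_delete {G : SimpleGraph κ} {x y : List (κ × Bool)} {a : κ × Bool}
    (h : Red G (x ++ a :: y)) (hx : ∀ c ∈ x, G.Adj a.1 c.1) : Red G (x ++ y) := by
  intro p q r d hxy
  have key : ∀ q1 q2, (∀ c ∈ q1, c ∈ q) → (∀ c ∈ q2, c ∈ q) → G.Adj a.1 d.1 →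
      (∃ c ∈ q1 ++ a :: q2, ¬ G.Adj d.1 c.1) → ∃ c ∈ q, ¬ G.Adj d.1 c.1 := by
    rintro q1 q2 h1 h2 had ⟨c, hc, hadj⟩
    rcases List.mem_append.1 hc with h3 | h3
    · exact ⟨c, h1 c h3, hadj⟩
    · rcases List.mem_cons.1 h3 with h4 | h4
      · rw [h4] at hadj
        exact absurd had.symm hadj
      · exact ⟨c, h2 c h4, hadj⟩
  rcases List.append_eq_append_iff.1 hxy with ⟨a', h1, h2⟩ | ⟨c', h1, h2⟩
  · exact h (x ++ a :: a') q r d (by rw [h2]; simp)
  · rcases c' with _ | ⟨e, c''⟩
    · simp only [List.append_nil, List.nil_append] at h1 h2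
      exact h (x ++ [a]) q r d (by rw [← h2]; simp)
    · simp only [List.cons_append, List.cons.injEq] at h2
      obtain ⟨rfl, h2⟩ := h2
      have had : G.Adj a.1 d.1 := hx d (by rw [h1]; simp)
      rcases List.append_eq_append_iff.1 h2 with ⟨a', h3, h4⟩ | ⟨c3, h3, h4⟩
      · rcases a' with _ | ⟨e, a''⟩
        · simp only [List.append_nil, List.nil_append] at h3 h4
          refine key q [] (fun c hc => hc) (by simp) had ?_
          exact h p (q ++ [a]) r d (by rw [h1, ← h4, h3]; simp)
        · simp only [List.cons_append, List.cons.injEq] at h4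
          obtain ⟨rfl, h4⟩ := h4
          exact h p q (a'' ++ a :: y) d (by rw [h1, h3]; simp)
      · refine key c'' c3 (fun c hc => by rw [h3]; simp [hc]) (fun c hc => by rw [h3]; simp [hc])
          had ?_
        exact h p (c'' ++ a :: c3) r d (by rw [h1, h4]; simp)

theorem not_red {G : SimpleGraph κ} {l : List (κ × Bool)} (h : ¬ Red G l) :
    ∃ (x y z : List (κ × Bool)) (a : κ × Bool), l = x ++ a :: (y ++ linv a :: z) ∧
      ∀ c ∈ y, G.Adj a.1 c.1 := by
  unfold Red at h
  push Not at h
  obtain ⟨x, y, z, a, hl, hy⟩ := h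
  exact ⟨x, y, z, a, hl, hy⟩

theorem not_red_append {G : SimpleGraph κ} {v w' : List (κ × Bool)} (hv : Red G v)
    (hw' : Red G w') (h : ¬ Red G (v ++ w')) :
    ∃ (x y1 y2 z : List (κ × Bool)) (a : κ × Bool), v = x ++ a :: y1 ∧ w' = y2 ++ linv a :: z ∧
      (∀ c ∈ y1, G.Adj a.1 c.1) ∧ ∀ c ∈ y2, G.Adj a.1 c.1 := by
  obtain ⟨x, y, z, a, hl, hy⟩ := not_red h
  rcases List.append_eq_append_iff.1 hl with ⟨a', h1, h2⟩ | ⟨c', h1, h2⟩
  · obtain ⟨c, hc, hadj⟩ := hw' a' y z a h2
    exact absurd (hy c hc) hadj
  · rcases c' with _ | ⟨e, c''⟩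
    · simp only [List.nil_append] at h2
      obtain ⟨c, hc, hadj⟩ := hw' [] y z a h2.symm
      exact absurd (hy c hc) hadj
    · simp only [List.cons_append, List.cons.injEq] at h2
      obtain ⟨rfl, h2⟩ := h2
      rcases List.append_eq_append_iff.1 h2 with ⟨a', h3, h4⟩ | ⟨c3, h3, h4⟩
      · rcases a' with _ | ⟨e, a''⟩
        · simp only [List.append_nil, List.nil_append] at h3 h4
          exact ⟨x, y, [], z, a, by rw [h1, h3], by simp [h4], hy, by simp⟩
        · simp only [List.cons_append, List.cons.injEq] at h4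
          obtain ⟨rfl, h4⟩ := h4
          obtain ⟨c, hc, hadj⟩ := hv x y a'' a (by rw [h1, h3])
          exact absurd (hy c hc) hadj
      · exact ⟨x, c'', c3, z, a, h1, h4, fun c hc => hy c (by rw [h3]; simp [hc]),
          fun c hc => hy c (by rw [h3]; simp [hc])⟩

theorem same_length_aux (G : SimpleGraph κ) (σ : κ → Equiv.Perm Ω) (hc : Comm G σ) (M : ℕ)
    (hfree : FreeUpTo G σ M) (r : Ω) (n : ℕ) : ∀ w w' : List (κ × Bool), Red G w → Red G w' →
    w.length + w'.length ≤ n → w.length + w'.length ≤ M → wperm σ w r = wperm σ w' r →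
    w.length = w'.length := by
  induction n with
  | zero =>
    intro w w' _ _ h _ _
    omega
  | succ n ih =>
    intro w w' hw hw' hn hM h
    by_cases hv : winv w ++ w' = []
    · have h1 := congrArg List.length hv
      simp only [List.length_append, winv_length, List.length_nil] at h1
      omega
    · have hfix : wperm σ (winv w ++ w') r = r := by
        rw [wperm_append, wperm_winv, Equiv.Perm.mul_apply, ← h]
        simp
      have hnr : ¬ Red G (winv w ++ w') := fun hr =>
        hfree _ hv (by simp only [List.length_append, winv_length]; exact hM) hr r hfix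
      obtain ⟨x, y1, y2, z, a, h1, h2, h3, h4⟩ := not_red_append (red_winv hw) hw' hnr
      have hwe : w = winv y1 ++ linv a :: winv x := by
        rw [← winv_winv w, h1, winv_append, winv_cons]
        simp
      have hy1 : ∀ c ∈ winv y1, G.Adj (linv a).1 c.1 := fun c hc => h3 (linv c) (mem_winv hc)
      have hy2 : ∀ c ∈ y2, G.Adj (linv a).1 c.1 := h4
      have e1 : wperm σ w r = lperm σ (linv a) (wperm σ (winv y1 ++ winv x) r) := by
        rw [hwe, move hc (linv a) _ _ hy1, Equiv.Perm.mul_apply]
      have e2 : wperm σ w' r = lperm σ (linv a) (wperm σ (y2 ++ z) r) := by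
        rw [h2, move hc (linv a) _ _ hy2, Equiv.Perm.mul_apply]
      have e3 : wperm σ (winv y1 ++ winv x) r = wperm σ (y2 ++ z) r := by
        apply (lperm σ (linv a)).injective
        rw [← e1, ← e2, h]
      have l1 : w.length = (winv y1 ++ winv x).length + 1 := by
        rw [hwe]
        simp only [List.length_append, List.length_cons]
        omega
      have l2 : w'.length = (y2 ++ z).length + 1 := by
        rw [h2]
        simp only [List.length_append, List.length_cons]
        omega
      have := ih _ _ (red_delete (hwe ▸ hw) hy1) (red_delete (h2 ▸ hw') hy2) (by omega)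
        (by omega) e3
      omega

end words

theorem same_length {κ Ω : Type} (G : SimpleGraph κ) (σ : κ → Equiv.Perm Ω) (hc : Comm G σ) (M : ℕ)
    (hfree : FreeUpTo G σ M) (w w' : List (κ × Bool)) (hw : Red G w) (hw' : Red G w')
    (hM : w.length + w'.length ≤ M) (r : Ω) (h : wperm σ w r = wperm σ w' r) :
    w.length = w'.length := by
  exact same_length_aux G σ hc M hfree r _ w w' hw hw' le_rfl hM h

/-- The least length of a word that maps `r` to `v`. -/
noncomputable def dist {κ Ω : Type} (σ : κ → Equiv.Perm Ω) (r v : Ω) : ℕ :=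
  sInf {n | ∃ l : List (κ × Bool), l.length = n ∧ wperm σ l r = v}

theorem dist_le {κ Ω : Type} {σ : κ → Equiv.Perm Ω} {r v : Ω} (l : List (κ × Bool))
    (h : wperm σ l r = v) : dist σ r v ≤ l.length :=
  Nat.sInf_le ⟨l, rfl, h⟩

theorem exists_dist {κ Ω : Type} {G : SimpleGraph κ} {σ : κ → Equiv.Perm Ω} (hc : Comm G σ)
    {r v : Ω} (l : List (κ × Bool)) (h : wperm σ l r = v) :
    ∃ w : List (κ × Bool), w.length = dist σ r v ∧ wperm σ w r = v ∧ Red G w := by
  obtain ⟨w, hw1, hw2⟩ := Nat.sInf_mem (s := {n | ∃ l : List (κ × Bool), l.length = n ∧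
    wperm σ l r = v}) ⟨_, l, rfl, h⟩
  refine ⟨w, hw1, hw2, ?_⟩
  by_contra hr
  obtain ⟨x, y, z, a, hl, hy⟩ := not_red hr
  have h1 : wperm σ (x ++ (y ++ z)) r = v := by
    rw [← cancel_pair hc a x y z hy, ← hl, hw2]
  have h2 := dist_le _ h1
  have h3 : w.length = (x ++ (y ++ z)).length + 2 := by
    rw [hl]
    simp only [List.length_append, List.length_cons]
    omega
  have h4 : w.length = dist σ r v := hw1
  omega

/-- A neighbour in the ball is farther from or nearer to the root. -/
theorem step {κ Ω : Type} (G : SimpleGraph κ) (σ : κ → Equiv.Perm Ω) (hc : Comm G σ) (N : ℕ)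
    (hfree : FreeUpTo G σ (2 * N + 1)) {r v : Ω} {w : List (κ × Bool)}
    (hw : w.length = dist σ r v) (hwv : wperm σ w r = v) (hr : Red G w) (hN : dist σ r v ≤ N)
    (a : κ × Bool) (ha : dist σ r (lperm σ a v) ≤ N) :
    dist σ r (lperm σ a v) = dist σ r v + 1 ∨
      (dist σ r (lperm σ a v) < dist σ r v ∧ ∃ y z, w = y ++ linv a :: z ∧
        ∀ c ∈ y, G.Adj a.1 c.1) := by
  have haw : wperm σ (a :: w) r = lperm σ a v := by
    show (lperm σ a * wperm σ w) r = _
    rw [Equiv.Perm.mul_apply, hwv]
  by_cases h : Red G (a :: w)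
  · left
    obtain ⟨u, hu1, hu2, hu3⟩ := exists_dist hc _ haw
    have := same_length G σ hc (2 * N + 1) hfree u (a :: w) hu3 h
      (by rw [List.length_cons]; omega) r (by rw [hu2, haw])
    rw [List.length_cons] at this
    omega
  · right
    obtain ⟨x, y, z, b, hl, hy⟩ := not_red h
    rcases x with _ | ⟨e, x⟩
    · simp only [List.nil_append, List.cons.injEq] at hl
      obtain ⟨rfl, hl⟩ := hl
      refine ⟨?_, y, z, hl, hy⟩
      have h1 : wperm σ (y ++ z) r = lperm σ a v := by
        have h2 := move hc (linv a) y z hy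
        rw [← hl] at h2
        rw [← hwv, h2, Equiv.Perm.mul_apply, lperm_linv]
        simp
      have h3 := dist_le _ h1
      have h4 : w.length = (y ++ z).length + 1 := by
        rw [hl]
        simp only [List.length_append, List.length_cons]
        omega
      omega
    · simp only [List.cons_append, List.cons.injEq] at hl
      obtain ⟨c, hc', hadj⟩ := hr x y z b hl.2
      exact absurd (hy c hc') hadj

/-- Ownership of the edges: a relation `Dn v a` (the letter `a` leads from `v` back towards the root `r`) on the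
ball of radius `N` around `r`. -/
theorem depth {κ Ω : Type} (G : SimpleGraph κ) (σ : κ → Equiv.Perm Ω) (hc : Comm G σ) (N : ℕ)
    (hfree : FreeUpTo G σ (2 * N + 1)) (r : Ω) :
    ∃ Dn : Ω → κ × Bool → Prop,
      (∀ a, ¬ Dn r a) ∧
      (∀ v a, (∃ l : List (κ × Bool), l.length ≤ N ∧ wperm σ l r = v) →
        (∃ l : List (κ × Bool), l.length ≤ N ∧ wperm σ l r = lperm σ a v) →
        Dn v a ∨ Dn (lperm σ a v) (linv a)) ∧
      (∀ v a b, (∃ l : List (κ × Bool), l.length ≤ N ∧ wperm σ l r = v) → Dn v a → Dn v b →
        a ≠ b → G.Adj a.1 b.1) := by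
  classical
  refine ⟨fun v a => dist σ r (lperm σ a v) < dist σ r v, ?_, ?_, ?_⟩
  · intro a h
    have h1 : dist σ r r ≤ 0 := dist_le [] rfl
    omega
  · rintro v a ⟨l, hl, hlv⟩ ⟨l', hl', hlv'⟩
    obtain ⟨w, hw1, hw2, hw3⟩ := exists_dist hc l hlv
    have h1 : dist σ r v ≤ N := (dist_le l hlv).trans hl
    have h2 : dist σ r (lperm σ a v) ≤ N := (dist_le l' hlv').trans hl'
    rcases step G σ hc N hfree hw1 hw2 hw3 h1 a h2 with h | ⟨h, _⟩
    · right
      show dist σ r (lperm σ (linv a) (lperm σ a v)) < dist σ r (lperm σ a v)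
      have e : lperm σ (linv a) (lperm σ a v) = v := by
        rw [lperm_linv]
        simp
      rw [e]
      omega
    · left
      exact h
  · rintro v a b ⟨l, hl, hlv⟩ ha hb hab
    obtain ⟨w, hw1, hw2, hw3⟩ := exists_dist hc l hlv
    have h1 : dist σ r v ≤ N := (dist_le l hlv).trans hl
    rcases step G σ hc N hfree hw1 hw2 hw3 h1 a (by omega) with h | ⟨_, y, z, hyz, hy⟩
    · omega
    rcases step G σ hc N hfree hw1 hw2 hw3 h1 b (by omega) with h | ⟨_, y', z', hyz', hy'⟩
    · omega
    rw [hyz] at hyz'
    rcases List.append_eq_append_iff.1 hyz' with ⟨a', h3, h4⟩ | ⟨c', h3, h4⟩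
    · rcases a' with _ | ⟨e, a''⟩
      · simp only [List.nil_append, List.cons.injEq] at h4
        exact absurd (by rw [← linv_linv a, h4.1, linv_linv]) hab
      · simp only [List.cons_append, List.cons.injEq] at h4
        have := hy' e (by rw [h3]; simp)
        rw [← h4.1] at this
        exact this.symm
    · rcases c' with _ | ⟨e, c''⟩
      · simp only [List.nil_append, List.cons.injEq] at h4
        exact absurd (by rw [← linv_linv a, ← h4.1, linv_linv]) hab
      · simp only [List.cons_append, List.cons.injEq] at h4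
        have := hy e (by rw [h3]; simp)
        rw [← h4.1] at this
        exact this

end Pool.Agent.P325c
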